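import Pool.Agent.Helper775.Tight.Alg

/-! More abstract lemmas: decompositions near `B`, quasi-isomorphisms. -/

set_option autoImplicit false

namespace Pool.Agent.Helper775.Tight

open Set Topology

namespace SoftCx

section point

variable {Y K K' : Type*} [TopologicalSpace Y] [AddCommGroup K] [AddCommGroup K']
  {M : SoftCx Y K} {F : SoftCx Y K'}

/-- the cone over a fibre of type `a` is exact except in index `d + 2`. -/
theorem cone_ex_of_atype {d : ℕ} (φ : Mor M F) (one : K) (a : K') (w : Y)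
    (hone : M.D one ∈ M.N w 2) (hM : M.Acy one {w}) (hF : F.AType (φ.f one) d a {w}) (n : ℕ)
    (hn : n ≠ d + 2) : (cone φ).Ex {w} n := by
  obtain ⟨-, hM1, hM2⟩ := hM
  obtain ⟨hF0, hF1, hF2, hF3, hF4⟩ := hF
  simp only [mem_singleton_iff, forall_eq] at hM1 hF0 hF1
  rintro ⟨e, f⟩ hk
  have hk' := hk w rfl
  rw [cone_D, cone_N] at hk'
  obtain ⟨he, hf⟩ := hk'
  simp only [add_tsub_cancel_right] at he hf
  rcases n with _ | _ | n
  · exact cob_index_zero _ _
  · have h1 := hM1 e (by intro z hz; rw [mem_singleton_iff.1 hz]; exact he)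
    rcases h1 with h1 | h1
    · exact Cob.of_mem fun z hz => by
        rw [mem_singleton_iff.1 hz]; exact ⟨h1, F.N_zero _ _⟩
    · exfalso
      apply hF0
      have h2 := φ.mem w 1 _ h1
      have h3 := F.D_mem w 0 f (F.N_zero w f)
      have h4 := add_mem hf h3
      rw [map_sub] at h2
      have h5 := sub_mem h4 h2
      have e1 : φ.f e - F.D f + F.D f - (φ.f e - φ.f one) = φ.f one := by abel
      rw [e1] at h5
      exact h5
  · obtain ⟨e', he'⟩ := hM2 (n + 2) (by omega) e
      (by intro z hz; rw [mem_singleton_iff.1 hz]; exact he)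
    have he'' := he' w rfl
    have hg : F.Coc {w} (n + 1) (f - φ.f e') := by
      intro z hz
      rw [mem_singleton_iff.1 hz]
      have h1 := φ.mem w (n + 2) _ he''
      have h2 := φ.comm w (n + 2) e'
      rw [map_sub] at h1
      have h3 := neg_mem (add_mem (add_mem hf (neg_mem h1)) h2)
      convert h3 using 1
      rw [map_sub]; abel
    rcases Nat.eq_zero_or_pos n with rfl | hn0
    · rcases hF1 _ hg with h1 | h1
      · refine ⟨(e', 0), fun z hz => ?_⟩
        rw [mem_singleton_iff.1 hz, cone_D, cone_N]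
        refine ⟨he'', ?_⟩
        simpa using h1
      · refine ⟨(e' + one, 0), fun z hz => ?_⟩
        rw [mem_singleton_iff.1 hz, cone_D, cone_N]
        refine ⟨?_, ?_⟩
        · have := sub_mem he'' hone
          simp only [Prod.fst_sub, map_add] at this ⊢
          convert this using 1
          abel
        · simp only [Prod.snd_sub, map_add, map_zero]
          convert h1 using 1
          abel
    · obtain ⟨g', hg'⟩ := hF2 (n + 1) (by omega) (by omega) _ hg
      refine ⟨(e', -g'), fun z hz => ?_⟩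
      rw [mem_singleton_iff.1 hz, cone_D, cone_N]
      refine ⟨he'', ?_⟩
      have := hg' w rfl
      change f - (φ.f e' - F.D (-g')) ∈ F.N w (n + 1)
      rw [map_neg]
      convert this using 1
      abel

end point

section general

variable {Y K K' : Type*} [TopologicalSpace Y] [AddCommGroup K] [AddCommGroup K']
  {M : SoftCx Y K} {F : SoftCx Y K'}

theorem Mor.coc (φ : Mor M F) {A : Set Y} {n : ℕ} {e : K} (he : M.Coc A n e) :
    F.Coc A n (φ.f e) := by
  intro z hz
  have h1 := φ.comm z (n + 1) e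
  have h2 := φ.mem z (n + 1) (M.D e) (he z hz)
  simpa using add_mem h1 h2

theorem Mor.cob (φ : Mor M F) {A : Set Y} {n : ℕ} {e : K} (he : M.Cob A n e) :
    F.Cob A n (φ.f e) := by
  obtain ⟨b, hb⟩ := he
  refine ⟨φ.f b, fun z hz => ?_⟩
  have h1 := φ.comm z n b
  have h2 := φ.mem z n _ (hb z hz)
  rw [map_sub] at h2
  have := sub_mem h2 h1
  convert this using 1
  abel

/-- surjectivity from exactness of the cone. -/
theorem cone_surj (φ : Mor M F) {A : Set Y} {n : ℕ} (hC : (cone φ).Ex A (n + 1)) {y : K'}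
    (hy : F.Coc A n y) : ∃ e, M.Coc A n e ∧ F.Cob A n (y - φ.f e) := by
  obtain ⟨⟨e, f⟩, h⟩ := hC (0, y) (by
    intro z hz
    refine ⟨by simp, ?_⟩
    have := neg_mem (hy z hz)
    simpa using this)
  refine ⟨e, fun z hz => ?_, -f, fun z hz => ?_⟩
  · have h1 : (0 : K) - M.D e ∈ M.N z (n + 1) := (h z hz).1
    simpa using neg_mem h1
  · have h1 := (h z hz).2
    change y - (φ.f e - F.D f) ∈ F.N z n at h1
    rw [map_neg]
    convert h1 using 1
    abel

/-- injectivity from exactness of the cone. -/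
theorem cone_inj (φ : Mor M F) {A : Set Y} {n : ℕ} (hC : (cone φ).Ex A n) {e : K}
    (he : M.Coc A n e) (h : F.Cob A n (φ.f e)) : M.Cob A n e := by
  obtain ⟨f, hf⟩ := h
  obtain ⟨⟨e', f'⟩, h'⟩ := hC (e, f) (fun z hz => ⟨he z hz, hf z hz⟩)
  exact ⟨e', fun z hz => (h' z hz).1⟩

theorem ex_of_cone (φ : Mor M F) {A : Set Y} {n : ℕ} (hC : (cone φ).Ex A (n + 1))
    (h : M.Ex A n) : F.Ex A n := by
  intro y hy
  obtain ⟨e, he, he'⟩ := cone_surj φ hC hy
  have := he'.add (φ.cob (h e he))
  simpa using this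

/-- transfer of acyclicity along a quasi-isomorphism. -/
theorem acy_of_cone (φ : Mor M F) {A : Set Y} (hC : ∀ n, (cone φ).Ex A n) {one : K}
    (h : M.Acy one A) (hone : M.Coc A 1 one) : F.Acy (φ.f one) A := by
  refine ⟨?_, ?_, fun n hn => ex_of_cone φ (hC _) (h.2.2 n hn)⟩
  · intro h1
    apply h.1
    exact cob_one.1 (cone_inj φ (hC 1) hone (Cob.of_mem h1))
  · intro y hy
    obtain ⟨e, he, he'⟩ := cone_surj φ (hC 2) hy
    have he'' := cob_one.1 he'
    rcases h.2.1 e he with h1 | h1
    · left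
      intro z hz
      simpa using add_mem (he'' z hz) (φ.mem z 1 _ (h1 z hz))
    · right
      intro z hz
      have := add_mem (he'' z hz) (φ.mem z 1 _ (h1 z hz))
      rw [map_sub] at this
      convert this using 1
      abel

theorem atype_of_cone (φ : Mor M F) {A : Set Y} (hC : ∀ n, (cone φ).Ex A n) {one : K} {d : ℕ}
    {a : K} (h : M.AType one d a A) (hone : M.Coc A 1 one) (ha : M.Coc A (d + 1) a) :
    F.AType (φ.f one) d (φ.f a) A := by
  refine ⟨?_, ?_, fun n hn hnd => ex_of_cone φ (hC _) (h.2.2.1 n hn hnd), ?_, ?_⟩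
  · intro h1
    apply h.1
    exact cob_one.1 (cone_inj φ (hC 1) hone (Cob.of_mem h1))
  · intro y hy
    obtain ⟨e, he, he'⟩ := cone_surj φ (hC 2) hy
    have he'' := cob_one.1 he'
    rcases h.2.1 e he with h1 | h1
    · left
      intro z hz
      simpa using add_mem (he'' z hz) (φ.mem z 1 _ (h1 z hz))
    · right
      intro z hz
      have := add_mem (he'' z hz) (φ.mem z 1 _ (h1 z hz))
      rw [map_sub] at this
      convert this using 1
      abel
  · intro y hy
    obtain ⟨e, he, he'⟩ := cone_surj φ (hC _) hy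
    rcases h.2.2.2.1 e he with h1 | h1
    · left
      have := he'.add (φ.cob h1)
      simpa using this
    · right
      have := he'.add (φ.cob h1)
      rw [map_sub] at this
      convert this using 1
      abel
  · intro h1
    exact h.2.2.2.2 (cone_inj φ (hC _) ha h1)

/-- the type only depends on the class of `a`. -/
theorem AType.congr {one : K} {d : ℕ} {a a' : K} {Z : Set Y} (h : M.AType one d a Z)
    (haa : M.Cob Z (d + 1) (a - a')) : M.AType one d a' Z := by
  refine ⟨h.1, h.2.1, h.2.2.1, ?_, ?_⟩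
  · intro k hk
    rcases h.2.2.2.1 k hk with h1 | h1
    · exact Or.inl h1
    · right
      have := h1.add haa
      convert this using 1
      abel
  · intro h1
    apply h.2.2.2.2
    have := haa.add h1
    simpa using this

end general

section metric

variable {Y K K' : Type*} [MetricSpace Y] [AddCommGroup K] [AddCommGroup K']
  {M : SoftCx Y K} {F : SoftCx Y K'}

/-- (Y1) decomposition of a cocycle near `B`. -/
theorem decomp {d : ℕ} (φ : Mor M F) (lam : Mor (M.shift d) F) {B : Set Y} {n : ℕ}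
    (hL : (cone (φ.sum lam)).Ex B (n + 1)) {y : K'} (hy : F.Coc B n y) :
    ∃ e b f, M.Coc B n e ∧ M.Coc B (n - d) b ∧
      ∀ z ∈ B, y - (φ.f e + lam.f b - F.D f) ∈ F.N z n := by
  have hk : (cone (φ.sum lam)).Coc B (n + 1) (((0 : K), (0 : K)), y) := by
    refine coneL_coc φ lam ?_ ?_ ?_
    · intro z hz
      rw [map_zero]
      exact zero_mem (M.N z (n + 1 + 1))
    · intro z hz
      rw [map_zero]
      exact zero_mem (M.N z (n + 1 + 1 - d))
    · intro z hz
      have h0 := neg_mem (hy z hz)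
      have e0 : φ.f 0 + lam.f 0 - F.D y = -F.D y := by
        rw [map_zero, map_zero, zero_add, zero_sub]
      rw [e0]
      exact h0
  obtain ⟨e, b, f, h1, h2, h3⟩ := coneL_cob φ lam (hL _ hk)
  refine ⟨e, b, f, ?_, ?_, ?_⟩
  · intro z hz
    have h4 := neg_mem (h1 z hz)
    rw [zero_sub, neg_neg] at h4
    exact h4
  · intro z hz
    have h4 := h2 z hz
    rcases le_or_gt d n with h | h
    · have e1 : n + 1 - d = n - d + 1 := by omega
      rw [e1] at h4
      have h5 := neg_mem h4
      rw [zero_sub, neg_neg] at h5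
      exact h5
    · have e1 : n - d = 0 := by omega
      rw [e1]
      exact M.D_mem z 0 b (M.N_zero z b)
  · intro z hz
    have h4 := h3 z hz
    rw [Nat.add_sub_cancel] at h4
    exact h4

/-- (Y2) uniqueness of the decomposition. -/
theorem decomp_unique {d : ℕ} (φ : Mor M F) (lam : Mor (M.shift d) F) {B : Set Y} {n : ℕ}
    (hL : (cone (φ.sum lam)).Ex B n) {e b : K} {f : K'} (he : M.Coc B n e)
    (hb : M.Coc B (n - d) b) (h : ∀ z ∈ B, φ.f e + lam.f b - F.D f ∈ F.N z n) :
    M.Cob B n e ∧ M.Cob B (n - d) b := by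
  obtain ⟨e', b', f', h1, h2, -⟩ := coneL_cob φ lam (hL ((e, b), f)
    (coneL_coc φ lam he (by
      intro z hz
      rcases le_or_gt d n with h | h
      · have e1 : n + 1 - d = n - d + 1 := by omega
        rw [e1]; exact hb z hz
      · have e1 : n + 1 - d = 0 := by omega
        rw [e1]
        exact M.N_zero z _) h))
  exact ⟨⟨e', h1⟩, ⟨b', h2⟩⟩

/-- (Y3) a cocycle over `A` which comes from the base near `B` comes from the base. -/
theorem from_base (φ : Mor M F) {A B : Set Y} {n : ℕ} (hA : IsCompact A) (hB : IsCompact B)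
    (_hBA : B ⊆ A) (hC : ∀ w ∈ A \ B, ∀ n, (cone φ).Ex {w} n) {y : K'} (hy : F.Coc A n y)
    {e : K} {f : K'} (he : M.Coc B n e) (h : ∀ z ∈ B, y - (φ.f e - F.D f) ∈ F.N z n) :
    ∃ g, M.Coc A n g ∧ F.Cob A n (y - φ.f g) := by
  have h1 : (cone φ).Coc A (n + 1) (0, y) := by
    intro z hz
    refine ⟨by simp, ?_⟩
    have := neg_mem (hy z hz)
    simpa using this
  have h2 : (cone φ).Cob B (n + 1) (0, y) := by
    refine ⟨(e, f), fun z hz => ⟨?_, ?_⟩⟩
    · change 0 - M.D e ∈ M.N z (n + 1)
      rw [zero_sub]; exact neg_mem (he z hz)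
    · exact h z hz
  obtain ⟨⟨g, f'⟩, h3⟩ := cob_of_cob_near hA hB hC h1 h2
  refine ⟨g, fun z hz => ?_, -f', fun z hz => ?_⟩
  · have h4 : (0 : K) - M.D g ∈ M.N z (n + 1) := (h3 z hz).1
    simpa using neg_mem h4
  · have h4 := (h3 z hz).2
    change y - (φ.f g - F.D f') ∈ F.N z n at h4
    rw [map_neg]
    convert h4 using 1
    abel

/-- (Y4) extension of a cocycle near `B`, modulo the base. -/
theorem ext_base (φ : Mor M F) {A B : Set Y} {n : ℕ} (hA : IsCompact A) (hB : IsCompact B)
    (hBA : B ⊆ A) (hC : ∀ w ∈ A \ B, ∀ n, (cone φ).Ex {w} n) {y : K'} (hy : F.Coc B n y)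
    (hM : M.Ex A (n + 1)) :
    ∃ c e, F.Coc A n c ∧ M.Coc B n e ∧ ∀ z ∈ B, c - (y - φ.f e) ∈ F.N z n := by
  obtain ⟨⟨e, f⟩, h1, h2⟩ := exists_extend (C := cone φ) (n := n + 1) (k := (0, y))
    hA hB hBA hC (by
      intro z hz
      refine ⟨by simp, ?_⟩
      have := neg_mem (hy z hz)
      simpa using this)
  obtain ⟨e', he'⟩ := hM e (fun z hz => (h1 z hz).1)
  refine ⟨f - φ.f e', e', ?_, ?_, ?_⟩
  · intro z hz
    have h3 := (h1 z hz).2
    change φ.f e - F.D f ∈ F.N z (n + 1 + 1 - 1) at h3
    simp only [add_tsub_cancel_right] at h3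
    have h4 := φ.mem z _ _ (he' z hz)
    have h5 := φ.comm z (n + 1) e'
    rw [map_sub] at h4 ⊢
    have h6 := neg_mem (add_mem (sub_mem h3 h4) h5)
    convert h6 using 1
    abel
  · intro z hz
    have h3 := he' z (hBA hz)
    have h4 := (h2 z hz).1
    change e - 0 ∈ M.N z (n + 1) at h4
    rw [sub_zero] at h4
    simpa using sub_mem h4 h3
  · intro z hz
    have h4 := (h2 z hz).2
    change f - y ∈ F.N z (n + 1 - 1) at h4
    simp only [add_tsub_cancel_right] at h4
    convert h4 using 1
    abel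

end metric

end SoftCx

end Pool.Agent.Helper775.Tight
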