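import Pool.Agent.Helper775.Sym.K3
import Pool.Agent.Helper775.Tight.Core

/-! The abstract situation of the incidence space, the antipodal fibre product and its involution. -/

set_option autoImplicit false

namespace Pool.Agent.Helper775.Tight

open Set Topology SoftCx

/-- the abstract situation: `G` over the sphere `S` with fibres acyclic off `B` and of type `a`
over `B = -B`, and the antipodal fibre square `H`. -/
structure Dat {Ω E R : Type*} [MetricSpace Ω] [MetricSpace E] [MetricSpace R]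
    [InvolutiveNeg E] [ContinuousNeg E] [InvolutiveNeg R] [ContinuousNeg R]
    (k : ℕ) (π : Ω → E) (G : Set Ω) (S B : Set E) (a : Ch Ω) (H : Set (Ω × Ω × R)) : Prop where
  hk : 1 ≤ k
  hπ : Continuous π
  hG : IsCompact G
  hS : IsCompact S
  hB : IsCompact B
  hH : IsCompact H
  hBS : B ⊆ S
  hGS : ∀ ξ ∈ G, π ξ ∈ S
  negB : ∀ z ∈ B, -z ∈ B
  negS : ∀ z ∈ S, -z ∈ S
  ha : (AS Ω).Coc G (k + 1) a
  fibB : ∀ w ∈ B, (AS Ω).AType one k a (G ∩ π ⁻¹' {w})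
  fibA : ∀ w ∈ S \ B, (AS Ω).Acy one (G ∩ π ⁻¹' {w})
  exS : ∀ m, 2 ≤ m → m ≤ 2 * k + 2 → (AS E).Ex S m
  conS : ∀ c, (AS E).Coc S 1 c → (∀ z ∈ S, c ∈ (AS E).N z 1) ∨ ∀ z ∈ S, c - one ∈ (AS E).N z 1
  H1 : ∀ p ∈ H, p.1 ∈ G ∧ p.2.1 ∈ G ∧ π p.1 = - π p.2.1
  H2 : ∀ ξ ∈ G, ∀ η ∈ G, π ξ = - π η → ∃ s, (ξ, η, s) ∈ H
  H3 : ∀ ξ η s s', (ξ, η, s) ∈ H → (ξ, η, s') ∈ H → s = s'
  H4 : ∀ p ∈ H, (p.2.1, p.1, - p.2.2) ∈ H

namespace Dat

variable {Ω E R : Type*} [MetricSpace Ω] [MetricSpace E] [MetricSpace R]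
    [InvolutiveNeg E] [ContinuousNeg E] [InvolutiveNeg R] [ContinuousNeg R]
    {k : ℕ} {π : Ω → E} {G : Set Ω} {S B : Set E} {a : Ch Ω} {H : Set (Ω × Ω × R)}

theorem hda (D : Dat k π G S B a H) : ∀ p ∈ H, dd a ∈ Nz p.1 (k + 2) :=
  fun p hp => D.ha _ (D.H1 p hp).1

theorem hGB (D : Dat k π G S B a H) : IsCompact (G ∩ π ⁻¹' B) :=
  D.hG.inter_right (D.hB.isClosed.preimage D.hπ)

/-! ### fibres -/

theorem j12366_acy_congr {Y K : Type*} [TopologicalSpace Y] [AddCommGroup K] {C : SoftCx Y K}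
    {u u' : K} {Z : Set Y} (h : C.Acy u Z) (hc : ∀ z ∈ Z, u' - u ∈ C.N z 1) : C.Acy u' Z := by
  obtain ⟨h1, h2, h3⟩ := h
  refine ⟨fun hall => h1 fun z hz => ?_, fun k hk => ?_, h3⟩
  · have := sub_mem (hall z hz) (hc z hz)
    rwa [sub_sub_cancel] at this
  · rcases h2 k hk with h4 | h4
    · exact Or.inl h4
    · right
      intro z hz
      have := sub_mem (h4 z hz) (hc z hz)
      have e : k - u - (u' - u) = k - u' := by abel
      rwa [e] at this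

theorem j12366_atype_congr {Y K : Type*} [TopologicalSpace Y] [AddCommGroup K] {C : SoftCx Y K}
    {u u' : K} {d : ℕ} {a : K} {Z : Set Y} (h : C.AType u d a Z)
    (hc : ∀ z ∈ Z, u' - u ∈ C.N z 1) : C.AType u' d a Z := by
  obtain ⟨h1, h2, h3⟩ := h
  refine ⟨fun hall => h1 fun z hz => ?_, fun k hk => ?_, h3⟩
  · have := sub_mem (hall z hz) (hc z hz)
    rwa [sub_sub_cancel] at this
  · rcases h2 k hk with h4 | h4
    · exact Or.inl h4
    · right
      intro z hz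
      have := sub_mem (h4 z hz) (hc z hz)
      have e : k - u - (u' - u) = k - u' := by abel
      rwa [e] at this

/-- the fibre of `H` over `η` -/
def j12366_Z (H : Set (Ω × Ω × R)) (η : Ω) : Set (Ω × Ω × R) :=
  H ∩ (fun p : Ω × Ω × R => p.2.1) ⁻¹' {η}

theorem j12366_hZ (D : Dat k π G S B a H) (η : Ω) : IsCompact (j12366_Z H η) :=
  D.hH.inter_right (isClosed_singleton.preimage continuous_pr2)

theorem j12366_img (D : Dat k π G S B a H) (η : Ω) :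
    j12366_Z H η ∩ (fun p : Ω × Ω × R => p.1) ⁻¹' (G ∩ π ⁻¹' {- π η}) = j12366_Z H η := by
  ext p
  constructor
  · exact fun h => h.1
  · intro h
    obtain ⟨h1, h2, h3⟩ := D.H1 p h.1
    have h4 : p.2.1 = η := h.2
    refine ⟨h, h1, ?_⟩
    show π p.1 = - π η
    rw [h3, h4]

theorem j12366_pt (D : Dat k π G S B a H) (η : Ω) (hη : η ∈ G) (ξ : Ω)
    (hξ : ξ ∈ G ∩ π ⁻¹' {- π η}) :
    ∃ p : Ω × Ω × R, j12366_Z H η ∩ (fun p : Ω × Ω × R => p.1) ⁻¹' {ξ} = {p} := by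
  obtain ⟨s, hs⟩ := D.H2 ξ hξ.1 η hη hξ.2
  refine ⟨(ξ, η, s), ?_⟩
  ext ⟨x, y, t⟩
  constructor
  · rintro ⟨⟨h1, h2⟩, h3⟩
    have e2 : y = η := h2
    have e3 : x = ξ := h3
    subst e2 e3
    rw [D.H3 _ _ _ _ h1 hs]
    rfl
  · intro h
    have e : ((x, y, t) : Ω × Ω × R) = (ξ, η, s) := h
    rw [e]
    exact ⟨⟨hs, rfl⟩, rfl⟩

theorem j12366_cone (D : Dat k π G S B a H) (η : Ω) (hη : η ∈ G) (n : ℕ) :
    (cone (phi1 (j12366_Z H η) (j12366_hZ D η))).Ex (G ∩ π ⁻¹' {- π η}) n := by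
  refine ex_of_pointwise n (D.hG.inter_right (isClosed_singleton.preimage D.hπ))
    (fun ξ hξ m _ => ?_)
  refine cone_ex_of_acy (phi1 (j12366_Z H η) (j12366_hZ D η)) one ξ (one_D_mem ξ)
    (acy_singleton ξ) ?_ m
  rw [phi1_f, push_acy]
  obtain ⟨p, hp⟩ := j12366_pt D η hη ξ hξ
  rw [hp]
  refine j12366_acy_congr (k3_acy_singleton p) (fun z _ => ?_)
  rw [K3_N]
  exact Q1_one

theorem j12366_Q12 (p : Ω × Ω × R) : (Q2 one : Ch3 Ω Ω R) - Q1 one ∈ (K3 Ω Ω R).N p 1 := by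
  rw [K3_N]
  have := sub_mem (Q2_one (A := Ω) (B := Ω) (C := R) (p := p)) (Q1_one (A := Ω) (B := Ω) (C := R) (p := p))
  have e : (Q2 one : Ch3 Ω Ω R) - one3 - (Q1 one - one3) = Q2 one - Q1 one := by abel
  rwa [e] at this

theorem j12366_coc_one (Z : Set Ω) : (AS Ω).Coc Z 1 one := fun z _ => one_D_mem z

theorem fib2Acy (D : Dat k π G S B a H) (η : Ω) (hη : η ∈ G) (hb : π η ∉ B) :
    (PK2 H D.hH).Acy (Q2 one) {η} := by
  have hw : - π η ∈ S \ B := by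
    refine ⟨D.negS _ (D.hGS η hη), fun h => hb ?_⟩
    have := D.negB _ h
    rwa [neg_neg] at this
  have h1 := acy_of_cone (phi1 (j12366_Z H η) (j12366_hZ D η)) (j12366_cone D η hη)
    (D.fibA _ hw) (j12366_coc_one _)
  rw [phi1_f, push_acy, j12366_img D η] at h1
  rw [push_acy]
  exact j12366_acy_congr h1 (fun z _ => j12366_Q12 z)

theorem fib2A (D : Dat k π G S B a H) (η : Ω) (hη : η ∈ G) (hb : π η ∈ B) :
    (PK2 H D.hH).AType (Q2 one) k (Q1 a) {η} := by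
  have h1 := atype_of_cone (phi1 (j12366_Z H η) (j12366_hZ D η)) (j12366_cone D η hη)
    (D.fibB _ (D.negB _ hb)) (j12366_coc_one _) (D.ha.mono inter_subset_left)
  rw [phi1_f, phi1_f, push_atype, j12366_img D η] at h1
  rw [push_atype]
  exact j12366_atype_congr h1 (fun z _ => j12366_Q12 z)

theorem cone2 (D : Dat k π G S B a H) (η : Ω) (hη : η ∈ G \ (G ∩ π ⁻¹' B)) (n : ℕ) :
    (cone (phi2 H D.hH)).Ex {η} n := by
  refine cone_ex_of_acy (phi2 H D.hH) one η (one_D_mem η) (acy_singleton η) ?_ n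
  rw [phi2_f]
  exact D.fib2Acy η hη.1 fun h => hη.2 ⟨hη.1, h⟩

theorem coneL2 (D : Dat k π G S B a H) {Z : Set Ω} (hZ : IsCompact Z) (hZB : Z ⊆ G ∩ π ⁻¹' B)
    (n : ℕ) : (cone ((phi2 H D.hH).sum (lam3 H D.hH k a D.hda))).Ex Z n := by
  refine ex_of_pointwise n hZ fun z hz m _ => ?_
  refine coneL_ex_of_atype D.hk (phi2 H D.hH) (lam3 H D.hH k a D.hda) one (Q1 a) z (one_D_mem z)
    ?_ (acy_singleton z) ?_ m
  · rw [mem_push_N]
    intro p _
    rw [lam3_f]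
    exact XX_one a
  · rw [phi2_f]
    exact D.fib2A z (hZB hz).1 (hZB hz).2

theorem coneG (D : Dat k π G S B a H) (w : E) (hw : w ∈ S \ B) (n : ℕ) :
    (cone (phi π D.hπ G D.hG)).Ex {w} n := by
  refine cone_ex_of_acy (phi π D.hπ G D.hG) one w (one_D_mem w) (acy_singleton w) ?_ n
  rw [phi_f, pb_one, push_acy]
  exact D.fibA w hw

theorem coneLG (D : Dat k π G S B a H) {Z : Set E} (hZ : IsCompact Z) (hZB : Z ⊆ B)
    (n : ℕ) : (cone ((phi π D.hπ G D.hG).sum (lam π D.hπ G D.hG k a D.ha))).Ex Z n :=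
  coneL_ex D.hπ D.hG D.hk D.ha hZ (fun w hw => D.fibB w (hZB hw)) n

/-! ### decompositions on `G` -/

theorem decompG (D : Dat k π G S B a H) {Z : Set E} (hZ : IsCompact Z) (hZB : Z ⊆ B) {n : ℕ}
    {y : Ch Ω} (hy : (AS Ω).Coc (G ∩ π ⁻¹' Z) n y) :
    ∃ (e b : Ch E) (f : Ch Ω), (AS E).Coc Z n e ∧ (AS E).Coc Z (n - k) b ∧
      ∀ ξ ∈ G ∩ π ⁻¹' Z, y - (pb π e + cup k a (pb π b) - dd f) ∈ Nz ξ n := by
  have hy' : (PF π D.hπ G D.hG).Coc Z n y := (push_coc (AS Ω) π D.hπ G D.hG Z n y).2 hy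
  obtain ⟨e, b, f, he, hb, h⟩ := decomp (phi π D.hπ G D.hG) (lam π D.hπ G D.hG k a D.ha)
    (D.coneLG hZ hZB (n + 1)) hy'
  exact ⟨e, b, f, he, hb, (forall_push_N (AS Ω) π D.hπ G D.hG Z n _).1 h⟩

theorem uniqG (D : Dat k π G S B a H) {Z : Set E} (hZ : IsCompact Z) (hZB : Z ⊆ B) {n : ℕ}
    {e b : Ch E} {f : Ch Ω} (he : (AS E).Coc Z n e) (hb : (AS E).Coc Z (n - k) b)
    (h : ∀ ξ ∈ G ∩ π ⁻¹' Z, pb π e + cup k a (pb π b) - dd f ∈ Nz ξ n) :
    (AS E).Cob Z n e ∧ (AS E).Cob Z (n - k) b := by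
  have h' := (forall_push_N (AS Ω) π D.hπ G D.hG Z n
    (pb π e + cup k a (pb π b) - dd f)).2 h
  exact decomp_unique (phi π D.hπ G D.hG) (lam π D.hπ G D.hG k a D.ha)
    (D.coneLG hZ hZB n) he hb h'

theorem fromG (D : Dat k π G S B a H) {n : ℕ} (hn : 2 ≤ n) (hn' : n ≤ 2 * k + 2) {y : Ch Ω}
    (hy : (AS Ω).Coc G n y) {e : Ch E} {f : Ch Ω} (he : (AS E).Coc B n e)
    (h : ∀ ξ ∈ G ∩ π ⁻¹' B, y - (pb π e - dd f) ∈ Nz ξ n) : (AS Ω).Cob G n y := by
  have hGS : G ∩ π ⁻¹' S = G := by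
    ext ξ
    exact ⟨fun hξ => hξ.1, fun hξ => ⟨hξ, D.hGS ξ hξ⟩⟩
  have hy' : (PF π D.hπ G D.hG).Coc S n y := by
    rw [push_coc, hGS]
    exact hy
  have h' := (forall_push_N (AS Ω) π D.hπ G D.hG B n (y - (pb π e - dd f))).2 h
  obtain ⟨g, hg, hgc⟩ := from_base (phi π D.hπ G D.hG) D.hS D.hB D.hBS D.coneG hy' he h'
  have h2 : (AS E).Cob S n g := D.exS n hn hn' g hg
  have h3 : (PF π D.hπ G D.hG).Cob S n ((phi π D.hπ G D.hG).f g) := Mor.cob _ h2
  have h4 := hgc.add h3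
  rw [sub_add_cancel, push_cob, hGS] at h4
  exact h4

theorem extG (D : Dat k π G S B a H) {n : ℕ} (hn : 1 ≤ n) (hn' : n ≤ 2 * k + 1) {y : Ch Ω}
    (hy : (AS Ω).Coc (G ∩ π ⁻¹' B) n y) :
    ∃ (c : Ch Ω) (e : Ch E), (AS Ω).Coc G n c ∧ (AS E).Coc B n e ∧
      ∀ ξ ∈ G ∩ π ⁻¹' B, c - (y - pb π e) ∈ Nz ξ n := by
  have hGS : G ∩ π ⁻¹' S = G := by
    ext ξ
    exact ⟨fun hξ => hξ.1, fun hξ => ⟨hξ, D.hGS ξ hξ⟩⟩
  have hy' : (PF π D.hπ G D.hG).Coc B n y := (push_coc (AS Ω) π D.hπ G D.hG B n y).2 hy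
  obtain ⟨c, e, hc, he, h⟩ := ext_base (phi π D.hπ G D.hG) D.hS D.hB D.hBS D.coneG hy'
    (D.exS (n + 1) (by omega) (by omega))
  rw [push_coc, hGS] at hc
  exact ⟨c, e, hc, he, (forall_push_N (AS Ω) π D.hπ G D.hG B n _).1 h⟩

/-! ### decompositions on `H` -/

theorem decompH (D : Dat k π G S B a H) {Z : Set Ω} (hZ : IsCompact Z) (hZB : Z ⊆ G ∩ π ⁻¹' B)
    {n : ℕ} {y : Ch3 Ω Ω R} (hy : ∀ p ∈ H, p.2.1 ∈ Z → d3 y ∈ N3 p (n + 1)) :
    ∃ (e b : Ch Ω) (f : Ch3 Ω Ω R), (AS Ω).Coc Z n e ∧ (AS Ω).Coc Z (n - k) b ∧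
      ∀ p ∈ H, p.2.1 ∈ Z → y - (Q2 e + XX k a b - d3 f) ∈ N3 p n := by
  have hc : (PK2 H D.hH).Coc Z n y := by
    rw [push_coc]
    intro p hp
    exact hy p hp.1 hp.2
  obtain ⟨e, b, f, he, hb, h⟩ := decomp (phi2 H D.hH) (lam3 H D.hH k a D.hda)
    (D.coneL2 hZ hZB (n + 1)) hc
  refine ⟨e, b, f, he, hb, ?_⟩
  rw [forall_push_N] at h
  intro p hp hpZ
  exact h p ⟨hp, hpZ⟩

theorem uniqH (D : Dat k π G S B a H) {Z : Set Ω} (hZ : IsCompact Z) (hZB : Z ⊆ G ∩ π ⁻¹' B)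
    {n : ℕ} {e b : Ch Ω} {f : Ch3 Ω Ω R} (he : (AS Ω).Coc Z n e) (hb : (AS Ω).Coc Z (n - k) b)
    (h : ∀ p ∈ H, p.2.1 ∈ Z → Q2 e + XX k a b - d3 f ∈ N3 p n) :
    (AS Ω).Cob Z n e ∧ (AS Ω).Cob Z (n - k) b := by
  refine decomp_unique (phi2 H D.hH) (lam3 H D.hH k a D.hda) (D.coneL2 hZ hZB n) (f := f) he hb ?_
  rw [forall_push_N]
  intro p hp
  exact h p hp.1 hp.2

theorem fromH (D : Dat k π G S B a H) {n : ℕ} {y : Ch3 Ω Ω R}
    (hy : (K3 Ω Ω R).Coc H n y) {e : Ch Ω} {f : Ch3 Ω Ω R} (he : (AS Ω).Coc (G ∩ π ⁻¹' B) n e)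
    (h : ∀ p ∈ H, p.2.1 ∈ G ∩ π ⁻¹' B → y - (Q2 e - d3 f) ∈ N3 p n) :
    ∃ g, (AS Ω).Coc G n g ∧ (K3 Ω Ω R).Cob H n (y - Q2 g) := by
  have hHG : H ∩ (fun p : Ω × Ω × R => p.2.1) ⁻¹' G = H := by
    apply Set.inter_eq_left.mpr
    intro p hp
    exact (D.H1 p hp).2.1
  have hyF : (PK2 H D.hH).Coc G n y := by
    rw [push_coc, hHG]
    exact hy
  obtain ⟨g, hg, hcob⟩ := from_base (phi2 H D.hH) D.hG D.hGB Set.inter_subset_left
    (fun w hw m => D.cone2 w hw m) hyF (e := e) (f := f) he (by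
      rw [forall_push_N]
      intro p hp
      exact h p hp.1 hp.2)
  refine ⟨g, hg, ?_⟩
  rw [push_cob, hHG] at hcob
  exact hcob

/-! ### the main steps -/

theorem s0 (D : Dat k π G S B a H) {y : Ch3 Ω Ω R} (hy : (K3 Ω Ω R).Coc H 1 y) :
    (∀ p ∈ H, y ∈ N3 p 1) ∨ ∀ p ∈ H, y - one3 ∈ N3 p 1 := by
  -- step 1: reduce to the second variable
  have hC2 : (cone (phi2 H D.hH)).Ex G 2 := by
    apply ex_of_pointwise 2 D.hG
    intro η hη m hm
    by_cases hb : π η ∈ B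
    · refine cone_ex_of_atype (d := k) (phi2 H D.hH) one (Q1 a) η (one_D_mem η) (acy_singleton η) ?_ m ?_
      · rw [phi2_f]
        exact D.fib2A η hη hb
      · have := D.hk
        omega
    · exact D.cone2 η ⟨hη, fun h => hb h.2⟩ m
  have hy2 : (PK2 H D.hH).Coc G 1 y := by
    rw [push_coc]
    exact hy.mono inter_subset_left
  obtain ⟨e, he, hye⟩ := cone_surj (phi2 H D.hH) hC2 hy2
  rw [phi2_f, cob_one, forall_push_N] at hye
  have hye' : ∀ p ∈ H, y - Q2 e ∈ N3 p 1 := by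
    intro p hp
    have h3 := hye p ⟨hp, (D.H1 p hp).2.1⟩
    rw [K3_N] at h3
    exact h3
  -- step 2: reduce to the base
  have hCG : (cone (phi π D.hπ G D.hG)).Ex S 2 := by
    apply ex_of_pointwise 2 D.hS
    intro w hw m hm
    by_cases hb : w ∈ B
    · refine cone_ex_of_atype (d := k) (phi π D.hπ G D.hG) one a w (one_D_mem w) (acy_singleton w) ?_ m ?_
      · rw [phi_f, pb_one, push_atype]
        exact D.fibB w hb
      · have := D.hk
        omega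
    · exact D.coneG w ⟨hw, hb⟩ m
  have he2 : (PF π D.hπ G D.hG).Coc S 1 e := by
    rw [push_coc]
    exact he.mono inter_subset_left
  obtain ⟨e0, he0, hee0⟩ := cone_surj (phi π D.hπ G D.hG) hCG he2
  rw [phi_f, cob_one, forall_push_N] at hee0
  have hee0' : ∀ ξ ∈ G, e - pb π e0 ∈ Nz ξ 1 := by
    intro ξ hξ
    have h3 := hee0 ξ ⟨hξ, D.hGS ξ hξ⟩
    rw [AS_N] at h3
    exact h3
  rcases D.conS e0 he0 with h0 | h1
  · left
    intro p hp
    have hpG := (D.H1 p hp).2.1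
    have h4 : pb π e0 ∈ Nz p.2.1 1 := by
      apply pb_mem_Nz D.hπ.continuousAt
      have := h0 (π p.2.1) (D.hGS _ hpG)
      rw [AS_N] at this
      exact this
    have h5 : e ∈ Nz p.2.1 1 := by
      have := add_mem (hee0' p.2.1 hpG) h4
      rwa [sub_add_cancel] at this
    have h6 : (Q2 e : Ch3 Ω Ω R) ∈ N3 p 1 := Q2_mem h5
    have := add_mem (hye' p hp) h6
    rwa [sub_add_cancel] at this
  · right
    intro p hp
    have hpG := (D.H1 p hp).2.1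
    have h4 : pb π (e0 - one) ∈ Nz p.2.1 1 := by
      apply pb_mem_Nz D.hπ.continuousAt
      have := h1 (π p.2.1) (D.hGS _ hpG)
      rw [AS_N] at this
      exact this
    have h4' : pb π e0 - one ∈ Nz p.2.1 1 := by
      have h7 : pb π (e0 - one) = pb π e0 - one := by
        funext l
        rfl
      rwa [h7] at h4
    have h5 : e - one ∈ Nz p.2.1 1 := by
      have := add_mem (hee0' p.2.1 hpG) h4'
      rwa [sub_add_sub_cancel] at this
    have h6 : (Q2 (e - one) : Ch3 Ω Ω R) ∈ N3 p 1 := Q2_mem h5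
    have h8 : (Q2 e : Ch3 Ω Ω R) = Q2 (e - one) + Q2 one := by
      rw [← Q2_add, sub_add_cancel]
    have h9 := add_mem (add_mem (hye' p hp) h6) (Q2_one (A := Ω) (B := Ω) (C := R) (p := p))
    have h10 : y - Q2 e + Q2 (e - one) + (Q2 one - one3) = y - one3 := by
      rw [h8]; abel
    rwa [h10] at h9

theorem j12372_sub {A : Type*} (x y : Ch A) : x - y = x + y := by
  funext l
  rw [Pi.sub_apply, Pi.add_apply, sub_eq_add_neg, CharTwo.neg_eq]

theorem j12372_sub3 {A B C : Type*} (x y : Ch3 A B C) : x - y = x + y := by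
  funext l₁ l₂ l₃
  rw [Pi.sub_apply, Pi.sub_apply, Pi.sub_apply, Pi.add_apply, Pi.add_apply, Pi.add_apply,
    sub_eq_add_neg, CharTwo.neg_eq]

theorem j12372_add3 {A B C : Type*} (x : Ch3 A B C) : x + x = 0 := by
  rw [← j12372_sub3, sub_self]

theorem j12372_comb {K : Type*} [AddCommGroup K] (h2 : ∀ x : K, x + x = 0) (S : AddSubgroup K)
    (g q1e q1c dq q2e djh xx dj q2g dw : K) (h1 : g + (q1e + q1c + dq) ∈ S)
    (h2' : q1e + q2e + djh ∈ S) (h3 : q1c + xx + dj ∈ S) (h4 : g + q2g + dw ∈ S) :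
    (q2g + q2e) + xx + (djh + dj + dq + dw) ∈ S := by
  have h5 := S.add_mem (S.add_mem (S.add_mem h1 h2') h3) h4
  have e : g + (q1e + q1c + dq) + (q1e + q2e + djh) + (q1c + xx + dj) + (g + q2g + dw) =
      ((q2g + q2e) + xx + (djh + dj + dq + dw)) + ((g + g) + (q1e + q1e) + (q1c + q1c)) := by
    abel
  rw [e, h2 g, h2 q1e, h2 q1c, add_zero, add_zero, add_zero] at h5
  exact h5

/-- transfer of the cup product to the second variable. -/
theorem j12372_cross (D : Dat k π G S B a H) (m : ℕ) {b : Ch E} (hb : (AS E).Coc B (m - k) b) :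
    ∃ j : Ch3 Ω Ω R, ∀ p ∈ H, π p.1 ∈ B →
      (Q1 (cup k a (pb π b)) : Ch3 Ω Ω R) + XX k a (pb π (pb Neg.neg b)) + d3 j ∈ N3 p m := by
  rcases Nat.lt_or_ge m k with hmk | hmk
  · refine ⟨0, fun p hp hpB => ?_⟩
    rw [d3_zero, add_zero]
    refine add_mem (Q1_mem (mem_Nz_of Filter.univ_mem fun l hl _ => cup_of_le (by omega)))
      (XX_mem ?_)
    rw [show m - k = 0 by omega]
    exact Or.inl rfl
  · refine ⟨ML k a (JH π π b), fun p hp hpB => ?_⟩
    have hsp := JH_spec (C := R) (p := p) (n := m - k) (e := b) D.hπ.continuousAt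
      D.hπ.continuousAt (D.H1 p hp).2.2 (hb (π p.1) hpB)
    rw [j12372_sub3] at hsp
    have h1 := ML_mem (k := k) a hsp
    rw [show m - k + k = m by omega, ML_add, ML_add, ML_Q1, ML_Q2] at h1
    have h2 : ML (k + 1) (dd a) (JH π π b : Ch3 Ω Ω R) ∈ N3 p m :=
      ML_mem_left _ (D.hda p hp)
    have h3 := add_mem h1 h2
    rw [d3_ML]
    have e : ∀ x y z : Ch3 Ω Ω R, x + z + y = x + (y + z) := fun x y z => by abel
    rw [e] at h3
    exact h3

/-- injectivity. -/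
theorem s2 (D : Dat k π G S B a H) {m : ℕ} (hm : 2 ≤ m) (hm' : m ≤ 2 * k + 2) {g₁ g₂ : Ch Ω}
    (h₁ : (AS Ω).Coc G m g₁) (h₂ : (AS Ω).Coc G m g₂)
    (h : (K3 Ω Ω R).Cob H m (Q1 g₁ + Q2 g₂)) : (AS Ω).Cob G m g₁ := by
  obtain ⟨e, b, f, he, hb, hdec⟩ := D.decompG D.hB subset_rfl (n := m) (y := g₁)
    (h₁.mono inter_subset_left)
  obtain ⟨j, hj⟩ := D.j12372_cross m hb
  obtain ⟨w, hw⟩ := h
  have hnegc : ∀ x ∈ B, ContinuousAt (Neg.neg : E → E) x := fun x _ => continuous_neg.continuousAt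
  have hnegm : MapsTo (Neg.neg : E → E) B B := fun z hz => D.negB z hz
  have hπc : ∀ x ∈ G ∩ π ⁻¹' B, ContinuousAt π x := fun x _ => D.hπ.continuousAt
  have hπm : MapsTo π (G ∩ π ⁻¹' B) B := fun x hx => hx.2
  have hen : (AS E).Coc B m (pb Neg.neg e) := coc_pb hnegc hnegm he
  have hbn : (AS E).Coc B (m - k) (pb Neg.neg b) := coc_pb hnegc hnegm hb
  have hen' : (AS Ω).Coc (G ∩ π ⁻¹' B) m (pb π (pb Neg.neg e)) := coc_pb hπc hπm hen
  have hbn' : (AS Ω).Coc (G ∩ π ⁻¹' B) (m - k) (pb π (pb Neg.neg b)) := coc_pb hπc hπm hbn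
  have key : ∀ p ∈ H, p.2.1 ∈ G ∩ π ⁻¹' B →
      Q2 (g₂ + pb π (pb Neg.neg e)) + XX k a (pb π (pb Neg.neg b)) -
        d3 (JH π π e + j + Q1 f + w) ∈ N3 p m := by
    intro p hp hpB
    obtain ⟨hp1, hp2, hp3⟩ := D.H1 p hp
    have hpB1 : π p.1 ∈ B := by
      rw [hp3]
      exact D.negB _ hpB.2
    have a1 := Q1_mem (B := Ω) (C := R) (p := p) (hdec p.1 ⟨hp1, hpB1⟩)
    rw [j12372_sub, j12372_sub, Q1_add, Q1_add, Q1_add, ← d3_Q1] at a1
    have a2 := JH_spec (C := R) (p := p) (n := m) (e := e) D.hπ.continuousAt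
      D.hπ.continuousAt hp3 (he (π p.1) hpB1)
    rw [j12372_sub3] at a2
    have a3 := hj p hp hpB1
    have a4 : Q1 g₁ + Q2 g₂ - d3 w ∈ N3 p m := hw p hp
    rw [j12372_sub3] at a4
    rw [j12372_sub3, Q2_add, d3_add, d3_add, d3_add]
    exact j12372_comb j12372_add3 _ _ _ _ _ _ _ _ _ _ _ a1 a2 a3 a4
  have hX := (D.uniqH D.hGB subset_rfl ((h₂.mono inter_subset_left).add hen') hbn' key).2
  obtain ⟨f', hf'⟩ := hX
  have hY : (AS E).Cob B (m - k) (pb Neg.neg b) := by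
    refine (D.uniqG D.hB subset_rfl (n := m - k) (e := pb Neg.neg b) (b := 0) (f := f') hbn
      (coc_zero _ _) fun ξ hξ => ?_).1
    have h0 : cup k a (pb π (0 : Ch E)) = 0 := by
      funext l
      by_cases hl : k < l.length
      · rw [cup_of_lt hl]; simp [pb]
      · rw [cup_of_le (not_lt.1 hl)]; rfl
    rw [h0, add_zero]
    exact hf' ξ hξ
  have hZ : (AS E).Cob B (m - k) b := by
    have h0 := cob_pb hnegc hnegm hY
    have h1 : pb Neg.neg (pb Neg.neg b) = b := by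
      funext l
      show b ((l.map Neg.neg).map Neg.neg) = b l
      rw [List.map_map]
      congr 1
      have : (Neg.neg ∘ Neg.neg : E → E) = id := funext fun x => neg_neg x
      rw [this, List.map_id]
    rw [h1] at h0
    exact h0
  have hcup : (AS Ω).Cob (G ∩ π ⁻¹' B) m (cup k a (pb π b)) := by
    have h0 := Mor.cob (lam π D.hπ G D.hG k a D.ha) (A := B) (n := m) (e := b) hZ
    rw [lam_f] at h0
    exact (push_cob _ _ _ _ _ _ _ _).1 h0
  obtain ⟨f'', hf''⟩ := hcup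
  refine D.fromG hm hm' h₁ (e := e) (f := f + f'') he fun ξ hξ => ?_
  have b1 := hdec ξ hξ
  have b2 : cup k a (pb π b) - dd f'' ∈ Nz ξ m := hf'' ξ hξ
  have b3 := add_mem b1 b2
  rw [j12372_sub (cup k a (pb π b)), j12372_sub g₁, j12372_sub (_ + _)] at b3
  rw [j12372_sub g₁, j12372_sub (pb π e), dd_add]
  have e1 : ∀ g p c x y : Ch Ω, g + (p + c + x) + (c + y) = g + (p + (x + y)) + (c + c) :=
    fun g p c x y => by abel
  rw [e1, ← j12372_sub (cup k a (pb π b)) (cup k a (pb π b)), sub_self, add_zero] at b3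
  exact b3

theorem j12374_two {A B C : Type*} (x : Ch3 A B C) : x + x = 0 := by
  funext l₁ l₂ l₃
  exact add_self2 _

theorem j12374_Q1_sub {A B C : Type*} (b c : Ch A) : (Q1 (b - c) : Ch3 A B C) = Q1 b - Q1 c := by
  funext l₁ l₂ l₃
  simp only [Q1, Pi.sub_apply]
  split_ifs
  · rfl
  · rw [sub_zero]

theorem j12374_d3_sub {A B C : Type*} (b c : Ch3 A B C) : d3 (b - c) = d3 b - d3 c := by
  rw [← D3_apply, ← D3_apply, ← D3_apply, map_sub]

theorem j12374_ML_sub {A B C : Type*} (k : ℕ) (a : Ch A) (h h' : Ch3 A B C) :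
    ML k a (h - h') = ML k a h - ML k a h' := by
  have := ML_add k a (h - h') h'
  rw [sub_add_cancel] at this
  rw [this, add_sub_cancel_right]

theorem s1core (D : Dat k π G S B a H) {m : ℕ} (hm : 1 ≤ m) (hm' : m ≤ 2 * k + 1)
    {y : Ch3 Ω Ω R} (hy : (K3 Ω Ω R).Coc H m y) {e : Ch Ω} {b : Ch E} {f : Ch3 Ω Ω R}
    (he : (AS Ω).Coc (G ∩ π ⁻¹' B) m e) (hb : (AS E).Coc B (m - k) b)
    (h : ∀ p ∈ H, p.2.1 ∈ G ∩ π ⁻¹' B → y - (Q2 e + XX k a (pb π b) - d3 f) ∈ N3 p m) :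
    ∃ g₁ g₂ : Ch Ω, (AS Ω).Coc G m g₁ ∧ (AS Ω).Coc G m g₂ ∧
      (K3 Ω Ω R).Cob H m (y - Q1 g₁ - Q2 g₂) := by
  -- the cocycle `a'`
  obtain ⟨b', hb'⟩ : ∃ b' : Ch E, b' = pb Neg.neg b := ⟨_, rfl⟩
  have hbb : pb Neg.neg b' = b := by
    rw [hb']; funext l; simp [pb, List.map_map]
  have hb'c : (AS E).Coc B (m - k) b' := by
    rw [hb']
    exact coc_pb (fun x _ => continuous_neg.continuousAt) (fun z hz => D.negB z hz) hb
  have ha' : (AS Ω).Coc (G ∩ π ⁻¹' B) m (cup k a (pb π b')) := by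
    rw [← push_coc (AS Ω) π D.hπ G D.hG B]
    have h1 : ((AS E).shift k).Coc B m b' := by
      intro z hz
      change dd b' ∈ Nz z (m + 1 - k)
      rcases le_or_gt k m with hkm | hkm
      · rw [show m + 1 - k = m - k + 1 by omega]
        exact hb'c z hz
      · rw [show m + 1 - k = 0 by omega]
        exact Or.inl rfl
    have h2 := Mor.coc (lam π D.hπ G D.hG k a D.ha) h1
    rw [lam_f] at h2
    exact h2
  obtain ⟨c, e', hc, he', hce⟩ := D.extG hm hm' ha'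
  -- the points of `H` over `B`
  have hp1 : ∀ p ∈ H, p.2.1 ∈ G ∩ π ⁻¹' B → p.1 ∈ G ∩ π ⁻¹' B := by
    intro p hp hpB
    refine ⟨(D.H1 p hp).1, ?_⟩
    change π p.1 ∈ B
    rw [(D.H1 p hp).2.2]
    exact D.negB _ hpB.2
  obtain ⟨J, hJ⟩ : ∃ J : Ch3 Ω Ω R, ∀ p ∈ H, p.2.1 ∈ G ∩ π ⁻¹' B →
      Q1 (cup k a (pb π b')) + XX k a (pb π b) - d3 J ∈ N3 p m := by
    rcases le_or_gt k m with hkm | hkm
    · refine ⟨ML k a (JH π π b'), fun p hp hpB => ?_⟩
      have h1 := hp1 p hp hpB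
      have h2 := JH_spec (A := Ω) (B := Ω) (C := R) (p := p) (D.hπ.continuousAt) (D.hπ.continuousAt)
        (D.H1 p hp).2.2 (n := m - k) (e := b') (hb'c _ h1.2)
      rw [hbb] at h2
      have h3 := ML_mem (k := k) a h2
      rw [show m - k + k = m by omega, j12374_ML_sub, ML_add, ML_Q1, ML_Q2] at h3
      have h4 := d3_ML k a (JH π π b' : Ch3 Ω Ω R)
      have h5 : ML (k + 1) (dd a) (JH π π b' : Ch3 Ω Ω R) ∈ N3 p m :=
        ML_mem_left _ (D.hda p hp)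
      rw [h4]
      have h6 := sub_mem h3 h5
      have h7 : Q1 (cup k a (pb π b')) + XX k a (pb π b) -
          (ML (k + 1) (dd a) (JH π π b') + ML k a (d3 (JH π π b'))) =
          (Q1 (cup k a (pb π b')) + XX k a (pb π b) - ML k a (d3 (JH π π b')) -
            ML (k + 1) (dd a) (JH π π b') : Ch3 Ω Ω R) := by abel
      rw [h7]
      exact h6
    · refine ⟨0, fun p hp hpB => ?_⟩
      rw [d3_zero, sub_zero]
      refine add_mem (Q1_mem ?_) (XX_mem ?_)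
      · exact mem_Nz_of Filter.univ_mem fun l hl _ => cup_of_le (by omega)
      · rw [show m - k = 0 by omega]
        exact Or.inl rfl
  -- the difference
  have hQc : (K3 Ω Ω R).Coc H m (Q1 c) := by
    intro p hp
    change d3 (Q1 c) ∈ N3 p (m + 1)
    rw [d3_Q1]
    exact Q1_mem (hc p.1 (D.H1 p hp).1)
  have he2 : (AS Ω).Coc (G ∩ π ⁻¹' B) m (pb π (pb Neg.neg e')) := by
    refine coc_pb (F' := B) (fun x _ => D.hπ.continuousAt) (fun x hx => hx.2) ?_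
    exact coc_pb (fun x _ => continuous_neg.continuousAt) (fun z hz => D.negB z hz) he'
  obtain ⟨g, hg, hgc⟩ := D.fromH (hy.sub hQc) (he.add he2)
    (f := f + J + JH π π e') (by
      intro p hp hpB
      have h1 := hp1 p hp hpB
      have k1 := h p hp hpB
      have k2 := hJ p hp hpB
      have k3 := JH_spec (A := Ω) (B := Ω) (C := R) (p := p) (D.hπ.continuousAt)
        (D.hπ.continuousAt) (D.H1 p hp).2.2 (n := m) (e := e') (he' _ h1.2)
      have k4 : (Q1 (c - (cup k a (pb π b') - pb π e')) : Ch3 Ω Ω R) ∈ N3 p m :=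
        Q1_mem (hce p.1 h1)
      rw [j12374_Q1_sub, j12374_Q1_sub] at k4
      have k5 := sub_mem (sub_mem (sub_mem k1 k4) k2) k3
      have k6 := j12374_two (Q1 (pb π e') : Ch3 Ω Ω R)
      have k7 := j12374_two (XX k a (pb π b) : Ch3 Ω Ω R)
      rw [Q2_add, d3_add, d3_add]
      have k8 : y - Q1 c - (Q2 e + Q2 (pb π (pb Neg.neg e')) - (d3 f + d3 J + d3 (JH π π e'))) =
          (y - (Q2 e + XX k a (pb π b) - d3 f) - (Q1 c - (Q1 (cup k a (pb π b')) - Q1 (pb π e')))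
            - (Q1 (cup k a (pb π b')) + XX k a (pb π b) - d3 J)
            - (Q1 (pb π e') + Q2 (pb π (pb Neg.neg e')) - d3 (JH π π e')))
            + (Q1 (pb π e') + Q1 (pb π e')) + (XX k a (pb π b) + XX k a (pb π b)) := by abel
      rw [k8, k6, k7, add_zero, add_zero]
      exact k5)
  exact ⟨c, g, hc, hg, hgc⟩

theorem s1 (D : Dat k π G S B a H) {m : ℕ} (hm : 1 ≤ m) (hm' : m ≤ 2 * k)
    {y : Ch3 Ω Ω R} (hy : (K3 Ω Ω R).Coc H m y) :
    ∃ g₁ g₂ : Ch Ω, (AS Ω).Coc G m g₁ ∧ (AS Ω).Coc G m g₂ ∧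
      (K3 Ω Ω R).Cob H m (y - Q1 g₁ - Q2 g₂) := by
  obtain ⟨e, b, f, he, hb, h⟩ := D.decompH D.hGB subset_rfl (n := m) (y := y)
    (fun p hp _ => hy p hp)
  obtain ⟨e', b', f', he', hb', h'⟩ := D.decompG D.hB subset_rfl (n := m - k) (y := b) hb
  refine D.s1core hm (by omega) hy he he' (f := f + XX k a f') ?_
  intro p hp hpB
  have h1 := h p hp hpB
  have h2 := h' p.2.1 hpB
  have hcup : cup k a (pb π b') ∈ Nz p.2.1 (m - k) :=
    mem_Nz_of Filter.univ_mem fun l hl _ => cup_of_le (by omega)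
  have h3 : b - (pb π e' - dd f') ∈ Nz p.2.1 (m - k) := by
    have h4 := add_mem h2 hcup
    have h5 : b - (pb π e' + cup k a (pb π b') - dd f') + cup k a (pb π b') =
        b - (pb π e' - dd f') := by abel
    rwa [h5] at h4
  have h6 : (XX k a (b - (pb π e' - dd f')) : Ch3 Ω Ω R) ∈ N3 p m := XX_mem h3
  have h7 : (XX (k + 1) (dd a) f' : Ch3 Ω Ω R) ∈ N3 p m := XX_mem_left f' (D.hda p hp)
  have e1 : (XX k a b : Ch3 Ω Ω R) =
      XX k a (b - (pb π e' - dd f')) + XX k a (pb π e' - dd f') := by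
    rw [← XX_add_right, sub_add_cancel]
  have e2 : (XX k a (pb π e') : Ch3 Ω Ω R) = XX k a (pb π e' - dd f') + XX k a (dd f') := by
    rw [← XX_add_right, sub_add_cancel]
  have e3 : y - (Q2 e + XX k a (pb π e') - d3 (f + XX k a f')) =
      (y - (Q2 e + XX k a b - d3 f)) +
        (XX k a (b - (pb π e' - dd f')) + XX (k + 1) (dd a) f') := by
    rw [d3_add, d3_XX, e1, e2]
    abel
  rw [e3]
  exact add_mem h1 (add_mem h6 h7)

theorem j12376_XX_sub {A B C : Type*} (k : ℕ) (a : Ch A) (b c : Ch B) :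
    (XX k a (b - c) : Ch3 A B C) = XX k a b - XX k a c := by
  rw [eq_sub_iff_add_eq, ← XX_add_right, sub_add_cancel]

theorem j12376_Q2_sub {A B C : Type*} (b c : Ch B) :
    (Q2 (b - c) : Ch3 A B C) = Q2 b - Q2 c := by
  rw [eq_sub_iff_add_eq, ← Q2_add, sub_add_cancel]

theorem j12376_TT_sub {A C : Type*} [Neg C] (b c : Ch3 A A C) : TT (b - c) = TT b - TT c := by
  rw [eq_sub_iff_add_eq, ← TT_add, sub_add_cancel]

theorem j12376_d3_sub {A B C : Type*} (b c : Ch3 A B C) : d3 (b - c) = d3 b - d3 c := by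
  rw [eq_sub_iff_add_eq, ← d3_add, sub_add_cancel]

theorem j12376_XX_dd (D : Dat k π G S B a H) {p : Ω × Ω × R} (hp : p ∈ H) (x : Ch Ω) (n : ℕ) :
    (XX k a (dd x) : Ch3 Ω Ω R) - d3 (XX k a x) ∈ N3 p n := by
  rw [d3_XX, sub_add_cancel_right]
  exact neg_mem (XX_mem_left x (D.hda p hp))

/-- the part of `H` over the fibre of `w`. -/
def j12376_Hw (π : Ω → E) (G : Set Ω) (H : Set (Ω × Ω × R)) (w : E) : Set (Ω × Ω × R) :=
  {p | p ∈ H ∧ p.2.1 ∈ G ∩ π ⁻¹' {w}}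

theorem j12376_A (D : Dat k π G S B a H) {y : Ch3 Ω Ω R}
    {e b : Ch Ω} {b₀ u : Ch E}
    {f : Ch3 Ω Ω R} {f' : Ch Ω} (he : (AS Ω).Coc (G ∩ π ⁻¹' B) (2 * k + 1) e)
    (hb₀ : (AS E).Coc B (k + 1) b₀)
    (h : ∀ p ∈ H, p.2.1 ∈ G ∩ π ⁻¹' B → y - (Q2 e + XX k a b - d3 f) ∈ N3 p (2 * k + 1))
    (h' : ∀ ξ ∈ G ∩ π ⁻¹' B, b - (pb π b₀ + cup k a (pb π u) - dd f') ∈ Nz ξ (k + 1))
    {w : E} (hw : w ∈ B) (v : Ch3 Ω Ω R)
    (hv : ∀ p ∈ j12376_Hw π G H w, XX k a (cup k a (pb π u)) - v ∈ N3 p (2 * k + 1)) :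
    (K3 Ω Ω R).Cob (j12376_Hw π G H w) (2 * k + 1) (y - v) := by
  have hk := D.hk
  have hsub : G ∩ π ⁻¹' {w} ⊆ G ∩ π ⁻¹' B := by
    intro x hx
    refine ⟨hx.1, ?_⟩
    have e1 : π x = w := hx.2
    rw [mem_preimage, e1]; exact hw
  obtain ⟨e', he'⟩ : (AS Ω).Cob (G ∩ π ⁻¹' {w}) (2 * k + 1) e :=
    (D.fibB w hw).2.2.1 (2 * k + 1) (by omega) (by omega) e (he.mono hsub)
  obtain ⟨b₀', hb₀'⟩ : (AS E).Cob {w} (k + 1) b₀ :=
    (acy_singleton w).2.2 (k + 1) (by omega) b₀ (hb₀.mono (singleton_subset_iff.mpr hw))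
  have hb1 : b₀ - dd b₀' ∈ Nz w (k + 1) := hb₀' w rfl
  refine ⟨Q2 e' + XX k a (pb π b₀') - XX k a f' - f, ?_⟩
  rintro p ⟨hpH, hpw⟩
  have hπp : π p.2.1 = w := hpw.2
  change y - v - d3 (Q2 e' + XX k a (pb π b₀') - XX k a f' - f) ∈ N3 p (2 * k + 1)
  have t1 := h p hpH (hsub hpw)
  have t2 : (Q2 e : Ch3 Ω Ω R) - d3 (Q2 e') ∈ N3 p (2 * k + 1) := by
    rw [d3_Q2, ← j12376_Q2_sub]
    exact Q2_mem (he' p.2.1 hpw)
  have hkk : 2 * k + 1 - k = k + 1 := by omega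
  have t3 : (XX k a (b - (pb π b₀ + cup k a (pb π u) - dd f')) : Ch3 Ω Ω R) ∈
      N3 p (2 * k + 1) := by
    apply XX_mem
    rw [hkk]
    exact h' p.2.1 (hsub hpw)
  have t4 : (XX k a (pb π b₀ - dd (pb π b₀')) : Ch3 Ω Ω R) ∈ N3 p (2 * k + 1) := by
    apply XX_mem
    rw [hkk, dd_pb]
    have e1 : pb π b₀ - pb π (dd b₀') = pb π (b₀ - dd b₀') := rfl
    rw [e1]
    apply pb_mem_Nz D.hπ.continuousAt
    rw [hπp]
    exact hb1
  have t5 := j12376_XX_dd D hpH (pb π b₀') (2 * k + 1)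
  have t6 := j12376_XX_dd D hpH f' (2 * k + 1)
  have t7 := hv p ⟨hpH, hpw⟩
  rw [j12376_XX_sub, j12376_XX_sub, XX_add_right] at t3
  rw [j12376_XX_sub] at t4
  have key : y - v - d3 (Q2 e' + XX k a (pb π b₀') - XX k a f' - f) =
      (y - (Q2 e + XX k a b - d3 f)) + (Q2 e - d3 (Q2 e')) +
      (XX k a b - (XX k a (pb π b₀) + XX k a (cup k a (pb π u)) - XX k a (dd f'))) +
      (XX k a (pb π b₀) - XX k a (dd (pb π b₀'))) +
      (XX k a (dd (pb π b₀')) - d3 (XX k a (pb π b₀'))) -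
      (XX k a (dd f') - d3 (XX k a f')) + (XX k a (cup k a (pb π u)) - v) := by
    rw [j12376_d3_sub, j12376_d3_sub, d3_add]
    abel
  rw [key]
  exact add_mem (sub_mem (add_mem (add_mem (add_mem (add_mem t1 t2) t3) t4) t5) t6) t7

theorem j12376_v0 (D : Dat k π G S B a H) {u : Ch E} {w : E} (hu : u ∈ Nz w 1)
    (p : Ω × Ω × R) (hp : p ∈ j12376_Hw π G H w) :
    (XX k a (cup k a (pb π u)) : Ch3 Ω Ω R) - 0 ∈ N3 p (2 * k + 1) := by
  rw [sub_zero]
  have hπp : π p.2.1 = w := hp.2.2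
  have h1 : pb π u ∈ Nz p.2.1 1 := by
    apply pb_mem_Nz D.hπ.continuousAt
    rw [hπp]; exact hu
  apply XX_mem
  have hkk : 2 * k + 1 - k = k + 1 := by omega
  rw [hkk]
  obtain ⟨W, hW, hxW, h3⟩ := exists_of_mem_Nz one_ne_zero h1
  refine mem_Nz_of (hW.mem_nhds hxW) fun l hl hx => ?_
  rw [cup_of_lt (by omega), h3 _ (by simp; omega) fun y hy => hx y (List.mem_of_mem_drop hy),
    mul_zero]

theorem j12376_v1 (D : Dat k π G S B a H) {u : Ch E} {w : E} (hu : u - one ∈ Nz w 1)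
    (p : Ω × Ω × R) (hp : p ∈ j12376_Hw π G H w) :
    (XX k a (cup k a (pb π u)) : Ch3 Ω Ω R) - CC k a ∈ N3 p (2 * k + 1) := by
  have hπp : π p.2.1 = w := hp.2.2
  have h1 : pb π (u - one) ∈ Nz p.2.1 1 := by
    apply pb_mem_Nz D.hπ.continuousAt
    rw [hπp]; exact hu
  have h2 : (XX k a (cup k a (pb π u) - a) : Ch3 Ω Ω R) ∈ N3 p (2 * k + 1) := by
    apply XX_mem
    have hkk : 2 * k + 1 - k = k + 1 := by omega
    rw [hkk]
    obtain ⟨W, hW, hxW, h3⟩ := exists_of_mem_Nz one_ne_zero h1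
    refine mem_Nz_of (hW.mem_nhds hxW) fun l hl hx => ?_
    have h4 := h3 (l.drop k) (by simp; omega) fun y hy => hx y (List.mem_of_mem_drop hy)
    have h5 : pb π (u - one) (l.drop k) = pb π u (l.drop k) - 1 := rfl
    rw [h5, sub_eq_zero] at h4
    rw [Pi.sub_apply, cup_of_lt (by omega), h4, mul_one, List.take_of_length_le (by omega),
      sub_self]
  have h6 := CC_XX (p := p) (k := k) a
  have h7 : (XX k a (cup k a (pb π u)) : Ch3 Ω Ω R) - CC k a =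
      XX k a (cup k a (pb π u) - a) - (CC k a - XX k a a) := by
    rw [j12376_XX_sub]; abel
  rw [h7]
  exact sub_mem h2 h6

theorem j12376_B (D : Dat k π G S B a H) {y v : Ch3 Ω Ω R} (hv : TT v = v) {n : ℕ}
    (hT : (K3 Ω Ω R).Cob H n (y - TT y)) {w : E}
    (h : (K3 Ω Ω R).Cob (j12376_Hw π G H (-w)) n (y - v)) :
    (K3 Ω Ω R).Cob (j12376_Hw π G H w) n (y - v) := by
  have h1 : (K3 Ω Ω R).Cob (j12376_Hw π G H w) n (TT y - v) := by
    obtain ⟨x, hx⟩ := h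
    refine ⟨TT x, ?_⟩
    rintro p ⟨hpH, hpw⟩
    have hπp : π p.2.1 = w := hpw.2
    have h2 := D.H1 p hpH
    have h3 : (p.2.1, p.1, -p.2.2) ∈ j12376_Hw π G H (-w) := by
      refine ⟨D.H4 p hpH, h2.1, ?_⟩
      change π p.1 = -w
      rw [h2.2.2, hπp]
    have h4 := hx _ h3
    have h5 : TT (y - v - d3 x) ∈ N3 (p.1, p.2.1, - -p.2.2) n := TT_mem h4
    rw [neg_neg] at h5
    change TT y - v - d3 (TT x) ∈ N3 p n
    rw [j12376_TT_sub, j12376_TT_sub, hv, TT_d3] at h5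
    exact h5
  have h2 : (K3 Ω Ω R).Cob (j12376_Hw π G H w) n (y - TT y) := hT.mono fun p hp => hp.1
  have h3 := h1.add h2
  have h4 : TT y - v + (y - TT y) = y - v := by abel
  rw [h4] at h3
  exact h3

theorem j12376_C (D : Dat k π G S B a H) {w : E} (hw : w ∈ B) :
    ¬ (K3 Ω Ω R).Cob (j12376_Hw π G H w) (2 * k + 1) (CC k a) := by
  rintro ⟨x, hx⟩
  have hsub : G ∩ π ⁻¹' {w} ⊆ G ∩ π ⁻¹' B := by
    intro x hx
    refine ⟨hx.1, ?_⟩
    have e1 : π x = w := hx.2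
    rw [mem_preimage, e1]; exact hw
  have hc : IsCompact (G ∩ π ⁻¹' {w}) := D.hG.inter_right (isClosed_singleton.preimage D.hπ)
  have hkk : 2 * k + 1 - k = k + 1 := by omega
  have h1 := (D.uniqH hc hsub (n := 2 * k + 1) (e := 0) (b := a) (f := x) (coc_zero _ _)
    (by rw [hkk]; exact D.ha.mono inter_subset_left) (by
      intro p hpH hpw
      have h2 := hx p ⟨hpH, hpw⟩
      have h3 := CC_XX (p := p) (k := k) a
      have h4 : (Q2 0 : Ch3 Ω Ω R) = 0 := by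
        have := j12376_Q2_sub (A := Ω) (C := R) (0 : Ch Ω) 0
        rwa [sub_self, sub_self] at this
      rw [h4, zero_add]
      have h5 : (XX k a a : Ch3 Ω Ω R) - d3 x = (CC k a - d3 x) - (CC k a - XX k a a) := by abel
      rw [h5]
      exact sub_mem h2 h3)).2
  rw [hkk] at h1
  exact (D.fibB w hw).2.2.2.2 h1

/-- the fibre value of a class which is invariant under the involution is even. -/
theorem top_sym (D : Dat k π G S B a H) {y : Ch3 Ω Ω R} (hy : (K3 Ω Ω R).Coc H (2 * k + 1) y)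
    (hT : (K3 Ω Ω R).Cob H (2 * k + 1) (y - TT y)) {e b : Ch Ω} {b₀ u : Ch E}
    {f : Ch3 Ω Ω R} {f' : Ch Ω} (he : (AS Ω).Coc (G ∩ π ⁻¹' B) (2 * k + 1) e)
    (hb₀ : (AS E).Coc B (k + 1) b₀) (hu : (AS E).Coc B 1 u)
    (h : ∀ p ∈ H, p.2.1 ∈ G ∩ π ⁻¹' B → y - (Q2 e + XX k a b - d3 f) ∈ N3 p (2 * k + 1))
    (h' : ∀ ξ ∈ G ∩ π ⁻¹' B, b - (pb π b₀ + cup k a (pb π u) - dd f') ∈ Nz ξ (k + 1)) :
    ∀ z ∈ B, u - pb Neg.neg u ∈ Nz z 1 := by
  intro w hw
  have hw' : -w ∈ B := D.negB w hw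
  have hTT0 : TT (0 : Ch3 Ω Ω R) = 0 := rfl
  have hTTC : TT (CC k a : Ch3 Ω Ω R) = CC k a := TT_CC k a
  have d1 : u ∈ Nz w 1 ∨ u - one ∈ Nz w 1 := by
    rcases (acy_singleton w).2.1 u (hu.mono (singleton_subset_iff.mpr hw)) with h1 | h1
    · exact Or.inl (h1 w rfl)
    · exact Or.inr (h1 w rfl)
  have d2 : u ∈ Nz (-w) 1 ∨ u - one ∈ Nz (-w) 1 := by
    rcases (acy_singleton (-w)).2.1 u (hu.mono (singleton_subset_iff.mpr hw')) with h1 | h1
    · exact Or.inl (h1 (-w) rfl)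
    · exact Or.inr (h1 (-w) rfl)
  rcases d1 with c1 | c1 <;> rcases d2 with c2 | c2
  · exact sub_mem c1 (pb_mem_Nz continuous_neg.continuousAt c2)
  · exfalso
    have a1 := j12376_A D he hb₀ h h' hw 0 (j12376_v0 D c1)
    have a2 := j12376_B D hTTC hT (j12376_A D he hb₀ h h' hw' (CC k a) (j12376_v1 D c2))
    have a3 := a1.sub a2
    have a4 : y - 0 - (y - CC k a) = CC k a := by abel
    rw [a4] at a3
    exact j12376_C D hw a3
  · exfalso
    have a1 := j12376_A D he hb₀ h h' hw (CC k a) (j12376_v1 D c1)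
    have a2 := j12376_B D hTT0 hT (j12376_A D he hb₀ h h' hw' 0 (j12376_v0 D c2))
    have a3 := a2.sub a1
    have a4 : y - 0 - (y - CC k a) = CC k a := by abel
    rw [a4] at a3
    exact j12376_C D hw a3
  · have h1 : pb Neg.neg (u - one) ∈ Nz w 1 := pb_mem_Nz continuous_neg.continuousAt c2
    have h2 : u - pb Neg.neg u = (u - one) - pb Neg.neg (u - one) := by
      have h3 : pb Neg.neg (u - one) = pb Neg.neg u - one := rfl
      rw [h3]; abel
    rw [h2]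
    exact sub_mem c1 h1

theorem j12377_ch_sub {Ω : Type*} (x y : Ch Ω) : x - y = x + y := by
  funext l
  show x l - y l = x l + y l
  exact CharTwo.sub_eq_add _ _

theorem j12377_ch3_sub {A B C : Type*} (x y : Ch3 A B C) : x - y = x + y := by
  funext l₁ l₂ l₃
  show x l₁ l₂ l₃ - y l₁ l₂ l₃ = x l₁ l₂ l₃ + y l₁ l₂ l₃
  exact CharTwo.sub_eq_add _ _

theorem j12377_dd_two {E : Type*} (u : Ch E) (x y : E) : dd u [x, y] = u [y] + u [x] := by
  rw [dd_apply (by simp)]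
  rw [d_cons, d_cons]
  simp

/-- local constancy of a cocycle of index one -/
theorem j12377_const {E : Type*} [TopologicalSpace E] {u : Ch E} {z : E} (hu : dd u ∈ Nz z 2) :
    ∃ W : Set E, IsOpen W ∧ z ∈ W ∧ ∀ x ∈ W, u [x] = u [z] := by
  obtain ⟨W, hW, hzW, h⟩ := exists_of_mem_Nz (by norm_num) hu
  refine ⟨W, hW, hzW, fun x hx => ?_⟩
  have h1 := h [x, z] (by simp) (by simp [hx, hzW])
  rw [j12377_dd_two] at h1
  have h2 : u [z] - u [x] = 0 := by rw [CharTwo.sub_eq_add]; exact h1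
  exact (sub_eq_zero.1 h2).symm

theorem j12377_XX_MR {A B C : Type*} [TopologicalSpace A] [TopologicalSpace B]
    [TopologicalSpace C] {p : A × B × C} {k : ℕ} (g : Ch A) (c : Ch B) :
    (XX k g c : Ch3 A B C) - MR k (Q1 g) c ∈ N3 p (2 * k + 1) := by
  refine mem_N3_of Filter.univ_mem Filter.univ_mem Filter.univ_mem
    fun l₁ l₂ l₃ h1 h2 h3 hl _ _ _ => ?_
  have e1 : 1 ≤ l₁.length := List.length_pos_iff.2 h1
  have e2 : 1 ≤ l₂.length := List.length_pos_iff.2 h2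
  have e3 : 1 ≤ l₃.length := List.length_pos_iff.2 h3
  show XX k g c l₁ l₂ l₃ - MR k (Q1 g) c l₁ l₂ l₃ = 0
  unfold XX MR cupR Q1
  by_cases hc : l₁.length = k + 1 ∧ l₃.length = 1
  · have hl2 : l₂.length = k + 1 := by omega
    rw [if_pos hc, if_pos (by omega)]
    have h0 : l₂.length - k - 1 = 0 := by omega
    have h1 : (List.take (l₂.length - k) l₂).length = 1 := by rw [List.length_take]; omega
    beta_reduce
    rw [if_pos ⟨h1, hc.2⟩, h0, List.drop_zero, sub_self]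
  · rw [if_neg hc]
    beta_reduce
    split_ifs with h4 h5
    · exfalso
      rw [List.length_take] at h5
      apply hc
      omega
    · simp
    · simp

theorem j12377_cupR_mem_left {Ω : Type*} [TopologicalSpace Ω] {z : Ω} {k n : ℕ} {b c : Ch Ω}
    (hn : 1 ≤ n) (hb : b ∈ Nz z n) : cupR k b c ∈ Nz z (n + k) := by
  obtain ⟨W, hW, hzW, h⟩ := exists_of_mem_Nz (by omega) hb
  refine mem_Nz_of (hW.mem_nhds hzW) fun l hl hx => ?_
  unfold cupR
  split_ifs with h1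
  · rw [h (l.take (l.length - k)) (by rw [List.length_take]; omega)
      (fun x hx' => hx x (List.mem_of_mem_take hx')), zero_mul]
  · rfl

theorem j12377_cupR_mem_right {Ω : Type*} [TopologicalSpace Ω] {z : Ω} {k n : ℕ} {b c : Ch Ω}
    (hc : c ∈ Nz z (k + 1)) : cupR k b c ∈ Nz z n := by
  obtain ⟨W, hW, hzW, h⟩ := exists_of_mem_Nz (by omega) hc
  refine mem_Nz_of (hW.mem_nhds hzW) fun l hl hx => ?_
  unfold cupR
  split_ifs with h1
  · rw [h (l.drop (l.length - k - 1)) (by rw [List.length_drop]; omega)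
      (fun x hx' => hx x (List.mem_of_mem_drop hx')), mul_zero]
  · rfl

theorem j12377_pair {D' : Type*} [AddCommGroup D'] (N : AddSubgroup D') {x y z : D'}
    (h1 : x - y ∈ N) (h2 : y - z ∈ N) : x - z ∈ N := by
  have := add_mem h1 h2
  rwa [sub_add_sub_cancel] at this

/-- the decomposition of the symmetric cross product. -/
theorem top_cc (D : Dat k π G S B a H) {u e' : Ch E} {c : Ch Ω} (hu : (AS E).Coc B 1 u)
    (hsym : ∀ z ∈ B, u - pb Neg.neg u ∈ Nz z 1) (hc : (AS Ω).Coc G (k + 1) c)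
    (he' : (AS E).Coc B (k + 1) e')
    (hce : ∀ ξ ∈ G ∩ π ⁻¹' B, c - (cup k a (pb π u) - pb π e') ∈ Nz ξ (k + 1)) :
    ∃ (e : Ch Ω) (b₁ : Ch E) (f : Ch3 Ω Ω R), (AS Ω).Coc (G ∩ π ⁻¹' B) (2 * k + 1) e ∧
      (AS E).Coc B (k + 1) b₁ ∧
      ∀ p ∈ H, p.2.1 ∈ G ∩ π ⁻¹' B →
        CC k c - (Q2 e + XX k a (cup k a (pb π u) + pb π b₁) - d3 f) ∈ N3 p (2 * k + 1) := by
  refine ⟨cupR k (pb π (pb Neg.neg e')) c, cup 0 (pb Neg.neg u) e', MR k (JH π π e') c, ?_, ?_, ?_⟩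
  · -- cocycle
    intro ξ hξ
    show dd (cupR k (pb π (pb Neg.neg e')) c) ∈ Nz ξ (2 * k + 1 + 1)
    rw [dd_cupR]
    refine add_mem ?_ ?_
    · have h1 : dd (pb π (pb Neg.neg e')) ∈ Nz ξ (k + 2) := by
        rw [dd_pb, dd_pb]
        refine pb_mem_Nz D.hπ.continuousAt (pb_mem_Nz continuous_neg.continuousAt ?_)
        exact he' _ (D.negB _ hξ.2)
      have h2 := j12377_cupR_mem_left (k := k) (c := c) (by omega) h1
      have e2 : k + 2 + k = 2 * k + 1 + 1 := by ring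
      rw [e2] at h2
      exact h2
    · refine j12377_cupR_mem_right ?_
      exact hc ξ hξ.1
  · intro z hz
    show dd (cup 0 (pb Neg.neg u) e') ∈ Nz z (k + 1 + 1)
    have e1 : dd (cup 0 (pb Neg.neg u) e') =
        cup 1 (dd (pb Neg.neg u)) e' + cup 0 (pb Neg.neg u) (dd e') := by
      funext l
      exact leibniz 0 _ _ l
    rw [e1]
    refine add_mem ?_ ?_
    · have h1 : dd (pb Neg.neg u) ∈ Nz z 2 := by
        rw [dd_pb]
        refine pb_mem_Nz continuous_neg.continuousAt ?_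
        exact hu _ (D.negB _ hz)
      obtain ⟨W, hW, hzW, h⟩ := exists_of_mem_Nz (by norm_num) h1
      refine mem_Nz_of (hW.mem_nhds hzW) fun l hl hx => ?_
      rw [cup_of_lt (by omega), h (l.take (1 + 1)) (by rw [List.length_take]; omega)
        (fun x hx' => hx x (List.mem_of_mem_take hx')), zero_mul]
    · have h1 : dd e' ∈ Nz z (k + 1 + 1) := he' z hz
      obtain ⟨W, hW, hzW, h⟩ := exists_of_mem_Nz (by omega) h1
      refine mem_Nz_of (hW.mem_nhds hzW) fun l hl hx => ?_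
      rw [cup_of_lt (by omega), List.drop_zero, h l hl hx, mul_zero]
  · intro p hp hpB
    have hξG : p.1 ∈ G := (D.H1 p hp).1
    have hηG : p.2.1 ∈ G := (D.H1 p hp).2.1
    have hπp : π p.1 = - π p.2.1 := (D.H1 p hp).2.2
    have hwB : π p.2.1 ∈ B := hpB.2
    have hξB : π p.1 ∈ B := by rw [hπp]; exact D.negB _ hwB
    -- step 1
    have s1 : (CC k c : Ch3 Ω Ω R) - XX k c c ∈ N3 p (2 * k + 1) := CC_XX c
    -- step 2
    have s2 : (XX k c c : Ch3 Ω Ω R) -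
        (XX k (cup k a (pb π u)) c + XX k (pb π e') c) ∈ N3 p (2 * k + 1) := by
      have h1 := hce p.1 ⟨hξG, hξB⟩
      rw [j12377_ch_sub, j12377_ch_sub] at h1
      have h2 : (XX k (c + (cup k a (pb π u) + pb π e')) c : Ch3 Ω Ω R) ∈ N3 p (2 * k + 1) :=
        XX_mem_left c h1
      rw [XX_add_left, XX_add_left] at h2
      rw [j12377_ch3_sub]
      exact h2
    -- step 3
    have hcl := j12377_const (hu _ hξB)
    obtain ⟨W₁, hW₁, hzW₁, hc₁⟩ := hcl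
    obtain ⟨W₂, hW₂, hzW₂, hc₂⟩ := j12377_const (hu _ hwB)
    obtain ⟨W₃, hW₃, hzW₃, hc₃⟩ := exists_of_mem_Nz (by norm_num) (hsym _ hwB)
    have hV₁ : π ⁻¹' W₁ ∈ 𝓝 p.1 := D.hπ.continuousAt.preimage_mem_nhds (hW₁.mem_nhds hzW₁)
    have hV₂ : (fun x => - π x) ⁻¹' W₁ ∈ 𝓝 p.2.1 := by
      refine ((continuous_neg.comp D.hπ).continuousAt).preimage_mem_nhds (hW₁.mem_nhds ?_)
      show - π p.2.1 ∈ W₁
      rw [← hπp]; exact hzW₁
    have s3 : (XX k (cup k a (pb π u)) c : Ch3 Ω Ω R) -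
        XX k a (cup 0 (pb π (pb Neg.neg u)) c) ∈ N3 p (2 * k + 1) := by
      refine mem_N3_of hV₁ hV₂ Filter.univ_mem fun l₁ l₂ l₃ h1 h2 h3 hl hx hy _ => ?_
      show XX k (cup k a (pb π u)) c l₁ l₂ l₃ -
        XX k a (cup 0 (pb π (pb Neg.neg u)) c) l₁ l₂ l₃ = 0
      unfold XX
      split_ifs with h4
      · obtain ⟨h4, h5⟩ := h4
        have e2 : 1 ≤ l₂.length := List.length_pos_iff.2 h2
        rw [cup_of_lt (by omega), cup_of_lt (by omega)]
        obtain ⟨y, hy'⟩ : ∃ y, l₂.take (0 + 1) = [y] := by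
          rcases l₂ with _ | ⟨y, l₂⟩
          · simp at e2
          · exact ⟨y, by simp⟩
        obtain ⟨x, hx'⟩ : ∃ x, l₁.drop k = [x] := by
          rw [← List.length_eq_one_iff, List.length_drop]; omega
        have hyW := hy y (List.mem_of_mem_take (by rw [hy']; simp))
        have hxW := hx x (List.mem_of_mem_drop (by rw [hx']; simp))
        rw [hy', hx', List.drop_zero]
        have e3 : pb π u [x] = u [π p.1] := hc₁ _ hxW
        have e4 : pb π (pb Neg.neg u) [y] = u [π p.1] := hc₁ _ hyW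
        rw [e3, e4, List.take_of_length_le (by omega)]
        ring
      · simp
    -- step 4
    have hc4 : cup 0 (pb π (pb Neg.neg u)) c -
        (cup k a (pb π u) + pb π (cup 0 (pb Neg.neg u) e')) ∈ Nz p.2.1 (k + 1) := by
      have h1 := hce p.2.1 hpB
      obtain ⟨W₄, hW₄, hzW₄, hc₄⟩ := exists_of_mem_Nz (by omega) h1
      have hV₃ : π ⁻¹' W₂ ∈ 𝓝 p.2.1 := D.hπ.continuousAt.preimage_mem_nhds (hW₂.mem_nhds hzW₂)
      have hV₄ : π ⁻¹' W₃ ∈ 𝓝 p.2.1 := D.hπ.continuousAt.preimage_mem_nhds (hW₃.mem_nhds hzW₃)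
      refine mem_Nz_of (Filter.inter_mem (hW₄.mem_nhds hzW₄) (Filter.inter_mem hV₃ hV₄))
        fun l hl hx => ?_
      have h2 := hc₄ l hl fun x hx' => (hx x hx').1
      show cup 0 (pb π (pb Neg.neg u)) c l -
        (cup k a (pb π u) l + pb π (cup 0 (pb Neg.neg u) e') l) = 0
      have h2' : c l = cup k a (pb π u) l + pb π e' l := by
        have h3 : c l - (cup k a (pb π u) l - pb π e' l) = 0 := h2
        rw [CharTwo.sub_eq_add (cup k a (pb π u) l)] at h3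
        exact sub_eq_zero.1 h3
      have e5 : pb π (cup 0 (pb Neg.neg u) e') l = cup 0 (pb Neg.neg u) e' (l.map π) := rfl
      have g1 : cup 0 (pb π (pb Neg.neg u)) c l =
          pb π (pb Neg.neg u) (l.take (0 + 1)) * c l := by
        rw [cup_of_lt (by omega), List.drop_zero]
      have g2 : cup 0 (pb Neg.neg u) e' (l.map π) =
          pb Neg.neg u ((l.map π).take (0 + 1)) * e' (l.map π) := by
        rw [cup_of_lt (by rw [List.length_map]; omega), List.drop_zero]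
      rw [e5, g1, g2, h2']
      obtain ⟨y, hy'⟩ : ∃ y, l.take (0 + 1) = [y] := by
        rcases l with _ | ⟨y, l⟩
        · simp at hl
        · exact ⟨y, by simp⟩
      have e6 : (l.map π).take (0 + 1) = [π y] := by
        rw [← List.map_take, hy']; rfl
      obtain ⟨x, hx'⟩ : ∃ x, l.drop k = [x] := by
        rw [← List.length_eq_one_iff, List.length_drop]; omega
      rw [hy', e6, cup_of_lt (by omega), hx']
      have hyW := hx y (List.mem_of_mem_take (by rw [hy']; simp))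
      have hxW := hx x (List.mem_of_mem_drop (by rw [hx']; simp))
      have e7 : pb π u [x] = u [π p.2.1] := hc₂ _ hxW.2.1
      have e8 : u [π y] = u [π p.2.1] := hc₂ _ hyW.2.1
      have e9 : pb Neg.neg u [π y] = u [π y] := by
        have h3 := hc₃ [π y] (by simp) (by
          intro x hx
          rw [List.mem_singleton] at hx
          rw [hx]; exact hyW.2.2)
        have h4 : u [π y] - pb Neg.neg u [π y] = 0 := h3
        exact (sub_eq_zero.1 h4).symm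
      have e10 : pb π (pb Neg.neg u) [y] = pb Neg.neg u [π y] := rfl
      have e11 : pb π e' l = e' (l.map π) := rfl
      rw [e10, e9, e8, e7, e11]
      have e12 : u [π p.2.1] * u [π p.2.1] = u [π p.2.1] := by
        generalize u [π p.2.1] = t
        revert t; decide
      have e13 : u [π p.2.1] * (a (l.take (k + 1)) * u [π p.2.1] + e' (l.map π)) =
          a (l.take (k + 1)) * (u [π p.2.1] * u [π p.2.1]) + u [π p.2.1] * e' (l.map π) := by
        ring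
      rw [e13, e12, sub_self]
    have s4 : (XX k a (cup 0 (pb π (pb Neg.neg u)) c) : Ch3 Ω Ω R) -
        XX k a (cup k a (pb π u) + pb π (cup 0 (pb Neg.neg u) e')) ∈ N3 p (2 * k + 1) := by
      have h1 : (XX k a (cup 0 (pb π (pb Neg.neg u)) c -
        (cup k a (pb π u) + pb π (cup 0 (pb Neg.neg u) e'))) : Ch3 Ω Ω R) ∈ N3 p (2 * k + 1) := by
        refine XX_mem ?_
        have : 2 * k + 1 - k = k + 1 := by omega
        rw [this]; exact hc4
      rw [j12377_ch_sub, XX_add_right] at h1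
      rw [j12377_ch3_sub]
      exact h1
    -- step 5
    have s5 : (XX k (pb π e') c : Ch3 Ω Ω R) - MR k (Q1 (pb π e')) c ∈ N3 p (2 * k + 1) :=
      j12377_XX_MR _ _
    -- step 6
    have s6 : (MR k (Q1 (pb π e')) c : Ch3 Ω Ω R) -
        (Q2 (cupR k (pb π (pb Neg.neg e')) c) - d3 (MR k (JH π π e') c)) ∈ N3 p (2 * k + 1) := by
      have h1 : (Q1 (pb π e') : Ch3 Ω Ω R) + Q2 (pb π (pb Neg.neg e')) - d3 (JH π π e') ∈
          N3 p (k + 1) :=
        JH_spec D.hπ.continuousAt D.hπ.continuousAt hπp (he' _ hξB)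
      have h2 := MR_mem (k := k) c h1
      have e2 : k + 1 + k = 2 * k + 1 := by ring
      rw [e2, j12377_ch3_sub, MR_add, MR_add, MR_Q2] at h2
      have h3 : (MR (k + 1) (JH π π e') (dd c) : Ch3 Ω Ω R) ∈ N3 p (2 * k + 1) :=
        MR_mem_right _ (hc _ hηG)
      have h4 := add_mem h2 h3
      rw [d3_MR]
      have e3 : (MR k (Q1 (pb π e')) c : Ch3 Ω Ω R) -
        (Q2 (cupR k (pb π (pb Neg.neg e')) c) -
          (MR k (d3 (JH π π e')) c + MR (k + 1) (JH π π e') (dd c))) =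
          MR k (Q1 (pb π e')) c + Q2 (cupR k (pb π (pb Neg.neg e')) c) +
            MR k (d3 (JH π π e')) c + MR (k + 1) (JH π π e') (dd c) := by
        rw [j12377_ch3_sub, j12377_ch3_sub]
        abel
      rw [e3]
      exact h4
    -- combine
    have t1 := j12377_pair _ s1 s2
    have t2 := add_mem (j12377_pair _ s3 s4) (j12377_pair _ s5 s6)
    have t3 := add_mem t1 t2
    refine (iff_of_eq (congrArg (· ∈ N3 p (2 * k + 1)) ?_)).1 t3
    abel

theorem j12379_pbcoc (D : Dat k π G S B a H) {n : ℕ} {e : Ch E} (he : (AS E).Coc B n e) :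
    (AS Ω).Coc (G ∩ π ⁻¹' B) n (pb π e) := by
  intro ξ hξ
  have h1 : dd e ∈ Nz (π ξ) (n + 1) := he (π ξ) hξ.2
  have h2 : pb π (dd e) ∈ Nz ξ (n + 1) := pb_mem_Nz D.hπ.continuousAt h1
  show dd (pb π e) ∈ Nz ξ (n + 1)
  rw [dd_pb]; exact h2

theorem j12379_Q2_sub (x y : Ch Ω) : (Q2 (x - y) : Ch3 Ω Ω R) = Q2 x - Q2 y := by
  rw [eq_sub_iff_add_eq, ← Q2_add, sub_add_cancel]

theorem j12379_XX_sub (a : Ch Ω) (x y : Ch Ω) : (XX k a (x - y) : Ch3 Ω Ω R) = XX k a x - XX k a y := by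
  rw [eq_sub_iff_add_eq, ← XX_add_right, sub_add_cancel]

theorem j12379_d3_sub (x y : Ch3 Ω Ω R) : d3 (x - y) = d3 x - d3 y := by
  rw [eq_sub_iff_add_eq, ← d3_add, sub_add_cancel]

theorem j12379_CC (D : Dat k π G S B a H) {c : Ch Ω} (hc : (AS Ω).Coc G (k + 1) c) :
    (K3 Ω Ω R).Coc H (2 * k + 1) (CC k c) := by
  intro p hp
  show D3 (CC k c) ∈ N3 p (2 * k + 1 + 1)
  have h1 := K3_D_mem p (2 * k + 1) _ (CC_XX (p := p) (k := k) c)
  obtain ⟨hp1, hp2, _⟩ := D.H1 p hp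
  have hc1 : dd c ∈ Nz p.1 (k + 1 + 1) := hc _ hp1
  have hc2 : dd c ∈ Nz p.2.1 (k + 1 + 1) := hc _ hp2
  have h2 : d3 (XX k c c) ∈ N3 p (2 * k + 1 + 1) := by
    rw [d3_XX]
    refine add_mem (XX_mem_left c hc1) (XX_mem ?_)
    have e : 2 * k + 1 + 1 - k = k + 1 + 1 := by omega
    rw [e]; exact hc2
  have e : D3 (CC k c : Ch3 Ω Ω R) = D3 (CC k c - XX k c c) + d3 (XX k c c) := by
    rw [map_sub, D3_apply, D3_apply]; abel
  rw [e]
  exact add_mem h1 h2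

theorem topStep (D : Dat k π G S B a H) {y : Ch3 Ω Ω R} (hy : (K3 Ω Ω R).Coc H (2 * k + 1) y)
    (hT : (K3 Ω Ω R).Cob H (2 * k + 1) (y - TT y)) :
    ∃ c g₁ g₂ : Ch Ω, (AS Ω).Coc G (k + 1) c ∧ (AS Ω).Coc G (2 * k + 1) g₁ ∧
      (AS Ω).Coc G (2 * k + 1) g₂ ∧
      (K3 Ω Ω R).Cob H (2 * k + 1) (y - CC k c - Q1 g₁ - Q2 g₂) := by
  have hk1 : 2 * k + 1 - k = k + 1 := by omega
  have hk2 : k + 1 - k = 1 := by omega
  obtain ⟨e, b, f, he, hb, h⟩ := D.decompH D.hGB (Subset.refl _) (n := 2 * k + 1) (y := y)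
    (fun p hp _ => hy p hp)
  rw [hk1] at hb
  obtain ⟨b0, u, f', hb0, hu, h'⟩ := D.decompG D.hB (Subset.refl _) (n := k + 1) (y := b) hb
  rw [hk2] at hu
  have hsym := D.top_sym hy hT he hb0 hu h h'
  have hcup : (AS Ω).Coc (G ∩ π ⁻¹' B) (k + 1) (cup k a (pb π u)) := by
    have c1 : (AS Ω).Coc (G ∩ π ⁻¹' B) (k + 1) (b - (pb π b0 + cup k a (pb π u) - dd f')) :=
      Coc.of_mem h'
    have c2 := j12379_pbcoc D hb0
    have c3 : (AS Ω).Coc (G ∩ π ⁻¹' B) (k + 1) (dd f') := coc_D _ _ f'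
    have c4 := ((hb.sub c2).add c3).sub c1
    have e : b - pb π b0 + dd f' - (b - (pb π b0 + cup k a (pb π u) - dd f')) = cup k a (pb π u) := by
      abel
    rw [e] at c4
    exact c4
  have hk := D.hk
  obtain ⟨c, e', hc, he', hce⟩ := D.extG (n := k + 1) (by omega) (by omega) hcup
  obtain ⟨e2, b1, f2, he2, hb1, h2⟩ := D.top_cc hu hsym hc he' hce
  have hy' : (K3 Ω Ω R).Coc H (2 * k + 1) (y - CC k c) := hy.sub (j12379_CC D hc)
  have hb01 : (AS E).Coc B (2 * k + 1 - k) (b0 - b1) := by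
    rw [hk1]; exact hb0.sub hb1
  obtain ⟨g1, g2, hg1, hg2, hg⟩ := D.s1core (m := 2 * k + 1) (by omega) le_rfl hy'
    (he.sub he2) hb01 (f := XX k a f' + f - f2) (by
      intro p hp hpG
      have r1 := h p hp hpG
      have r2 := h2 p hp hpG
      have r3 : (XX k a (b - (pb π b0 + cup k a (pb π u) - dd f')) : Ch3 Ω Ω R) ∈ N3 p (2 * k + 1) := by
        apply XX_mem
        rw [hk1]
        exact h' _ hpG
      have r4 : (XX (k + 1) (dd a) f' : Ch3 Ω Ω R) ∈ N3 p (2 * k + 1) := XX_mem_left f' (D.hda p hp)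
      have e1 : (XX k a (b - (pb π b0 + cup k a (pb π u) - dd f')) : Ch3 Ω Ω R)
          = XX k a b - (XX k a (pb π b0) + XX k a (cup k a (pb π u)) - XX k a (dd f')) := by
        rw [j12379_XX_sub, j12379_XX_sub, XX_add_right]
      have e2' : (d3 (XX k a f') : Ch3 Ω Ω R) = XX (k + 1) (dd a) f' + XX k a (dd f') := d3_XX k a f'
      have e3 : (XX k a (pb π (b0 - b1)) : Ch3 Ω Ω R) = XX k a (pb π b0) - XX k a (pb π b1) := by
        have : pb π (b0 - b1) = pb π b0 - pb π b1 := rfl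
        rw [this, j12379_XX_sub]
      rw [e1] at r3
      rw [XX_add_right] at r2
      have key : y - CC k c - (Q2 (e - e2) + XX k a (pb π (b0 - b1)) - d3 (XX k a f' + f - f2))
          = (y - (Q2 e + XX k a b - d3 f)) - (CC k c - (Q2 e2 + (XX k a (cup k a (pb π u)) + XX k a (pb π b1)) - d3 f2))
            + (XX k a b - (XX k a (pb π b0) + XX k a (cup k a (pb π u)) - XX k a (dd f')))
            + XX (k + 1) (dd a) f' := by
        rw [j12379_Q2_sub, e3, j12379_d3_sub, d3_add, e2']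
        abel
      rw [key]
      exact add_mem (add_mem (sub_mem r1 r2) r3) r4)
  exact ⟨c, g1, g2, hc, hg1, hg2, hg⟩

theorem a10_two {A B C : Type*} : (2 : Ch3 A B C) = 0 := by
  funext l₁ l₂ l₃
  exact (by decide : (2 : ZMod 2) = 0)

theorem a10_neg {A B C : Type*} (y : Ch3 A B C) : -y = y := by
  linear_combination (-y) * (a10_two (A := A) (B := B) (C := C))

theorem a10_sub {A B C : Type*} (x y : Ch3 A B C) : x - y = x + y := by
  linear_combination (-y) * (a10_two (A := A) (B := B) (C := C))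

theorem a10_chsub {A : Type*} (x y : Ch A) : x - y = x + y := by
  funext l
  have h : (2 : ZMod 2) = 0 := by decide
  show x l - y l = x l + y l
  linear_combination (-y l) * h

theorem a10_TT (D : Dat k π G S B a H) {n : ℕ} {y : Ch3 Ω Ω R} (hy : ∀ p ∈ H, y ∈ N3 p n) :
    ∀ p ∈ H, TT y ∈ N3 p n := by
  intro p hp
  have h := TT_mem (hy _ (D.H4 p hp))
  simpa using h

theorem a10_yT {c : Ch R} (r : Ch3 Ω Ω R) :
    (Q3 c + r + TT r) + TT (Q3 c + r + TT r) = Q3 c + Q3 (pb Neg.neg c) := by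
  rw [TT_add, TT_add, TT_TT, TT_Q3]
  linear_combination (r + TT r) * (a10_two (A := Ω) (B := Ω) (C := R))

theorem a10_step (D : Dat k π G S B a H) {n : ℕ} (hn : 1 ≤ n) (hn' : n ≤ 2 * k) (c : Ch R)
    (h2 : ∀ p ∈ H, ∀ n, 2 ≤ n → n ≤ 2 * k + 1 → c + pb Neg.neg c - dd c ∈ Nz p.2.2 n)
    {r z : Ch3 Ω Ω R} (hz : TT z = z) {g₁ g₂ : Ch Ω}
    (hg₁ : (AS Ω).Coc G (n + 1) g₁) (hg₂ : (AS Ω).Coc G (n + 1) g₂)
    (h : (K3 Ω Ω R).Cob H (n + 1) (Q3 c + r + TT r - z - Q1 g₁ - Q2 g₂)) :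
    ∃ r', (K3 Ω Ω R).Coc H n (Q3 c + r' + TT r') := by
  obtain ⟨r₁, hr₁⟩ := h
  have t2 := a10_two (A := Ω) (B := Ω) (C := R)
  set y : Ch3 Ω Ω R := Q3 c + r + TT r with hy
  have he1 : ∀ p ∈ H, y + z + Q1 g₁ + Q2 g₂ + d3 r₁ ∈ N3 p (n + 1) := by
    intro p hp
    have := hr₁ p hp
    rw [K3_D, K3_N] at this
    simpa only [a10_sub] using this
  have hT1 : ∀ p ∈ H, TT y + z + Q2 g₁ + Q1 g₂ + d3 (TT r₁) ∈ N3 p (n + 1) := by
    have := a10_TT D he1
    simpa only [TT_add, TT_Q1, TT_Q2, TT_d3, hz] using this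
  have hyT : ∀ p ∈ H, y + TT y + d3 (Q3 c) ∈ N3 p (n + 1) := by
    intro p hp
    have h3 : (Q3 (c + pb Neg.neg c - dd c) : Ch3 Ω Ω R) ∈ N3 p (n + 1) :=
      Q3_mem (h2 p hp (n + 1) (by omega) (by omega))
    rw [a10_chsub, Q3_add, Q3_add] at h3
    rw [hy, a10_yT, d3_Q3]
    exact h3
  have hcob : (K3 Ω Ω R).Cob H (n + 1) (Q1 (g₁ + g₂) + Q2 (g₁ + g₂)) := by
    refine ⟨r₁ + TT r₁ + Q3 c, fun p hp => ?_⟩
    rw [K3_D, K3_N, a10_sub, d3_add, d3_add, Q1_add, Q2_add]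
    have h4 := add_mem (add_mem (he1 p hp) (hT1 p hp)) (hyT p hp)
    convert h4 using 1
    linear_combination (-(z + y + TT y)) * t2
  obtain ⟨f, hf⟩ := s2 D (m := n + 1) (by omega) (by omega) (hg₁.add hg₂) (hg₁.add hg₂) hcob
  have he2 : ∀ p ∈ H, Q2 g₁ + Q2 g₂ + d3 (Q2 f) ∈ N3 p (n + 1) := by
    intro p hp
    have h5 := hf p.2.1 (D.H1 p hp).2.1
    rw [AS_D, AS_N] at h5
    have h6 : (Q2 (g₁ + g₂ - dd f) : Ch3 Ω Ω R) ∈ N3 p (n + 1) := Q2_mem h5
    rw [a10_chsub, Q2_add, Q2_add] at h6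
    rw [d3_Q2]
    exact h6
  have he3 : ∀ p ∈ H, y + z + Q1 g₁ + Q2 g₁ + d3 (r₁ + Q2 f) ∈ N3 p (n + 1) := by
    intro p hp
    have h7 := add_mem (he1 p hp) (he2 p hp)
    convert h7 using 1
    rw [d3_add]
    linear_combination (-(Q2 g₂)) * t2
  have hT3 : ∀ p ∈ H, TT y + z + Q2 g₁ + Q1 g₁ + d3 (TT (r₁ + Q2 f)) ∈ N3 p (n + 1) := by
    have := a10_TT D he3
    simpa only [TT_add, TT_Q1, TT_Q2, TT_d3, hz] using this
  refine ⟨r₁ + Q2 f, fun p hp => ?_⟩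
  rw [K3_D, K3_N, d3_add, d3_add]
  have h8 := add_mem (add_mem (he3 p hp) (hT3 p hp)) (hyT p hp)
  convert h8 using 1
  linear_combination (-(z + y + TT y + Q1 g₁ + Q2 g₁)) * t2

/-- the descending argument. -/
theorem descent (D : Dat k π G S B a H) (hne : H.Nonempty) (c : Ch R)
    (h1 : ∀ p ∈ H, c + pb Neg.neg c - one ∈ Nz p.2.2 1)
    (h2 : ∀ p ∈ H, ∀ n, 2 ≤ n → n ≤ 2 * k + 1 → c + pb Neg.neg c - dd c ∈ Nz p.2.2 n)
    (h3 : ∀ p ∈ H, dd c ∈ Nz p.2.2 (2 * k + 2)) : False := by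
  have hclaim : ∀ j : ℕ, j ≤ 2 * k → ∃ r : Ch3 Ω Ω R,
      (K3 Ω Ω R).Coc H (2 * k + 1 - j) (Q3 c + r + TT r) := by
    intro j
    induction j with
    | zero =>
      intro _
      refine ⟨0, fun p hp => ?_⟩
      have hT0 : TT (0 : Ch3 Ω Ω R) = 0 := rfl
      rw [hT0, add_zero, add_zero, K3_D, K3_N, d3_Q3]
      exact Q3_mem (h3 p hp)
    | succ j ih =>
      intro hj
      obtain ⟨r, hr⟩ := ih (by omega)
      obtain ⟨n, hn⟩ : ∃ n, 2 * k + 1 - (j + 1) = n := ⟨_, rfl⟩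
      have hn2 : 2 * k + 1 - j = n + 1 := by omega
      rw [hn]
      rw [hn2] at hr
      rcases Nat.eq_zero_or_pos j with hj0 | hj0
      · have hn3 : n + 1 = 2 * k + 1 := by omega
        have hT : (K3 Ω Ω R).Cob H (n + 1)
            ((Q3 c + r + TT r) - TT (Q3 c + r + TT r)) := by
          refine ⟨Q3 c, fun p hp => ?_⟩
          rw [a10_sub, a10_sub, a10_yT, K3_D, K3_N, d3_Q3]
          have h4 : (Q3 (c + pb Neg.neg c - dd c) : Ch3 Ω Ω R) ∈ N3 p (n + 1) :=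
            Q3_mem (h2 p hp (n + 1) (by have := D.hk; omega) (by omega))
          rw [a10_chsub, Q3_add, Q3_add] at h4
          exact h4
        rw [hn3] at hr hT
        obtain ⟨c', g₁, g₂, -, hg₁, hg₂, hcob⟩ := topStep D hr hT
        rw [← hn3] at hg₁ hg₂ hcob
        exact a10_step D (by have := D.hk; omega) (by omega) c h2 (TT_CC k c') hg₁ hg₂ hcob
      · obtain ⟨g₁, g₂, hg₁, hg₂, hcob⟩ := s1 D (m := n + 1) (by omega) (by omega) hr
        refine a10_step D (by omega) (by omega) c h2 (r := r) (z := 0) rfl hg₁ hg₂ ?_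
        rw [sub_zero]
        exact hcob
  obtain ⟨r, hr⟩ := hclaim (2 * k) le_rfl
  rw [show 2 * k + 1 - 2 * k = 1 by omega] at hr
  obtain ⟨p, hp⟩ := hne
  have t2 := a10_two (A := Ω) (B := Ω) (C := R)
  have hone : (Q3 c + r + TT r) + TT (Q3 c + r + TT r) + one3 ∈ N3 p 1 := by
    have h4 : (Q3 (c + pb Neg.neg c - one) : Ch3 Ω Ω R) ∈ N3 p 1 := Q3_mem (h1 p hp)
    rw [a10_chsub, Q3_add, Q3_add] at h4
    have h5 : (Q3 one : Ch3 Ω Ω R) - one3 ∈ N3 p 1 := Q3_one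
    have h6 := add_mem h4 h5
    rw [a10_yT]
    convert h6 using 1
    linear_combination (one3 - Q3 one) * t2
  have hyy : (Q3 c + r + TT r) + TT (Q3 c + r + TT r) ∈ N3 p 1 := by
    rcases s0 D hr with h0 | h0
    · exact add_mem (h0 p hp) (a10_TT D h0 p hp)
    · have h4 := add_mem (h0 p hp) (a10_TT D h0 p hp)
      convert h4 using 1
      rw [a10_sub, TT_add (Q3 c + r + TT r) one3, TT_one3]
      linear_combination (-one3) * t2
  have hone3 : (one3 : Ch3 Ω Ω R) ∈ N3 p 1 := by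
    have h4 := sub_mem hone hyy
    rwa [add_sub_cancel_left] at h4
  refine (k3_acy_singleton (A := Ω) (B := Ω) (C := R) p).1 ?_
  intro z hz
  rw [Set.mem_singleton_iff] at hz
  rw [hz, K3_N]
  exact hone3

end Dat

end Pool.Agent.Helper775.Tight
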