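import Pool.Agent.Helper775.Sym.Geo

/-! The theorem on centrally symmetric tight embeddings of `S^k × S^k`. -/

set_option autoImplicit false

namespace Pool.Agent.Helper775.Tight

open Set Topology SoftCx
open scoped InnerProductSpace

/-- The image of `f` is invariant under the reflection `y ↦ 2 c - y` in some point `c`. -/
def CentrallySymmetric {X : Type*} {N : ℕ} (f : X → EuclideanSpace ℝ (Fin N)) : Prop :=
  ∃ c : EuclideanSpace ℝ (Fin N), ∀ y ∈ Set.range f, (2 : ℝ) • c - y ∈ Set.range f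

theorem surj_of_sing_prod {k : ℕ} (hk : 1 ≤ k) (g : SS k × SS k → ℝ) (hg : Continuous g)
    (T : ℝ) (h : ∀ t < T, HomologyInjective {x | t ≤ g x}) (n : ℕ) (c : Ch (SS k × SS k))
    (hc : (AS (SS k × SS k)).Coc {x | T ≤ g x} n c) :
    ∃ c', (AS (SS k × SS k)).Coc univ n c' ∧
      (AS (SS k × SS k)).Cob {x | T ≤ g x} n (c - c') := by
  haveI : ConnectedSpace (SS k) := job12819_connected k hk
  haveI : Fact (Module.finrank ℝ (EuclideanSpace ℝ (Fin (k + 1))) = k + 1) :=
    ⟨finrank_euclideanSpace_fin⟩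
  let e : (EuclideanSpace ℝ (Fin k) × EuclideanSpace ℝ (Fin k)) ≃L[ℝ]
      EuclideanSpace ℝ (Fin (2 * k)) :=
    ContinuousLinearEquiv.ofFinrankEq (by simp; ring)
  let e' : (ModelProd (EuclideanSpace ℝ (Fin k)) (EuclideanSpace ℝ (Fin k))) ≃ₜ
      EuclideanSpace ℝ (Fin (2 * k)) := e.toHomeomorph
  letI i1 : ChartedSpace (EuclideanSpace ℝ (Fin (2 * k)))
      (ModelProd (EuclideanSpace ℝ (Fin k)) (EuclideanSpace ℝ (Fin k))) :=
    e'.toOpenPartialHomeomorph.singletonChartedSpace rfl
  letI i2 : ChartedSpace (EuclideanSpace ℝ (Fin (2 * k))) (SS k × SS k) :=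
    ChartedSpace.comp (EuclideanSpace ℝ (Fin (2 * k)))
      (ModelProd (EuclideanSpace ℝ (Fin k)) (EuclideanSpace ℝ (Fin k))) (SS k × SS k)
  exact surj_of_sing (m := 2 * k) g hg T h n c hc

/-- Centrally symmetric tight substantial embeddings of `S^k × S^k` have codimension at most `2`. -/
theorem final_sym {k N : ℕ} (hk : 1 ≤ k)
    (f : SS k × SS k → EuclideanSpace ℝ (Fin N)) (hf : Continuous f)
    (hinj : Function.Injective f) (hs : Substantial f)
    (ht : TightMap f ∨ CechTightMap f) (hc : CentrallySymmetric f) : N ≤ 2 * k + 2 := by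
  by_contra hN
  obtain ⟨c, hc⟩ := hc
  have hsym : ∀ x, ∃ y, f y - c = -(f x - c) := by
    intro x
    obtain ⟨y, hy⟩ := hc _ (mem_range_self x)
    refine ⟨y, ?_⟩
    rw [hy, two_smul]
    abel
  have h0 : ∀ z : EuclideanSpace ℝ (Fin N), z ≠ 0 → ∃ x, 0 < ⟪z, f x - c⟫_ℝ := by
    intro z hz
    by_contra h
    push Not at h
    obtain ⟨x, hx⟩ := hs z ⟪z, c⟫_ℝ hz
    apply hx
    have h1 := h x
    obtain ⟨y, hy⟩ := hsym x
    have h2 := h y
    rw [hy, inner_neg_right] at h2
    rw [inner_sub_right] at h1 h2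
    linarith
  have htop : ∀ z, top (fun x => f x - c) z = top f z := by
    intro z
    ext x
    simp only [top, mem_ofPred_eq, inner_sub_right, sub_le_sub_iff_right]
  haveI : Nonempty (SS k) := by
    have h1 : (Metric.sphere (0 : EuclideanSpace ℝ (Fin (k + 1))) 1).Nonempty :=
      NormedSpace.sphere_nonempty.2 zero_le_one
    exact h1.to_subtype
  refine sym_main hk (by omega) (f := fun x => f x - c) (hf.sub continuous_const) ?_ h0 hsym ?_
  · intro x y hxy
    exact hinj (sub_left_injective hxy)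
  · intro z hz n hn c' hc'
    rw [htop] at hc' ⊢
    obtain ⟨x₁, -, hx₁⟩ := isCompact_univ.exists_isMaxOn (univ_nonempty (α := SS k × SS k))
      ((continuous_const.inner hf : Continuous fun x => ⟪z, f x⟫_ℝ).continuousOn)
    have htop' : top f z = {x | ⟪z, f x₁⟫_ℝ ≤ ⟪z, f x⟫_ℝ} := by
      ext x
      constructor
      · intro h
        exact h x₁
      · intro h y
        exact (hx₁ (mem_univ y)).trans h
    rw [htop'] at hc' ⊢
    rcases ht with ht | ht
    · exact surj_of_sing_prod hk (fun x => ⟪z, f x⟫_ℝ) (continuous_const.inner hf) _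
        (fun t _ => ht z t hz) n c' hc'
    · exact surj_of_cech (isClosed_le continuous_const (continuous_const.inner hf)).isCompact
        (ht z _ hz) n hn c' hc'

end Pool.Agent.Helper775.Tight
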