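import Pool.Agent.Helper775.Tight.Top

/-! Alternating labels: an explicit equivariant cocycle resolution on spheres. -/

set_option autoImplicit false

namespace Pool.Agent.Helper775.Tight

open Set Topology SoftCx

/-- a list of labels is good if it contains no complementary pair. -/
def GoodL {n : ℕ} (l : List (Fin (n + 1) × Bool)) : Prop :=
  ∀ x ∈ l, ∀ y ∈ l, x.1 = y.1 → x = y

/-- alternating indicator. -/
def j12806alt : Bool → List Bool → ZMod 2
  | _, [] => 1
  | e, x :: l => if x = e then j12806alt (!e) l else 0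

theorem j12806_d_alt (l : List Bool) : ∀ e : Bool,
    d (j12806alt e) l = j12806alt e l + j12806alt (!e) l := by
  induction l with
  | nil =>
    intro e
    rw [d_nil]
    exact (add_self2 1).symm
  | cons x l ih =>
    intro e
    rw [d_cons]
    by_cases hx : x = e
    · subst hx
      have h1 : (fun l' => j12806alt x (x :: l')) = j12806alt (!x) := by
        funext l'
        exact if_pos rfl
      rw [h1, ih, Bool.not_not]
      have h2 : j12806alt x (x :: l) = j12806alt (!x) l := if_pos rfl
      have h3 : j12806alt (!x) (x :: l) = 0 := if_neg (by cases x <;> decide)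
      rw [h2, h3, add_zero, add_comm, add_assoc, add_self2, add_zero]
    · have hx' : x = !e := by
        cases x <;> cases e <;> simp_all
      subst hx'
      have h1 : (fun l' => j12806alt e ((!e) :: l')) = 0 := by
        funext l'
        exact if_neg hx
      have h2 : j12806alt e ((!e) :: l) = 0 := if_neg hx
      have h3 : j12806alt (!e) ((!e) :: l) = j12806alt (!(!e)) l := if_pos rfl
      rw [h1, d_zero, h2, h3, Bool.not_not, zero_add]
      exact add_zero _

theorem j12806_alt_not (l : List Bool) : ∀ e : Bool,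
    j12806alt e (l.map (fun b => !b)) = j12806alt (!e) l := by
  induction l with
  | nil => exact fun _ => rfl
  | cons x l ih =>
    intro e
    rw [List.map_cons]
    unfold j12806alt
    rw [ih, Bool.not_not]
    by_cases hx : x = !e
    · rw [if_pos hx, if_pos (by rw [hx, Bool.not_not])]
    · rw [if_neg hx, if_neg]
      intro h
      apply hx
      rw [← h, Bool.not_not]

theorem j12806_perm {Ω : Type*} {l l' : List Ω} (h : l.Perm l') :
    ∀ c : Ch Ω, (∀ a b : List Ω, a.Perm b → c a = c b) → d c l = d c l' := by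
  induction h with
  | nil => exact fun _ _ => rfl
  | cons x h ih =>
    intro c hc
    rw [d_cons, d_cons, hc _ _ h, ih _ fun a b hab => hc _ _ (hab.cons x)]
  | swap x y l =>
    intro c hc
    rw [d_cons, d_cons, d_cons, d_cons]
    have : (fun l' => c (y :: x :: l')) = (fun l' => c (x :: y :: l')) := by
      funext l'
      exact hc _ _ (List.Perm.swap x y l')
    change c (x :: l) + (c (y :: l) + d (fun l' => c (y :: x :: l')) l) =
      c (y :: l) + (c (x :: l) + d (fun l' => c (x :: y :: l')) l)
    rw [this]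
    ring
  | trans _ _ ih1 ih2 =>
    intro c hc
    rw [ih1 c hc, ih2 c hc]

theorem j12806_dup {Ω : Type*} (c : Ch Ω) (hc : ∀ a b : List Ω, a.Perm b → c a = c b)
    (hd : ∀ l, ¬ l.Nodup → c l = 0) (l : List Ω) (hl : ¬ l.Nodup) : d c l = 0 := by
  classical
  obtain ⟨x, hx⟩ := List.exists_duplicate_iff_not_nodup.2 hl
  have hsub : [x, x].Sublist l := List.duplicate_iff_sublist.1 hx
  obtain ⟨l', hl'⟩ := hsub.exists_perm_append
  have hp : l.Perm (x :: x :: l') := hl'
  rw [j12806_perm hp c hc, d_cons, d_cons]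
  have h0 : (fun l'' => c (x :: x :: l'')) = 0 := by
    funext l''
    apply hd
    intro h
    rw [List.nodup_cons] at h
    exact h.1 List.mem_cons_self
  change c (x :: l') + (c (x :: l') + d (fun l'' => c (x :: x :: l'')) l') = 0
  rw [h0, d_zero, ← add_assoc, add_self2, zero_add]
  rfl

theorem j12806_congr {Ω : Type*} (l : List Ω) : ∀ b c : Ch Ω,
    (∀ l', l'.Sublist l → b l' = c l') → d b l = d c l := by
  induction l with
  | nil =>
    intro b c _
    rw [d_nil, d_nil]
  | cons x l ih =>
    intro b c h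
    rw [d_cons, d_cons, h l (List.sublist_cons_self x l),
      ih _ _ fun l' hl' => h (x :: l') (hl'.cons_cons x)]

open Classical in
/-- the alternating cochain. -/
noncomputable def j12806C (n : ℕ) : Ch (Fin (n + 1) × Bool) := fun l =>
  if ∃ l' : List (Fin (n + 1) × Bool), l'.Perm l ∧ l'.Pairwise (fun x y => x.1 < y.1) ∧
    j12806alt true (l'.map Prod.snd) = 1 then 1 else 0

theorem j12806_C_perm (n : ℕ) (a b : List (Fin (n + 1) × Bool)) (h : a.Perm b) :
    j12806C n a = j12806C n b := by
  have : (∃ l' : List (Fin (n + 1) × Bool), l'.Perm a ∧ l'.Pairwise (fun x y => x.1 < y.1) ∧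
    j12806alt true (l'.map Prod.snd) = 1) ↔ (∃ l' : List (Fin (n + 1) × Bool), l'.Perm b ∧
    l'.Pairwise (fun x y => x.1 < y.1) ∧ j12806alt true (l'.map Prod.snd) = 1) := by
    constructor
    · rintro ⟨l', h1, h2⟩
      exact ⟨l', h1.trans h, h2⟩
    · rintro ⟨l', h1, h2⟩
      exact ⟨l', h1.trans h.symm, h2⟩
  classical
  exact if_congr this rfl rfl

theorem j12806_C_dup (n : ℕ) (l : List (Fin (n + 1) × Bool)) (h : ¬ l.Nodup) :
    j12806C n l = 0 := by
  apply if_neg
  rintro ⟨l', h1, h2, -⟩
  apply h
  rw [← h1.nodup_iff]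
  exact h2.imp fun {a b} hab hab' => by
    rw [hab'] at hab
    exact lt_irrefl _ hab

theorem j12806_C_sorted (n : ℕ) (l : List (Fin (n + 1) × Bool))
    (hl : l.Pairwise (fun x y => x.1 < y.1)) : j12806C n l = j12806alt true (l.map Prod.snd) := by
  have h01 : ∀ a : ZMod 2, a ≠ 1 → a = 0 := by decide
  have huniq : ∀ l' : List (Fin (n + 1) × Bool), l'.Perm l →
      l'.Pairwise (fun x y => x.1 < y.1) → l' = l := by
    intro l' h1 h2
    exact h1.eq_of_pairwise (fun a b _ _ hab hba => absurd hab (lt_asymm hba)) h2 hl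
  by_cases h : j12806alt true (l.map Prod.snd) = 1
  · rw [h]
    exact if_pos ⟨l, List.Perm.refl l, hl, h⟩
  · rw [h01 _ h]
    apply if_neg
    rintro ⟨l', h1, h2, h3⟩
    rw [huniq l' h1 h2] at h3
    exact h h3

/-- the combinatorial part. -/
theorem exists_comb (n : ℕ) : ∃ C : Ch (Fin (n + 1) × Bool),
    (∀ x, C [x] + C [(x.1, !x.2)] = 1) ∧
    (∀ l, GoodL l → 2 ≤ l.length → C l + C (l.map fun x => (x.1, !x.2)) = d C l) ∧
    (∀ l, GoodL l → n + 2 ≤ l.length → C l = 0) := by
  refine ⟨j12806C n, ?_, ?_, ?_⟩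
  · rintro ⟨i, b⟩
    rw [j12806_C_sorted n _ (List.pairwise_singleton _ _),
      j12806_C_sorted n _ (List.pairwise_singleton _ _)]
    cases b <;> simp [j12806alt]
  · intro l hl _
    by_cases hnd : l.Nodup
    · obtain ⟨s, hs1, hs2⟩ : ∃ s : List (Fin (n + 1) × Bool), s.Perm l ∧
          s.Pairwise (fun x y => x.1 < y.1) := by
        refine ⟨l.mergeSort (fun x y => decide (x.1 ≤ y.1)), List.mergeSort_perm _ _, ?_⟩
        have h1 : (l.mergeSort (fun x y => decide (x.1 ≤ y.1))).Pairwise
            (fun x y => decide (x.1 ≤ y.1) = true) := by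
          apply List.pairwise_mergeSort
          · intro a b c hab hbc
            rw [decide_eq_true_eq] at hab hbc ⊢
            exact hab.trans hbc
          · intro a b
            rcases le_total a.1 b.1 with h | h
            · simp [h]
            · simp [h]
        have h2 : (l.mergeSort (fun x y => decide (x.1 ≤ y.1))).Nodup :=
          (List.mergeSort_perm _ _).nodup_iff.2 hnd
        have h3 : ∀ x ∈ (l.mergeSort (fun x y => decide (x.1 ≤ y.1))), x ∈ l := fun x hx =>
          (List.mergeSort_perm _ _).subset hx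
        have h4 := List.Pairwise.and_mem.1 (h1.and h2)
        refine h4.imp ?_
        rintro a b ⟨ha, hb, hab, hne⟩
        rw [decide_eq_true_eq] at hab
        refine lt_of_le_of_ne hab fun he => hne ?_
        exact hl a (h3 a ha) b (h3 b hb) he
      have hC := j12806_C_perm n
      rw [← j12806_perm hs1 _ hC, ← hC _ _ hs1, ← hC _ _ (hs1.map _)]
      have hsf : (s.map fun x => (x.1, !x.2)).Pairwise (fun x y => x.1 < y.1) := by
        rw [List.pairwise_map]
        exact hs2
      rw [j12806_C_sorted n s hs2, j12806_C_sorted n _ hsf]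
      have h5 : d (j12806C n) s = d (pb Prod.snd (j12806alt true)) s := by
        apply j12806_congr
        intro l' hl'
        exact j12806_C_sorted n l' (hs2.sublist hl')
      rw [h5, d_pb]
      change _ = d (j12806alt true) (s.map Prod.snd)
      rw [j12806_d_alt]
      congr 1
      rw [List.map_map]
      have : (Prod.snd ∘ fun x : Fin (n + 1) × Bool => (x.1, !x.2)) =
          (fun b => !b) ∘ Prod.snd := by
        funext x
        rfl
      rw [this, ← List.map_map, j12806_alt_not]
    · have hnd' : ¬ (l.map fun x => (x.1, !x.2)).Nodup := by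
        intro h
        exact hnd (List.Nodup.of_map _ h)
      rw [j12806_C_dup n l hnd, j12806_C_dup n _ hnd',
        j12806_dup _ (j12806_C_perm n) (j12806_C_dup n) l hnd, add_zero]
  · intro l _ hlen
    apply if_neg
    rintro ⟨l', h1, h2, -⟩
    have h3 : (l'.map Prod.fst).Nodup := by
      unfold List.Nodup
      rw [List.pairwise_map]
      exact h2.imp fun h => h.ne
    have h4 := h3.length_le_card
    rw [List.length_map, h1.length_eq, Fintype.card_fin] at h4
    omega

/-- an index where `a` is maximal -/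
noncomputable def j12807_idx {n : ℕ} (a : Fin (n + 1) → ℝ) : Fin (n + 1) :=
  Classical.choose (Finite.exists_max a)

theorem j12807_idx_spec {n : ℕ} (a : Fin (n + 1) → ℝ) (j : Fin (n + 1)) :
    a j ≤ a (j12807_idx a) :=
  Classical.choose_spec (Finite.exists_max a) j

/-- the label of a point -/
noncomputable def j12807_lab {n : ℕ} (x : EuclideanSpace ℝ (Fin (n + 1))) : Fin (n + 1) × Bool :=
  (j12807_idx (fun j => |x j|), decide (0 < x (j12807_idx (fun j => |x j|))))

theorem j12807_lab_neg {n : ℕ} (x : EuclideanSpace ℝ (Fin (n + 1)))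
    (hx : x (j12807_idx (fun j => |x j|)) ≠ 0) :
    j12807_lab (-x) = ((j12807_lab x).1, !(j12807_lab x).2) := by
  have h1 : (fun j => |(-x) j|) = (fun j => |x j|) := by
    funext j
    rw [PiLp.neg_apply, abs_neg]
  unfold j12807_lab
  rw [h1]
  refine Prod.ext rfl ?_
  show decide (0 < (-x) (j12807_idx (fun j => |x j|))) =
    !decide (0 < x (j12807_idx (fun j => |x j|)))
  rw [PiLp.neg_apply]
  rcases lt_or_gt_of_ne hx with h | h
  · have h2 : 0 < - x (j12807_idx (fun j => |x j|)) := by linarith
    have h3 : ¬ 0 < x (j12807_idx (fun j => |x j|)) := by linarith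
    simp [h2, h3, h]
  · have h2 : ¬ 0 < - x (j12807_idx (fun j => |x j|)) := by linarith
    simp [h2, h]

theorem j12807_nhds {n : ℕ} (s : EuclideanSpace ℝ (Fin (n + 1))) (hs : ‖s‖ = 1) :
    ∃ W ∈ 𝓝 s, (∀ x ∈ W, x (j12807_idx (fun j => |x j|)) ≠ 0) ∧
      ∀ x ∈ W, ∀ y ∈ W, (j12807_lab x).1 = (j12807_lab y).1 → j12807_lab x = j12807_lab y := by
  set j0 := j12807_idx (fun j => |s j|) with hj0
  have hδ : 0 < |s j0| := by
    rcases (abs_nonneg (s j0)).lt_or_eq with h | h
    · exact h
    · exfalso
      have h1 : s = 0 := by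
        ext j
        have h2 := j12807_idx_spec (fun j => |s j|) j
        have h3 : |s j| ≤ |s j0| := h2
        rw [← h] at h3
        have h4 : |s j| = 0 := le_antisymm h3 (abs_nonneg _)
        simpa using h4
      rw [h1, norm_zero] at hs
      exact zero_ne_one hs
  set δ := |s j0| with hδ'
  have hbig : ∀ x : EuclideanSpace ℝ (Fin (n + 1)), (∀ j, |x j - s j| < δ / 4) →
      3 * δ / 4 < |x (j12807_idx (fun j => |x j|))| := by
    intro x hx
    have h1 : |x j0| ≤ |x (j12807_idx (fun j => |x j|))| := j12807_idx_spec (fun j => |x j|) j0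
    have h2 : |s j0| ≤ |x j0| + |x j0 - s j0| := by
      have := abs_sub_abs_le_abs_sub (s j0) (x j0)
      rw [abs_sub_comm] at this
      linarith
    have h3 := hx j0
    linarith
  refine ⟨{x | ∀ j, |x j - s j| < δ / 4}, ?_, ?_, ?_⟩
  · refine Filter.eventually_all.2 fun j => ?_
    have hc : Continuous (fun x : EuclideanSpace ℝ (Fin (n + 1)) => |x j - s j|) := by fun_prop
    refine hc.continuousAt.eventually_lt continuousAt_const ?_
    simp only [sub_self, abs_zero]
    positivity
  · intro x hx h0
    have := hbig x hx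
    rw [h0, abs_zero] at this
    linarith
  · intro x hx y hy hxy
    have h1 := hbig x hx
    have h2 := hbig y hy
    have hxy' : j12807_idx (fun j => |x j|) = j12807_idx (fun j => |y j|) := hxy
    refine Prod.ext hxy ?_
    show decide (0 < x (j12807_idx (fun j => |x j|))) = decide (0 < y (j12807_idx (fun j => |y j|)))
    rw [hxy'] at h1 ⊢
    set i := j12807_idx (fun j => |y j|)
    have h3 := hx i
    have h4 := hy i
    have h5 := abs_lt.1 h3
    have h6 := abs_lt.1 h4
    rcases lt_abs.1 h1 with h7 | h7 <;> rcases lt_abs.1 h2 with h8 | h8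
    · have a1 : 0 < x i := by linarith
      have a2 : 0 < y i := by linarith
      simp [a1, a2]
    · exfalso; linarith
    · exfalso; linarith
    · have a1 : ¬ 0 < x i := by linarith
      have a2 : ¬ 0 < y i := by linarith
      simp [a1, a2]

theorem exists_label (n : ℕ) : ∃ c : Ch (EuclideanSpace ℝ (Fin (n + 1))),
    ∀ s : EuclideanSpace ℝ (Fin (n + 1)), ‖s‖ = 1 →
      c + pb Neg.neg c - one ∈ Nz s 1 ∧
      (∀ m, 2 ≤ m → c + pb Neg.neg c - dd c ∈ Nz s m) ∧
      dd c ∈ Nz s (n + 2) := by
  obtain ⟨C, h1, h2, h3⟩ := exists_comb n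
  refine ⟨pb j12807_lab C, fun s hs => ?_⟩
  obtain ⟨W, hW, hW0, hW1⟩ := j12807_nhds s hs
  have hgood : ∀ l : List (EuclideanSpace ℝ (Fin (n + 1))), (∀ x ∈ l, x ∈ W) →
      GoodL (l.map j12807_lab) := by
    intro l hl x hx y hy hxy
    obtain ⟨x', hx', rfl⟩ := List.mem_map.1 hx
    obtain ⟨y', hy', rfl⟩ := List.mem_map.1 hy
    exact hW1 x' (hl x' hx') y' (hl y' hy') hxy
  have hneg : ∀ l : List (EuclideanSpace ℝ (Fin (n + 1))), (∀ x ∈ l, x ∈ W) →
      (l.map Neg.neg).map j12807_lab = (l.map j12807_lab).map fun x => (x.1, !x.2) := by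
    intro l hl
    rw [List.map_map, List.map_map]
    refine List.map_congr_left fun x hx => ?_
    exact j12807_lab_neg x (hW0 x (hl x hx))
  have hdd : ∀ l : List (EuclideanSpace ℝ (Fin (n + 1))), 2 ≤ l.length →
      dd (pb j12807_lab C) l = d C (l.map j12807_lab) := by
    intro l hl
    rw [dd_apply hl, d_pb]
    rfl
  have hflip : ∀ l : List (Fin (n + 1) × Bool), GoodL l → GoodL (l.map fun x => (x.1, !x.2)) := by
    intro l hl x hx y hy hxy
    obtain ⟨x', hx', rfl⟩ := List.mem_map.1 hx
    obtain ⟨y', hy', rfl⟩ := List.mem_map.1 hy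
    rw [hl x' hx' y' hy' hxy]
  refine ⟨?_, ?_, ?_⟩
  · refine mem_Nz_of hW fun l hl hlW => ?_
    obtain ⟨x, rfl⟩ := List.length_eq_one_iff.1 hl
    show C ([x].map j12807_lab) + C (([x].map Neg.neg).map j12807_lab) - 1 = 0
    rw [hneg _ hlW]
    show C [j12807_lab x] + C [((j12807_lab x).1, !(j12807_lab x).2)] - 1 = 0
    rw [h1, sub_self]
  · intro m hm
    refine mem_Nz_of hW fun l hl hlW => ?_
    show C (l.map j12807_lab) + C ((l.map Neg.neg).map j12807_lab) - dd (pb j12807_lab C) l = 0
    rw [hneg _ hlW, hdd l (by omega), h2 _ (hgood l hlW) (by rw [List.length_map]; omega), sub_self]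
  · refine mem_Nz_of hW fun l hl hlW => ?_
    rw [hdd l (by omega), ← h2 _ (hgood l hlW) (by rw [List.length_map]; omega),
      h3 _ (hgood l hlW) (by rw [List.length_map]; omega),
      h3 _ (hflip _ (hgood l hlW)) (by rw [List.length_map, List.length_map]; omega), add_zero]

end Pool.Agent.Helper775.Tight
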