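import Pool.Agent.Helper775.Sym.Abs
import Pool.Agent.Helper775.Sym.Label
import Pool.Agent.Helper775.Tight.Final

/-! The geometric part: products of spheres. -/

set_option autoImplicit false

namespace Pool.Agent.Helper775.Tight

open Set Topology SoftCx
open scoped InnerProductSpace

/-- the sphere `S^k`. -/
abbrev SS (k : ℕ) : Type := Metric.sphere (0 : EuclideanSpace ℝ (Fin (k + 1))) 1

theorem j12808_sp_type (k : ℕ) (hk : 1 ≤ k) : ∃ c : Ch (EuclideanSpace ℝ (Fin (k + 1))),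
    (AS _).Coc (Sp (k + 1) (k + 1)) (k + 1) c ∧
      (AS (EuclideanSpace ℝ (Fin (k + 1)))).AType one k c (Sp (k + 1) (k + 1)) := by
  obtain ⟨c, hc, hc'⟩ := sp_top (M := k + 1) (k := k + 1) (by omega) le_rfl
  refine ⟨c, hc, not_one_mem (xa_sp_nonempty (by omega) le_rfl), ?_, ?_, ?_, hc'⟩
  · intro b hb
    exact sp_connected (by omega) le_rfl b hb
  · intro n hn hnk
    exact sp_ex (by omega) le_rfl n hn hnk
  · intro b hb
    rcases sp_rank (by omega) le_rfl b c hb hc with h | h | h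
    · exact Or.inl h
    · exact absurd h hc'
    · exact Or.inr h

/-- the generator of the cohomology of the sphere. -/
theorem sphere_type (k : ℕ) (hk : 1 ≤ k) : ∃ θ : Ch (SS k),
    (AS (SS k)).Coc univ (k + 1) θ ∧ (AS (SS k)).AType one k θ univ ∧
      (AS (SS k)).Cob univ (k + 1) (pb Neg.neg θ - θ) := by
  obtain ⟨c, hc, hct⟩ := j12808_sp_type k hk
  have hne : (Sp (k + 1) (k + 1)).Nonempty := xa_sp_nonempty (by omega) le_rfl
  obtain ⟨ρ, hρ, hρ1, hρ2⟩ := exists_retraction (Sp_compact (k + 1) (k + 1)) hne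
  have hsp : Sp (k + 1) (k + 1) = Metric.sphere (0 : EuclideanSpace ℝ (Fin (k + 1))) 1 :=
    sp_eq_sphere (k + 1)
  have hval : ∀ x ∈ (univ : Set (SS k)),
      ContinuousAt (Subtype.val : SS k → EuclideanSpace ℝ (Fin (k + 1))) x :=
    fun x _ => continuous_subtype_val.continuousAt
  have hmap : MapsTo (Subtype.val : SS k → EuclideanSpace ℝ (Fin (k + 1))) univ
      (Sp (k + 1) (k + 1)) := by
    intro x _
    rw [hsp]
    exact x.2
  let g' : EuclideanSpace ℝ (Fin (k + 1)) → SS k := fun x => ⟨ρ x, by rw [← hsp]; exact hρ x⟩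
  have hg' : ∀ y ∈ Sp (k + 1) (k + 1), ContinuousAt g' y := by
    intro y hy
    rw [Topology.IsInducing.subtypeVal.continuousAt_iff]
    exact hρ2 y hy
  have hneuniv : (univ : Set (SS k)).Nonempty := by
    obtain ⟨x, _⟩ := hne
    exact ⟨g' x, mem_univ _⟩
  have hθ : (AS (SS k)).Coc univ (k + 1) (pb Subtype.val c) := coc_pb hval hmap hc
  have hT : (AS (SS k)).AType one k (pb Subtype.val c) univ :=
    atype_transfer hval hg' hmap (fun _ _ => mem_univ _)
      (fun x _ => Subtype.ext (hρ1 _ (by rw [hsp]; exact x.2)))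
      (fun y hy => hρ1 y hy) hneuniv hc hct
  have hnegc : ∀ x ∈ (univ : Set (SS k)), ContinuousAt (Neg.neg : SS k → SS k) x :=
    fun x _ => continuous_neg.continuousAt
  refine ⟨pb Subtype.val c, hθ, hT, ?_⟩
  have h1 : (AS (SS k)).Coc univ (k + 1) (pb Neg.neg (pb Subtype.val c)) :=
    coc_pb hnegc (mapsTo_univ _ _) hθ
  obtain ⟨-, -, -, h4, h5⟩ := hT
  rcases h4 _ h1 with h | h
  · exfalso
    apply h5
    have h2 : (AS (SS k)).Cob univ (k + 1) (pb Neg.neg (pb Neg.neg (pb Subtype.val c))) :=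
      cob_pb hnegc (mapsTo_univ _ _) h
    have e : pb Neg.neg (pb Neg.neg (pb (Subtype.val : SS k → EuclideanSpace ℝ (Fin (k + 1))) c))
        = pb Subtype.val c := by
      funext l
      unfold pb
      rw [List.map_map, List.map_map]
      congr 1
      apply List.map_congr_left
      intro x _
      simp
    rwa [e] at h2
  · exact h

/-- normalisation map to the sphere -/
noncomputable def j12809_nrm {k : ℕ} (b : SS k) (y : EuclideanSpace ℝ (Fin (k + 1))) : SS k := by
  classical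
  exact if h : y = 0 then b else ⟨‖y‖⁻¹ • y, by
    rw [mem_sphere_zero_iff_norm, norm_smul, norm_inv, norm_norm, inv_mul_cancel₀ (norm_ne_zero_iff.2 h)]⟩

theorem j12809_nrm_ne {k : ℕ} (b : SS k) {y : EuclideanSpace ℝ (Fin (k + 1))} (h : y ≠ 0) :
    (j12809_nrm b y : EuclideanSpace ℝ (Fin (k + 1))) = ‖y‖⁻¹ • y := by
  unfold j12809_nrm
  rw [dif_neg h]

theorem j12809_cont {k : ℕ} (b : SS k) {y : EuclideanSpace ℝ (Fin (k + 1))} (h : y ≠ 0) :
    ContinuousAt (j12809_nrm b) y := by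
  rw [Topology.IsInducing.subtypeVal.continuousAt_iff]
  have h1 : ContinuousAt (fun y : EuclideanSpace ℝ (Fin (k + 1)) => ‖y‖⁻¹ • y) y :=
    (continuous_norm.continuousAt.inv₀ (norm_ne_zero_iff.2 h)).smul continuousAt_id
  refine h1.congr ?_
  filter_upwards [isOpen_ne.mem_nhds h] with z hz
  exact (j12809_nrm_ne b hz).symm

theorem j12809_unit {k : ℕ} (b p : SS k) : j12809_nrm b (p : EuclideanSpace ℝ (Fin (k + 1))) = p := by
  have hp : ‖(p : EuclideanSpace ℝ (Fin (k + 1)))‖ = 1 := mem_sphere_zero_iff_norm.1 p.2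
  have h0 : (p : EuclideanSpace ℝ (Fin (k + 1))) ≠ 0 := by
    intro h; rw [h, norm_zero] at hp; exact zero_ne_one hp
  apply Subtype.ext
  rw [j12809_nrm_ne b h0, hp, inv_one, one_smul]

/-- two maps to the sphere without coincidences have the same class. -/
theorem offdiag {k : ℕ} {θ : Ch (SS k)} (hθ : (AS (SS k)).Coc univ (k + 1) θ)
    (hneg : (AS (SS k)).Cob univ (k + 1) (pb Neg.neg θ - θ)) {Ω : Type*} [MetricSpace Ω]
    {F : Set Ω} (hF : IsCompact F) {u v : Ω → SS k} (hu : Continuous u) (hv : Continuous v)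
    (huv : ∀ x ∈ F, u x ≠ v x) : (AS Ω).Cob F (k + 1) (pb u θ - pb v θ) := by
  have b : SS k := ⟨EuclideanSpace.single 0 1, by simp⟩
  have hn : ∀ p : SS k, ‖(p : EuclideanSpace ℝ (Fin (k + 1)))‖ = 1 :=
    fun p => mem_sphere_zero_iff_norm.1 p.2
  have hne : ∀ t ∈ Icc (0 : ℝ) 1, ∀ x ∈ F,
      (1 - t) • (v x : EuclideanSpace ℝ (Fin (k + 1))) - t • (u x : EuclideanSpace ℝ (Fin (k + 1))) ≠ 0 := by
    intro t ht x hx h
    have h1 : (1 - t) • (v x : EuclideanSpace ℝ (Fin (k + 1))) =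
        t • (u x : EuclideanSpace ℝ (Fin (k + 1))) := sub_eq_zero.1 h
    have h2 : 1 - t = t := by
      have := congrArg norm h1
      rw [norm_smul, norm_smul, hn, hn, mul_one, mul_one, Real.norm_eq_abs, Real.norm_eq_abs,
        abs_of_nonneg (by linarith [ht.2]), abs_of_nonneg ht.1] at this
      exact this
    have h3 : t ≠ 0 := by
      intro h0; rw [h0] at h2; norm_num at h2
    rw [h2] at h1
    have h4 := smul_right_injective _ h3 h1
    exact huv x hx (Subtype.ext h4.symm)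
  have hc : (AS Ω).Cob F (k + 1)
      (pb (fun x => j12809_nrm b ((1 - (0 : ℝ)) • (v x : EuclideanSpace ℝ (Fin (k + 1))) -
        (0 : ℝ) • (u x : EuclideanSpace ℝ (Fin (k + 1))))) θ -
       pb (fun x => j12809_nrm b ((1 - (1 : ℝ)) • (v x : EuclideanSpace ℝ (Fin (k + 1))) -
        (1 : ℝ) • (u x : EuclideanSpace ℝ (Fin (k + 1))))) θ) := by
    refine cob_pb_homotopy hF (fun t x => j12809_nrm b
      ((1 - t) • (v x : EuclideanSpace ℝ (Fin (k + 1))) -
        t • (u x : EuclideanSpace ℝ (Fin (k + 1))))) ?_ (F' := univ) (fun _ _ _ _ => mem_univ _) hθ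
    intro t ht x hx
    have h5 : Continuous (fun p : ℝ × Ω => (1 - p.1) • (v p.2 : EuclideanSpace ℝ (Fin (k + 1))) -
        p.1 • (u p.2 : EuclideanSpace ℝ (Fin (k + 1)))) := by
      have hu' : Continuous fun p : ℝ × Ω => (u p.2 : EuclideanSpace ℝ (Fin (k + 1))) :=
        continuous_subtype_val.comp (hu.comp continuous_snd)
      have hv' : Continuous fun p : ℝ × Ω => (v p.2 : EuclideanSpace ℝ (Fin (k + 1))) :=
        continuous_subtype_val.comp (hv.comp continuous_snd)
      exact ((continuous_const.sub continuous_fst).smul hv').sub (continuous_fst.smul hu')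
    exact ContinuousAt.comp (f := fun p : ℝ × Ω => (1 - p.1) • (v p.2 : EuclideanSpace ℝ (Fin (k + 1))) -
        p.1 • (u p.2 : EuclideanSpace ℝ (Fin (k + 1)))) (x := (t, x))
      (j12809_cont b (hne t ht x hx)) h5.continuousAt
  have e0 : (fun x => j12809_nrm b ((1 - (0 : ℝ)) • (v x : EuclideanSpace ℝ (Fin (k + 1))) -
        (0 : ℝ) • (u x : EuclideanSpace ℝ (Fin (k + 1))))) = v := by
    funext x
    rw [sub_zero, one_smul, zero_smul, sub_zero, j12809_unit]
  have e1 : (fun x => j12809_nrm b ((1 - (1 : ℝ)) • (v x : EuclideanSpace ℝ (Fin (k + 1))) -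
        (1 : ℝ) • (u x : EuclideanSpace ℝ (Fin (k + 1))))) = fun x => - u x := by
    funext x
    rw [sub_self, zero_smul, one_smul, zero_sub]
    exact j12809_unit b (- u x)
  rw [e0, e1] at hc
  have h6 : pb (fun x => - u x) θ = pb u (pb Neg.neg θ) := by
    funext l
    show θ (l.map fun x => - u x) = θ ((l.map u).map Neg.neg)
    rw [List.map_map]; rfl
  have h7 : (AS Ω).Cob F (k + 1) (pb u (pb Neg.neg θ - θ)) :=
    cob_pb (fun x _ => hu.continuousAt) (fun x _ => mem_univ _) hneg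
  have h8 : pb u (pb Neg.neg θ - θ) = pb u (pb Neg.neg θ) - pb u θ := rfl
  rw [h8] at h7
  rw [h6] at hc
  have h9 := Cob.sub (Cob.neg hc) h7
  have h10 : -(pb v θ - pb u (pb Neg.neg θ)) - (pb u (pb Neg.neg θ) - pb u θ) = pb u θ - pb v θ := by
    abel
  rw [h10] at h9
  exact h9

theorem j12810_coc {k : ℕ} {θ : Ch (SS k)} (hθ : (AS (SS k)).Coc univ (k + 1) θ) :
    (AS (SS k × SS k)).Coc univ (k + 1) (pb Prod.fst θ) :=
  coc_pb (fun _ _ => continuous_fst.continuousAt) (fun _ _ => mem_univ _) hθ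

theorem j12810_fib {k : ℕ} {θ : Ch (SS k)} (hθ : (AS (SS k)).Coc univ (k + 1) θ)
    (ht : (AS (SS k)).AType one k θ univ) (w : SS k) :
    (AS (SS k × SS k)).AType one k (pb Prod.fst θ) (univ ∩ Prod.snd ⁻¹' {w}) := by
  refine atype_transfer (F := univ ∩ Prod.snd ⁻¹' {w}) (F' := univ) (g := Prod.fst)
    (g' := fun x => (x, w)) (fun _ _ => continuous_fst.continuousAt)
    (fun _ _ => (by fun_prop : Continuous fun x : SS k => (x, w)).continuousAt)
    (fun _ _ => mem_univ _) (fun _ _ => ⟨mem_univ _, rfl⟩) ?_ (fun _ _ => rfl)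
    ⟨(w, w), mem_univ _, rfl⟩ hθ ht
  rintro ⟨x1, x2⟩ ⟨-, hx⟩
  have hx' : x2 = w := hx
  show (x1, w) = (x1, x2)
  rw [hx']

theorem j12810_cl {k : ℕ} (hk : 1 ≤ k) {θ : Ch (SS k)} (hθ : (AS (SS k)).Coc univ (k + 1) θ)
    (ht : (AS (SS k)).AType one k θ univ) (n : ℕ) :
    (cone ((phi Prod.snd continuous_snd (univ : Set (SS k × SS k)) isCompact_univ).sum
      (lam Prod.snd continuous_snd (univ : Set (SS k × SS k)) isCompact_univ k
        (pb Prod.fst θ) (j12810_coc hθ)))).Ex univ n :=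
  coneL_ex continuous_snd isCompact_univ hk (j12810_coc hθ) isCompact_univ
    (fun w _ => j12810_fib hθ ht w) n

theorem j12810_pcob {k : ℕ} {n : ℕ} {c : Ch (SS k × SS k)}
    (h : (PF Prod.snd continuous_snd (univ : Set (SS k × SS k)) isCompact_univ).Cob univ n c) :
    (AS (SS k × SS k)).Cob univ n c :=
  ((push_cob _ _ _ _ _ _ _ _).1 h).mono (fun _ _ => ⟨mem_univ _, mem_univ _⟩)

theorem j12810_dec {k : ℕ} (hk : 1 ≤ k) {θ : Ch (SS k)} (hθ : (AS (SS k)).Coc univ (k + 1) θ)
    (ht : (AS (SS k)).AType one k θ univ) (n : ℕ) (c : Ch (SS k × SS k))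
    (hc : (AS (SS k × SS k)).Coc univ n c) :
    ∃ e b : Ch (SS k), (AS (SS k)).Coc univ n e ∧ (AS (SS k)).Coc univ (n - k) b ∧
      (AS (SS k × SS k)).Cob univ n (c - (pb Prod.snd e +
        (lam Prod.snd continuous_snd (univ : Set (SS k × SS k)) isCompact_univ k
          (pb Prod.fst θ) (j12810_coc hθ)).f b)) := by
  obtain ⟨e, b, f, he, hb, h⟩ := decomp
    (phi Prod.snd continuous_snd (univ : Set (SS k × SS k)) isCompact_univ)
    (lam Prod.snd continuous_snd (univ : Set (SS k × SS k)) isCompact_univ k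
      (pb Prod.fst θ) (j12810_coc hθ)) (j12810_cl hk hθ ht (n + 1)) (y := c)
    ((push_coc _ _ _ _ _ _ _ _).2 (hc.mono (fun _ _ => mem_univ _)))
  refine ⟨e, b, he, hb, j12810_pcob ⟨-f, fun z hz => ?_⟩⟩
  have h1 := h z hz
  rw [map_neg]
  have e1 : c - (pb Prod.snd e + (lam Prod.snd continuous_snd (univ : Set (SS k × SS k))
      isCompact_univ k (pb Prod.fst θ) (j12810_coc hθ)).f b) -
      -(PF Prod.snd continuous_snd (univ : Set (SS k × SS k)) isCompact_univ).D f =
      c - ((phi Prod.snd continuous_snd (univ : Set (SS k × SS k)) isCompact_univ).f e +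
        (lam Prod.snd continuous_snd (univ : Set (SS k × SS k)) isCompact_univ k
          (pb Prod.fst θ) (j12810_coc hθ)).f b -
        (PF Prod.snd continuous_snd (univ : Set (SS k × SS k)) isCompact_univ).D f) := by
    rw [phi_f]
    abel
  rw [e1]
  exact h1

/-- cohomology of the product of two spheres, outside the middle dimension. -/
theorem prod_ex {k : ℕ} (hk : 1 ≤ k) {θ : Ch (SS k)} (hθ : (AS (SS k)).Coc univ (k + 1) θ)
    (ht : (AS (SS k)).AType one k θ univ) (n : ℕ) (hn : 2 ≤ n) (hn' : n ≤ 2 * k)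
    (hnk : n ≠ k + 1) : (AS (SS k × SS k)).Ex univ n := by
  intro c hc
  obtain ⟨e, b, he, hb, h⟩ := j12810_dec hk hθ ht n c hc
  have h1 : (AS (SS k × SS k)).Cob univ n (pb Prod.snd e) :=
    cob_pb (fun _ _ => continuous_snd.continuousAt) (fun _ _ => mem_univ _)
      (ht.2.2.1 n hn hnk e he)
  have h2 : (AS (SS k × SS k)).Cob univ n
      ((lam Prod.snd continuous_snd (univ : Set (SS k × SS k)) isCompact_univ k
          (pb Prod.fst θ) (j12810_coc hθ)).f b) := by
    have hbc : (AS (SS k)).Cob univ (n - k) b := by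
      rcases Nat.lt_or_ge k n with h3 | h3
      · exact ht.2.2.1 (n - k) (by omega) (by omega) b hb
      · have e0 : n - k = 0 := by omega
        rw [e0]
        exact cob_index_zero _ _
    exact j12810_pcob (Mor.cob (lam Prod.snd continuous_snd (univ : Set (SS k × SS k))
      isCompact_univ k (pb Prod.fst θ) (j12810_coc hθ)) hbc)
  have h3 := h.add (h1.add h2)
  rwa [sub_add_cancel] at h3

/-- cohomology of the product of two spheres in the middle dimension. -/
theorem prod_mid {k : ℕ} (hk : 1 ≤ k) {θ : Ch (SS k)} (hθ : (AS (SS k)).Coc univ (k + 1) θ)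
    (ht : (AS (SS k)).AType one k θ univ) (c : Ch (SS k × SS k))
    (hc : (AS (SS k × SS k)).Coc univ (k + 1) c) :
    (AS (SS k × SS k)).Cob univ (k + 1) c ∨
    (AS (SS k × SS k)).Cob univ (k + 1) (c - pb Prod.fst θ) ∨
    (AS (SS k × SS k)).Cob univ (k + 1) (c - pb Prod.snd θ) ∨
    (AS (SS k × SS k)).Cob univ (k + 1) (c - (pb Prod.fst θ + pb Prod.snd θ)) := by
  obtain ⟨e, b, he, hb, h⟩ := j12810_dec hk hθ ht (k + 1) c hc
  obtain ⟨L, hL⟩ : ∃ L, L = (lam Prod.snd continuous_snd (univ : Set (SS k × SS k))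
    isCompact_univ k (pb Prod.fst θ) (j12810_coc hθ)) := ⟨_, rfl⟩
  rw [← hL] at h
  have hshift : ∀ z (x : Ch (SS k)), x ∈ (AS (SS k)).N z 1 →
      x ∈ ((AS (SS k)).shift k).N z (k + 1) := by
    intro z x hx
    show x ∈ (AS (SS k)).N z (k + 1 - k)
    rw [Nat.add_sub_cancel_left]
    exact hx
  have hE : (AS (SS k × SS k)).Cob univ (k + 1) (pb Prod.snd e) ∨
      (AS (SS k × SS k)).Cob univ (k + 1) (pb Prod.snd e - pb Prod.snd θ) := by
    rcases ht.2.2.2.1 e he with h1 | h1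
    · exact Or.inl (cob_pb (fun _ _ => continuous_snd.continuousAt) (fun _ _ => mem_univ _) h1)
    · right
      exact cob_pb (g := Prod.snd) (F := univ) (F' := univ)
        (fun _ _ => continuous_snd.continuousAt) (fun _ _ => mem_univ _) h1
  have hB : (AS (SS k × SS k)).Cob univ (k + 1) (L.f b) ∨
      (AS (SS k × SS k)).Cob univ (k + 1) (L.f b - pb Prod.fst θ) := by
    have hb' : (AS (SS k)).Coc univ 1 b := by
      have := hb
      rwa [Nat.add_sub_cancel_left] at this
    rcases ht.2.1 b hb' with h1 | h1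
    · left
      exact j12810_pcob (Cob.of_mem fun z hz => L.mem z (k + 1) b (hshift z b (h1 z hz)))
    · right
      refine j12810_pcob (Cob.of_mem fun z hz => ?_)
      have h2 := L.mem z (k + 1) (b - one) (hshift z _ (h1 z hz))
      have h3 := lam_one_mem Prod.snd continuous_snd (univ : Set (SS k × SS k))
        isCompact_univ k (pb Prod.fst θ) (j12810_coc hθ) z
      rw [← hL] at h3
      have h4 := add_mem h2 h3
      rw [map_sub] at h4
      have e4 : L.f b - L.f one + (L.f one - pb Prod.fst θ) = L.f b - pb Prod.fst θ := by abel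
      rwa [e4] at h4
  rcases hE with hE | hE
  · rcases hB with hB | hB
    · left
      have h5 := h.add (hE.add hB)
      rwa [sub_add_cancel] at h5
    · right; left
      have h5 := h.add (hE.add hB)
      have e5 : c - (pb Prod.snd e + L.f b) + (pb Prod.snd e + (L.f b - pb Prod.fst θ)) =
          c - pb Prod.fst θ := by abel
      rwa [e5] at h5
  · rcases hB with hB | hB
    · right; right; left
      have h5 := h.add (hE.add hB)
      have e5 : c - (pb Prod.snd e + L.f b) + (pb Prod.snd e - pb Prod.snd θ + L.f b) =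
          c - pb Prod.snd θ := by abel
      rwa [e5] at h5
    · right; right; right
      have h5 := h.add (hE.add hB)
      have e5 : c - (pb Prod.snd e + L.f b) +
          (pb Prod.snd e - pb Prod.snd θ + (L.f b - pb Prod.fst θ)) =
          c - (pb Prod.fst θ + pb Prod.snd θ) := by abel
      rwa [e5] at h5

/-- the cone of the sum of three morphisms: fibres with two classes `a, a'` in degree `d`. -/
theorem cone2_ex {Y K K' : Type*} [TopologicalSpace Y] [AddCommGroup K] [AddCommGroup K']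
    {M : SoftCx Y K} {F : SoftCx Y K'} {d : ℕ} (hd : 1 ≤ d) (φ : Mor M F)
    (lam lam' : Mor (M.shift d) F) (one : K) (a a' : K') (w : Y) (hone : M.D one ∈ M.N w 2)
    (hla : lam.f one - a ∈ F.N w (d + 1)) (hla' : lam'.f one - a' ∈ F.N w (d + 1))
    (hM : M.Acy one {w}) (hF0 : φ.f one ∉ F.N w 1)
    (hF1 : ∀ k, F.Coc {w} 1 k → k ∈ F.N w 1 ∨ k - φ.f one ∈ F.N w 1)
    (hF2 : ∀ n, 2 ≤ n → n ≠ d + 1 → F.Ex {w} n)
    (hF3 : ∀ k, F.Coc {w} (d + 1) k → F.Cob {w} (d + 1) k ∨ F.Cob {w} (d + 1) (k - a) ∨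
      F.Cob {w} (d + 1) (k - a') ∨ F.Cob {w} (d + 1) (k - (a + a')))
    (hF4 : ¬ F.Cob {w} (d + 1) a) (hF5 : ¬ F.Cob {w} (d + 1) a')
    (hF6 : ¬ F.Cob {w} (d + 1) (a + a')) (n : ℕ) :
    (cone (φ.sum (lam.sum lam'))).Ex {w} n := by
  obtain ⟨-, hM1, hM2⟩ := hM
  simp only [mem_singleton_iff, forall_eq] at hM1
  rintro ⟨⟨e, ⟨b, c⟩⟩, f⟩ hk
  have hk' := hk w rfl
  rw [cone_D, cone_N] at hk'
  obtain ⟨⟨he, ⟨hb, hc⟩⟩, hf⟩ := hk'
  change M.D e ∈ M.N w (n + 1) at he
  change M.D b ∈ M.N w (n + 1 - d) at hb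
  change M.D c ∈ M.N w (n + 1 - d) at hc
  change φ.f e + (lam.f b + lam'.f c) - F.D f ∈ F.N w n at hf
  rcases Nat.eq_zero_or_pos n with rfl | hn0
  · exact cob_index_zero _ _
  rcases Nat.lt_or_ge n 2 with hn | hn
  · obtain rfl : n = 1 := by omega
    have h10 : 1 - d = 0 := by omega
    have hlb : lam.f b ∈ F.N w 1 := by
      refine lam.mem w 1 b ?_
      change b ∈ M.N w (1 - d)
      rw [h10]; exact M.N_zero _ _
    have hlc : lam'.f c ∈ F.N w 1 := by
      refine lam'.mem w 1 c ?_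
      change c ∈ M.N w (1 - d)
      rw [h10]; exact M.N_zero _ _
    have h1 := hM1 e (by intro z hz; rw [mem_singleton_iff.1 hz]; exact he)
    rcases h1 with h1 | h1
    · exact Cob.of_mem fun z hz => by
        rw [mem_singleton_iff.1 hz]
        refine ⟨⟨h1, ?_, ?_⟩, F.N_zero _ _⟩
        · change b ∈ M.N w (1 - d)
          rw [h10]; exact M.N_zero _ _
        · change c ∈ M.N w (1 - d)
          rw [h10]; exact M.N_zero _ _
    · exfalso
      apply hF0
      have h2 := φ.mem w 1 _ h1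
      have h3 := F.D_mem w 0 f (F.N_zero w f)
      have h4 := sub_mem (sub_mem (add_mem hf h3) hlb) hlc
      rw [map_sub] at h2
      have h5 := sub_mem h4 h2
      have e1 : φ.f e + (lam.f b + lam'.f c) - F.D f + F.D f - lam.f b - lam'.f c - (φ.f e - φ.f one) =
        φ.f one := by abel
      rw [e1] at h5
      exact h5
  · obtain ⟨e', he'⟩ := hM2 n hn e (by intro z hz; rw [mem_singleton_iff.1 hz]; exact he)
    have he'' := he' w rfl
    have hφe := φ.mem w n _ he''
    rw [map_sub] at hφe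
    have hφc := φ.comm w n e'
    -- find b' and c'
    have hbc : (∃ b', b - M.D b' ∈ M.N w (n - d)) ∧ ∃ c', c - M.D c' ∈ M.N w (n - d) := by
      rcases lt_trichotomy n (d + 1) with h | h | h
      · have : n - d = 0 := by omega
        rw [this]
        exact ⟨⟨0, M.N_zero _ _⟩, ⟨0, M.N_zero _ _⟩⟩
      · have e1 : n + 1 - d = 1 + 1 := by omega
        have e2 : n - d = 1 := by omega
        rw [e1] at hb hc
        rw [e2]
        have lm : ∀ u v : K, u - v ∈ M.N w 1 → lam.f u - lam.f v ∈ F.N w n := by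
          intro u v huv
          have h2 := lam.mem w n (u - v) (by
            change u - v ∈ M.N w (n - d)
            rw [e2]; exact huv)
          rwa [map_sub] at h2
        have lm' : ∀ u v : K, u - v ∈ M.N w 1 → lam'.f u - lam'.f v ∈ F.N w n := by
          intro u v huv
          have h2 := lam'.mem w n (u - v) (by
            change u - v ∈ M.N w (n - d)
            rw [e2]; exact huv)
          rwa [map_sub] at h2
        rw [← h] at hla hla' hF4 hF5 hF6
        have fin : ∀ A : K', (lam.f b + lam'.f c) - A ∈ F.N w n → F.Cob {w} n A := by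
          intro A hA
          refine ⟨f - φ.f e', fun z hz => ?_⟩
          rw [mem_singleton_iff.1 hz]
          have h3 := sub_mem (add_mem (sub_mem hf hA) hφc) hφe
          rw [map_sub]
          convert h3 using 1
          abel
        rcases hM1 b (by intro z hz; rw [mem_singleton_iff.1 hz]; exact hb) with h1 | h1
        · rcases hM1 c (by intro z hz; rw [mem_singleton_iff.1 hz]; exact hc) with h2 | h2
          · exact ⟨⟨0, by simpa using h1⟩, ⟨0, by simpa using h2⟩⟩
          · exfalso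
            apply hF5
            apply fin
            have h3 := lm b 0 (by simpa using h1)
            have h4 := lm' c one h2
            have h5 := add_mem (add_mem h3 h4) hla'
            rw [map_zero] at h5
            convert h5 using 1
            abel
        · rcases hM1 c (by intro z hz; rw [mem_singleton_iff.1 hz]; exact hc) with h2 | h2
          · exfalso
            apply hF4
            apply fin
            have h3 := lm b one h1
            have h4 := lm' c 0 (by simpa using h2)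
            have h5 := add_mem (add_mem h3 h4) hla
            rw [map_zero] at h5
            convert h5 using 1
            abel
          · exfalso
            apply hF6
            apply fin
            have h3 := lm b one h1
            have h4 := lm' c one h2
            have h5 := add_mem (add_mem (add_mem h3 h4) hla) hla'
            convert h5 using 1
            abel
      · have e1 : n + 1 - d = (n - d) + 1 := by omega
        rw [e1] at hb hc
        obtain ⟨b', hb'⟩ := hM2 (n - d) (by omega) b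
          (by intro z hz; rw [mem_singleton_iff.1 hz]; exact hb)
        obtain ⟨c', hc'⟩ := hM2 (n - d) (by omega) c
          (by intro z hz; rw [mem_singleton_iff.1 hz]; exact hc)
        exact ⟨⟨b', hb' w rfl⟩, ⟨c', hc' w rfl⟩⟩
    obtain ⟨⟨b', hb'⟩, ⟨c', hc'⟩⟩ := hbc
    have hlb := lam.mem w n (b - M.D b') hb'
    rw [map_sub] at hlb
    have hlbc := lam.comm w n b'
    change F.D (lam.f b') - lam.f (M.D b') ∈ F.N w n at hlbc
    have hlc := lam'.mem w n (c - M.D c') hc'
    rw [map_sub] at hlc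
    have hlcc := lam'.comm w n c'
    change F.D (lam'.f c') - lam'.f (M.D c') ∈ F.N w n at hlcc
    obtain ⟨q, rfl⟩ : ∃ q, n = q + 1 := ⟨n - 1, by omega⟩
    have hg : F.Coc {w} q (f - φ.f e' - lam.f b' - lam'.f c') := by
      intro z hz
      rw [mem_singleton_iff.1 hz]
      have h3 := neg_mem (add_mem (add_mem (add_mem (sub_mem (sub_mem (sub_mem hf hφe) hlb) hlc) hφc) hlbc) hlcc)
      convert h3 using 1
      rw [map_sub, map_sub, map_sub]; abel
    have key : ∀ (x y y' : K) (g : K'), M.D x ∈ M.N w (q + 1) → M.D y ∈ M.N w (q + 1 - d) →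
        M.D y' ∈ M.N w (q + 1 - d) →
        f - φ.f e' - lam.f b' - lam'.f c' - φ.f x - lam.f y - lam'.f y' - F.D g ∈ F.N w q →
        (cone (φ.sum (lam.sum lam'))).Cob {w} (q + 1) ((e, (b, c)), f) := by
      intro x y y' g hx hy hy' hg
      refine ⟨((e' + x, (b' + y, c' + y')), -g), fun z hz => ?_⟩
      rw [mem_singleton_iff.1 hz, cone_D, cone_N]
      refine ⟨⟨?_, ?_, ?_⟩, ?_⟩
      · change e - M.D (e' + x) ∈ M.N w (q + 1)
        have := sub_mem he'' hx
        rw [map_add]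
        convert this using 1
        abel
      · change b - M.D (b' + y) ∈ M.N w (q + 1 - d)
        have := sub_mem hb' hy
        rw [map_add]
        convert this using 1
        abel
      · change c - M.D (c' + y') ∈ M.N w (q + 1 - d)
        have := sub_mem hc' hy'
        rw [map_add]
        convert this using 1
        abel
      · change f - (φ.f (e' + x) + (lam.f (b' + y) + lam'.f (c' + y')) - F.D (-g)) ∈ F.N w q
        rw [map_add, map_add, map_add, map_neg]
        convert hg using 1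
        abel
    rcases Nat.lt_or_ge q 2 with hq | hq
    · obtain rfl : q = 1 := by omega
      rcases hF1 _ hg with h1 | h1
      · exact key 0 0 0 0 (by simp) (by simp) (by simp) (by simpa using h1)
      · exact key one 0 0 0 hone (by simp) (by simp) (by simpa using h1)
    · by_cases hqd : q = d + 1
      · subst hqd
        have hone' : M.D one ∈ M.N w (d + 1 + 1 - d) := by
          have : d + 1 + 1 - d = 2 := by omega
          rw [this]; exact hone
        rcases hF3 _ hg with ⟨g', h1⟩ | ⟨g', h1⟩ | ⟨g', h1⟩ | ⟨g', h1⟩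
        · exact key 0 0 0 g' (by simp) (by simp) (by simp) (by simpa using h1 w rfl)
        · refine key 0 one 0 g' (by simp) hone' (by simp) ?_
          have := sub_mem (h1 w rfl) hla
          rw [map_zero, map_zero]
          convert this using 1
          abel
        · refine key 0 0 one g' (by simp) (by simp) hone' ?_
          have := sub_mem (h1 w rfl) hla'
          rw [map_zero, map_zero]
          convert this using 1
          abel
        · refine key 0 one one g' (by simp) hone' hone' ?_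
          have := sub_mem (sub_mem (h1 w rfl) hla) hla'
          rw [map_zero]
          convert this using 1
          abel
      · obtain ⟨g', h1⟩ := hF2 q hq hqd _ hg
        exact key 0 0 0 g' (by simp) (by simp) (by simp) (by simpa using h1 w rfl)

/-- right multiplication with a class of the fibre, as a morphism. -/
noncomputable def lamR {X Y : Type*} [MetricSpace X] [MetricSpace Y] (p : X → Y)
    (hp : Continuous p) (G : Set X) (hG : IsCompact G) (d : ℕ) (a : Ch X)
    (ha : (AS X).Coc G (d + 1) a) : SoftCx.Mor ((AS Y).shift d) (PF p hp G hG) where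
  f := { toFun := fun b => cupR d (pb p b) a
         map_zero' := by
           funext l
           by_cases h : d < l.length
           · simp [cupR, pb]
           · simp [cupR, pb]
         map_add' := fun b b' => cupR_add_left d (pb p b) (pb p b') a }
  mem z n k hk := by
    rw [SoftCx.mem_push_N]
    intro x hx
    have e : p x = z := hx.2
    change k ∈ Nz z (n - d) at hk
    change cupR d (pb p k) a ∈ Nz x n
    rw [← e] at hk
    have hk' := pb_mem_Nz hp.continuousAt hk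
    rcases Nat.lt_or_ge d n with h | h
    · obtain ⟨W, hW, hxW, h3⟩ := exists_of_mem_Nz (by omega) hk'
      refine mem_Nz_of (hW.mem_nhds hxW) fun l hl hx => ?_
      rw [cupR, if_pos (by omega), h3 _ (by simp; omega)
        fun y hy => hx y (List.mem_of_mem_take hy), zero_mul]
    · exact mem_Nz_of Filter.univ_mem fun l hl _ => by rw [cupR, if_neg (by omega)]
  comm z n k := by
    rw [SoftCx.mem_push_N]
    intro x hx
    change dd (cupR d (pb p k) a) - cupR d (pb p (dd k)) a ∈ Nz x n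
    have e : dd (cupR d (pb p k) a) - cupR d (pb p (dd k)) a = cupR (d + 1) (pb p k) (dd a) := by
      funext l
      rw [Pi.sub_apply, dd_cupR, dd_pb, Pi.add_apply, add_sub_cancel_left]
    rw [e]
    obtain ⟨W, hW, hxW, h3⟩ := exists_of_mem_Nz (by omega) (ha x hx.1)
    refine mem_Nz_of (hW.mem_nhds hxW) fun l hl hx => ?_
    rcases Nat.lt_or_ge (d + 1) l.length with h | h
    · rw [cupR, if_pos h]
      have := h3 (l.drop (l.length - (d + 1) - 1)) (by simp; omega)
        fun y hy => hx y (List.mem_of_mem_drop hy)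
      rw [AS_D] at this
      rw [this, mul_zero]
    · rw [cupR, if_neg (by omega)]

theorem j12813_pb_fst_mk {X : Type*} (w : X) (c : Ch X) :
    pb (fun x : X => ((x, w) : X × X)) (pb Prod.fst c) = c := by
  funext l
  show c ((l.map (fun x : X => ((x, w) : X × X))).map Prod.fst) = c l
  rw [List.map_map]
  have e : (Prod.fst ∘ fun x : X => ((x, w) : X × X)) = id := rfl
  rw [e, List.map_id]

theorem j12813_lamR_one {X : Type*} [MetricSpace X] {G : Set (X × X)} (hG : IsCompact G) {k : ℕ}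
    (a : Ch (X × X)) (ha : (AS (X × X)).Coc G (k + 1) a) (w : X) :
    (lamR (Prod.snd : X × X → X) continuous_snd G hG k a ha).f one - a ∈
      (PF (Prod.snd : X × X → X) continuous_snd G hG).N w (k + 1) := by
  rw [SoftCx.mem_push_N]
  intro x _
  change cupR k (pb Prod.snd one) a - a ∈ Nz x (k + 1)
  refine mem_Nz_of Filter.univ_mem fun l hl _ => ?_
  have e : cupR k (pb Prod.snd (one : Ch X)) a l = a l := by
    unfold cupR
    rw [if_pos (by omega)]
    have e1 : l.length - k - 1 = 0 := by omega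
    rw [e1, List.drop_zero]
    show (1 : ZMod 2) * a l = a l
    rw [one_mul]
  rw [Pi.sub_apply, e, sub_self]

theorem j12813_cone_ex {k : ℕ} (hk : 1 ≤ k) {X : Type*} [MetricSpace X] {P Q : Set X}
    (hPne : P.Nonempty) (α β : Ch X)
    (hP1 : ∀ c, (AS X).Coc P 1 c →
      (∀ z ∈ P, c ∈ (AS X).N z 1) ∨ ∀ z ∈ P, c - one ∈ (AS X).N z 1)
    (hP2 : ∀ n, 2 ≤ n → n ≠ k + 1 → (AS X).Ex P n)
    (hP3 : ∀ c, (AS X).Coc P (k + 1) c → (AS X).Cob P (k + 1) c ∨
      (AS X).Cob P (k + 1) (c - α) ∨ (AS X).Cob P (k + 1) (c - β) ∨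
      (AS X).Cob P (k + 1) (c - (α + β)))
    (hP4 : ¬ (AS X).Cob P (k + 1) α) (hP5 : ¬ (AS X).Cob P (k + 1) β)
    (hP6 : ¬ (AS X).Cob P (k + 1) (α + β)) (hG : IsCompact (P ×ˢ Q))
    (ha : (AS (X × X)).Coc (P ×ˢ Q) (k + 1) (pb Prod.fst α))
    (hb : (AS (X × X)).Coc (P ×ˢ Q) (k + 1) (pb Prod.fst β)) (w : X) (hw : w ∈ Q) (n : ℕ) :
    (cone ((phi (Prod.snd : X × X → X) continuous_snd (P ×ˢ Q) hG).sum
      ((lam (Prod.snd : X × X → X) continuous_snd (P ×ˢ Q) hG k (pb Prod.fst α) ha).sum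
        (lamR (Prod.snd : X × X → X) continuous_snd (P ×ˢ Q) hG k (pb Prod.fst β) hb)))).Ex
      {w} n := by
  have hg : ∀ x ∈ (P ×ˢ Q) ∩ Prod.snd ⁻¹' {w}, ContinuousAt (Prod.fst : X × X → X) x :=
    fun x _ => continuous_fst.continuousAt
  have hg' : ∀ y ∈ P, ContinuousAt (fun x : X => ((x, w) : X × X)) y :=
    fun y _ => (continuous_id.prodMk continuous_const).continuousAt
  have hF : MapsTo (Prod.fst : X × X → X) ((P ×ˢ Q) ∩ Prod.snd ⁻¹' {w}) P :=
    fun x hx => hx.1.1
  have hF' : MapsTo (fun x : X => ((x, w) : X × X)) P ((P ×ˢ Q) ∩ Prod.snd ⁻¹' {w}) :=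
    fun x hx => ⟨⟨hx, hw⟩, rfl⟩
  have hgg : ∀ x ∈ (P ×ˢ Q) ∩ (Prod.snd : X × X → X) ⁻¹' {w},
      (fun x : X => ((x, w) : X × X)) (Prod.fst x) = x := by
    rintro ⟨x, y⟩ hx
    have : y = w := hx.2
    show (x, w) = (x, y)
    rw [this]
  have tr : ∀ c : Ch (X × X), ∀ e : Ch X,
      (AS (X × X)).Coc ((P ×ˢ Q) ∩ Prod.snd ⁻¹' {w}) (k + 1) c →
      (AS X).Cob P (k + 1) (pb (fun x : X => ((x, w) : X × X)) c - e) →
      (AS (X × X)).Cob ((P ×ˢ Q) ∩ Prod.snd ⁻¹' {w}) (k + 1) (c - pb Prod.fst e) := by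
    intro c e hc he
    have h1 := cob_pb hg hF he
    have h2 := cob_retract hg hg' hF hF' hgg hc
    have h3 := h2.add h1
    have e3 : c - pb Prod.fst (pb (fun x : X => ((x, w) : X × X)) c) +
        pb Prod.fst (pb (fun x : X => ((x, w) : X × X)) c - e) = c - pb Prod.fst e := by
      have e4 : (pb Prod.fst (pb (fun x : X => ((x, w) : X × X)) c - e) : Ch (X × X)) =
          pb Prod.fst (pb (fun x : X => ((x, w) : X × X)) c) - pb Prod.fst e := rfl
      rw [e4]
      abel
    rw [e3] at h3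
    exact h3
  have ntr : ∀ e : Ch X, ¬ (AS X).Cob P (k + 1) e →
      ¬ (PF (Prod.snd : X × X → X) continuous_snd (P ×ˢ Q) hG).Cob {w} (k + 1)
        (pb Prod.fst e) := by
    intro e he h
    rw [push_cob] at h
    apply he
    have h1 := cob_pb hg' hF' h
    rw [j12813_pb_fst_mk] at h1
    exact h1
  refine cone2_ex hk _ _ _ one (pb Prod.fst α) (pb Prod.fst β) w (one_D_mem w)
    (lam_one_mem _ _ _ _ _ _ _ _) (j12813_lamR_one hG _ _ _) (acy_singleton w) ?_ ?_ ?_ ?_
    (ntr α hP4) (ntr β hP5) ?_ n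
  · intro h
    rw [phi_f, pb_one] at h
    refine not_one_mem (Z := (P ×ˢ Q) ∩ (Prod.snd : X × X → X) ⁻¹' {w}) ?_ ?_
    · obtain ⟨x, hx⟩ := hPne
      exact ⟨(x, w), hF' hx⟩
    · exact (mem_push_N _ _ _ _ _ _ _ _).1 h
  · intro c hc
    rw [push_coc] at hc
    rw [phi_f, pb_one, mem_push_N, mem_push_N]
    exact coc_one_retract hg hg' hF hF' hgg hP1 c hc
  · intro m hm hm'
    rw [push_ex]
    exact ex_retract hg hg' hF hF' hgg (hP2 m hm hm')
  · intro c hc
    rw [push_coc] at hc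
    rw [push_cob, push_cob, push_cob, push_cob]
    have hc' := coc_pb hg' hF' hc
    rcases hP3 _ hc' with h | h | h | h
    · left
      have h0 : (AS X).Cob P (k + 1) (pb (fun x : X => ((x, w) : X × X)) c - 0) := by
        rw [sub_zero]; exact h
      have h1 := tr c 0 hc h0
      have e0 : c - pb Prod.fst (0 : Ch X) = c := by
        have : pb Prod.fst (0 : Ch X) = (0 : Ch (X × X)) := rfl
        rw [this, sub_zero]
      rw [e0] at h1
      exact h1
    · right; left
      exact tr c α hc h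
    · right; right; left
      exact tr c β hc h
    · right; right; right
      exact tr c (α + β) hc h
  · exact ntr (α + β) hP6

/-- if all three classes are non-zero on `P` and on `Q`, then the mixed product is non-zero. -/
theorem mixed_ne {k : ℕ} (hk : 1 ≤ k) {X : Type*} [MetricSpace X] {P Q : Set X}
    (hP : IsCompact P) (hQ : IsCompact Q) (hPne : P.Nonempty) (α β : Ch X)
    (hα : (AS X).Coc univ (k + 1) α) (hβ : (AS X).Coc univ (k + 1) β)
    (hP1 : ∀ c, (AS X).Coc P 1 c →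
      (∀ z ∈ P, c ∈ (AS X).N z 1) ∨ ∀ z ∈ P, c - one ∈ (AS X).N z 1)
    (hP2 : ∀ n, 2 ≤ n → n ≠ k + 1 → (AS X).Ex P n)
    (hP3 : ∀ c, (AS X).Coc P (k + 1) c → (AS X).Cob P (k + 1) c ∨
      (AS X).Cob P (k + 1) (c - α) ∨ (AS X).Cob P (k + 1) (c - β) ∨
      (AS X).Cob P (k + 1) (c - (α + β)))
    (hP4 : ¬ (AS X).Cob P (k + 1) α) (hP5 : ¬ (AS X).Cob P (k + 1) β)
    (hP6 : ¬ (AS X).Cob P (k + 1) (α + β)) (hQ5 : ¬ (AS X).Cob Q (k + 1) β) :
    ¬ (AS (X × X)).Cob (P ×ˢ Q) (2 * k + 1)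
      (cup k (pb Prod.fst α) (pb Prod.snd β) + cupR k (pb Prod.snd α) (pb Prod.fst β)) := by
  rintro ⟨f, hf⟩
  have hG : IsCompact (P ×ˢ Q) := hP.prod hQ
  have ha : (AS (X × X)).Coc (P ×ˢ Q) (k + 1) (pb Prod.fst α) :=
    coc_pb (fun x _ => continuous_fst.continuousAt) (mapsTo_univ _ _) hα
  have hb : (AS (X × X)).Coc (P ×ˢ Q) (k + 1) (pb Prod.fst β) :=
    coc_pb (fun x _ => continuous_fst.continuousAt) (mapsTo_univ _ _) hβ
  have hex : (cone ((phi (Prod.snd : X × X → X) continuous_snd (P ×ˢ Q) hG).sum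
      ((lam (Prod.snd : X × X → X) continuous_snd (P ×ˢ Q) hG k (pb Prod.fst α) ha).sum
        (lamR (Prod.snd : X × X → X) continuous_snd (P ×ˢ Q) hG k (pb Prod.fst β) hb)))).Ex
      Q (2 * k + 1) :=
    ex_of_pointwise (2 * k + 1) hQ fun w hw m _ =>
      j12813_cone_ex hk hPne α β hP1 hP2 hP3 hP4 hP5 hP6 hG ha hb w hw m
  have hcoc : (cone ((phi (Prod.snd : X × X → X) continuous_snd (P ×ˢ Q) hG).sum
      ((lam (Prod.snd : X × X → X) continuous_snd (P ×ˢ Q) hG k (pb Prod.fst α) ha).sum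
        (lamR (Prod.snd : X × X → X) continuous_snd (P ×ˢ Q) hG k (pb Prod.fst β) hb)))).Coc
      Q (2 * k + 1) ((0, (β, α)), f) := by
    intro w hw
    rw [cone_D, cone_N]
    refine ⟨⟨?_, ?_, ?_⟩, ?_⟩
    · change (AS X).D 0 ∈ (AS X).N w (2 * k + 1 + 1)
      rw [map_zero]
      exact zero_mem _
    · change (AS X).D β ∈ (AS X).N w (2 * k + 1 + 1 - k)
      have e : 2 * k + 1 + 1 - k = k + 1 + 1 := by omega
      rw [e]
      exact hβ w (mem_univ w)
    · change (AS X).D α ∈ (AS X).N w (2 * k + 1 + 1 - k)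
      have e : 2 * k + 1 + 1 - k = k + 1 + 1 := by omega
      rw [e]
      exact hα w (mem_univ w)
    · have e : 2 * k + 1 + 1 - 1 = 2 * k + 1 := by omega
      rw [e, mem_push_N]
      intro x hx
      have h1 := hf x hx.1
      change pb Prod.snd 0 + (cup k (pb Prod.fst α) (pb Prod.snd β) +
        cupR k (pb Prod.snd α) (pb Prod.fst β)) - dd f ∈ Nz x (2 * k + 1)
      have e2 : pb Prod.snd (0 : Ch X) = (0 : Ch (X × X)) := rfl
      rw [e2, zero_add]
      exact h1
  obtain ⟨k', hk'⟩ := hex _ hcoc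
  apply hQ5
  refine ⟨k'.1.2.1, fun w hw => ?_⟩
  have h1 := hk' w hw
  rw [cone_D, cone_N] at h1
  have h2 : β - (AS X).D k'.1.2.1 ∈ (AS X).N w (2 * k + 1 - k) := h1.1.2.1
  have e : 2 * k + 1 - k = k + 1 := by omega
  rw [e] at h2
  exact h2

/-- the cup product vanishes near `z` if the left factor does. -/
theorem j12815_left {Ω : Type*} [TopologicalSpace Ω] {z : Ω} {d n : ℕ} (hdn : d < n) {a b : Ch Ω}
    (ha : a ∈ Nz z (d + 1)) : cup d a b ∈ Nz z n := by
  obtain ⟨W, hW, hzW, h3⟩ := exists_of_mem_Nz (by omega) ha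
  refine mem_Nz_of (hW.mem_nhds hzW) fun l hl hx => ?_
  rw [cup_of_lt (by omega), h3 (l.take (d + 1)) (by simp; omega)
    fun y hy => hx y (List.mem_of_mem_take hy), zero_mul]

/-- the cup product vanishes near `z` if the right factor does. -/
theorem j12815_right {Ω : Type*} [TopologicalSpace Ω] {z : Ω} {d n m : ℕ} (hdn : d + m = n)
    (hm : m ≠ 0) {a b : Ch Ω} (hb : b ∈ Nz z m) : cup d a b ∈ Nz z n := by
  obtain ⟨W, hW, hzW, h3⟩ := exists_of_mem_Nz hm hb
  refine mem_Nz_of (hW.mem_nhds hzW) fun l hl hx => ?_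
  rw [cup_of_lt (by omega), h3 (l.drop d) (by simp; omega)
    fun y hy => hx y (List.mem_of_mem_drop hy), mul_zero]

/-- product of two classes which vanish on the two parts of a cover. -/
theorem cup_cob {k : ℕ} (hk : 1 ≤ k) {Ω : Type*} [MetricSpace Ω] {F₁ F₂ : Set Ω} (h₁ : IsCompact F₁)
    (h₂ : IsCompact F₂) {a b : Ch Ω} (ha : (AS Ω).Coc (F₁ ∪ F₂) (k + 1) a)
    (hb : (AS Ω).Coc (F₁ ∪ F₂) (k + 1) b) (ha1 : (AS Ω).Cob F₁ (k + 1) a)
    (hb2 : (AS Ω).Cob F₂ (k + 1) b) : (AS Ω).Cob (F₁ ∪ F₂) (2 * k + 1) (cup k a b) := by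
  obtain ⟨u, hu⟩ := ha1
  obtain ⟨v, hv⟩ := hb2
  obtain ⟨k', rfl⟩ : ∃ k', k = k' + 1 := ⟨k - 1, by omega⟩
  obtain ⟨a2, ea⟩ : ∃ a2, a = a2 + dd u := ⟨a - dd u, by rw [sub_add_cancel]⟩
  obtain ⟨b2, eb⟩ : ∃ b2, b = b2 + dd v := ⟨b - dd v, by rw [sub_add_cancel]⟩
  have hu' : ∀ z ∈ F₁, a2 ∈ Nz z (k' + 1 + 1) := by
    intro z hz
    have h3 := hu z hz
    rw [AS_D, AS_N, ea, add_sub_cancel_right] at h3
    exact h3
  have hv' : ∀ z ∈ F₂, b2 ∈ Nz z (k' + 1 + 1) := by
    intro z hz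
    have h3 := hv z hz
    rw [AS_D, AS_N, eb, add_sub_cancel_right] at h3
    exact h3
  have hda : dd a = dd a2 := by
    rw [ea, dd_add, dd_dd, add_zero]
  refine ⟨cup k' u b + cup (k' + 1) a2 v, fun z hz => ?_⟩
  rw [AS_N, AS_D]
  have e : cup (k' + 1) a b - dd (cup k' u b + cup (k' + 1) a2 v) =
      cup (k' + 1) a2 b2 - cup k' u (dd b) - cup (k' + 1 + 1) (dd a2) v := by
    rw [dd_add]
    funext l
    have h4 : cup (k' + 1) a b l = cup (k' + 1) a2 b2 l + cup (k' + 1) a2 (dd v) l +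
        cup (k' + 1) (dd u) b l := by
      have h5 : cup (k' + 1) a b = cup (k' + 1) a2 b + cup (k' + 1) (dd u) b := by
        rw [← cup_add_left, ← ea]
      have h6 : cup (k' + 1) a2 b = cup (k' + 1) a2 b2 + cup (k' + 1) a2 (dd v) := by
        rw [← cup_add_right, ← eb]
      rw [h5, h6]; rfl
    simp only [Pi.sub_apply, Pi.add_apply, leibniz]
    rw [h4]
    ring
  rw [e]
  have hdb : dd b ∈ Nz z (k' + 1 + 1 + 1) := by
    have h3 := hb z hz
    rw [AS_D, AS_N] at h3
    exact h3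
  have hda2 : dd a2 ∈ Nz z (k' + 1 + 1 + 1) := by
    have h3 := ha z hz
    rw [AS_D, AS_N, hda] at h3
    exact h3
  refine sub_mem (sub_mem ?_ ?_) ?_
  · rcases hz with hz | hz
    · exact j12815_left (by omega) (hu' z hz)
    · exact j12815_right (m := k' + 1 + 1) (by omega) (by omega) (hv' z hz)
  · exact j12815_right (m := k' + 1 + 1 + 1) (by omega) (by omega) hdb
  · exact j12815_left (by omega) hda2

theorem j12816_coc_cup {Ω : Type*} [MetricSpace Ω] {Z : Set Ω} {k : ℕ} {a b : Ch Ω}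
    (ha : (AS Ω).Coc Z (k + 1) a) (hb : (AS Ω).Coc Z (k + 1) b) :
    (AS Ω).Coc Z (2 * k + 1) (cup k a b) := by
  intro z hz
  have h1 := ha z hz
  have h2 := hb z hz
  rw [AS_N, AS_D] at h1 h2 ⊢
  obtain ⟨W, hW, hzW, hw⟩ := exists_of_mem_Nz (by omega) h1
  obtain ⟨W', hW', hzW', hw'⟩ := exists_of_mem_Nz (by omega) h2
  refine mem_Nz_of ((hW.inter hW').mem_nhds ⟨hzW, hzW'⟩) fun l hl hx => ?_
  rw [leibniz, cup_of_lt (by omega), cup_of_lt (by omega)]
  rw [hw (l.take (k + 1 + 1)) (by simp; omega) (fun x hx' => (hx x (List.mem_of_mem_take hx')).1),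
    zero_mul, hw' (l.drop k) (by simp; omega) (fun x hx' => (hx x (List.mem_of_mem_drop hx')).2),
    mul_zero, add_zero]

theorem j12816_cup_pb {Ω Ω' : Type*} (k : ℕ) (f : Ω → Ω') (a b : Ch Ω') :
    cup k (pb f a) (pb f b) = pb f (cup k a b) := by
  funext l
  simp [cup, pb, List.map_take, List.map_drop]

theorem j12816_cupR {Ω : Type*} [MetricSpace Ω] (k : ℕ) (a b : Ch Ω) (z : Ω) :
    cupR k a b - cup k a b ∈ (AS Ω).N z (2 * k + 1) := by
  rw [AS_N]
  refine mem_Nz_of Filter.univ_mem fun l hl _ => ?_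
  rw [Pi.sub_apply, cup_of_lt (by omega), cupR, if_pos (by omega)]
  have e1 : l.length - k = k + 1 := by omega
  have e2 : l.length - k - 1 = k := by omega
  rw [e2, e1, sub_self]

theorem j12816_neg {Ω : Type*} (c : Ch Ω) : -c = c := by
  funext l
  have := add_self2 (c l)
  rw [Pi.neg_apply]
  exact neg_eq_of_add_eq_zero_left this

/-- disjoint subsets of `S^k × S^k` cannot both have full middle cohomology. -/
theorem rank_le_one {k : ℕ} (hk : 1 ≤ k) {θ : Ch (SS k)}
    (hθ : (AS (SS k)).Coc univ (k + 1) θ)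
    (hneg : (AS (SS k)).Cob univ (k + 1) (pb Neg.neg θ - θ))
    {P Q : Set (SS k × SS k)}
    (hP : IsCompact P) (hQ : IsCompact Q) (hPQ : Disjoint P Q) (hPne : P.Nonempty)
    (hP1 : ∀ c, (AS (SS k × SS k)).Coc P 1 c →
      (∀ z ∈ P, c ∈ (AS (SS k × SS k)).N z 1) ∨ ∀ z ∈ P, c - one ∈ (AS (SS k × SS k)).N z 1)
    (hP2 : ∀ n, 2 ≤ n → n ≠ k + 1 → (AS (SS k × SS k)).Ex P n)
    (hQ2 : (AS (SS k × SS k)).Ex Q (2 * k + 1))
    (hP3 : ∀ c, (AS (SS k × SS k)).Coc P (k + 1) c → (AS (SS k × SS k)).Cob P (k + 1) c ∨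
      (AS (SS k × SS k)).Cob P (k + 1) (c - pb Prod.fst θ) ∨
      (AS (SS k × SS k)).Cob P (k + 1) (c - pb Prod.snd θ) ∨
      (AS (SS k × SS k)).Cob P (k + 1) (c - (pb Prod.fst θ + pb Prod.snd θ)))
    (hP4 : ¬ (AS (SS k × SS k)).Cob P (k + 1) (pb Prod.fst θ))
    (hP5 : ¬ (AS (SS k × SS k)).Cob P (k + 1) (pb Prod.snd θ))
    (hP6 : ¬ (AS (SS k × SS k)).Cob P (k + 1) (pb Prod.fst θ + pb Prod.snd θ)) :
    (AS (SS k × SS k)).Cob Q (k + 1) (pb Prod.snd θ) := by
  by_contra hQ5
  have hα : (AS (SS k × SS k)).Coc univ (k + 1) (pb Prod.fst θ) :=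
    coc_pb (fun x _ => continuous_fst.continuousAt) (fun x _ => mem_univ _) hθ
  have hβ : (AS (SS k × SS k)).Coc univ (k + 1) (pb Prod.snd θ) :=
    coc_pb (fun x _ => continuous_snd.continuousAt) (fun x _ => mem_univ _) hθ
  obtain ⟨α, hαe⟩ : ∃ α : Ch (SS k × SS k), α = pb Prod.fst θ := ⟨_, rfl⟩
  obtain ⟨β, hβe⟩ : ∃ β : Ch (SS k × SS k), β = pb Prod.snd θ := ⟨_, rfl⟩
  have hmix := mixed_ne hk hP hQ hPne (pb Prod.fst θ) (pb Prod.snd θ) hα hβ hP1 hP2 hP3 hP4 hP5 hP6 hQ5
  apply hmix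
  -- the two parts
  have hFc : IsCompact (P ×ˢ Q) := hP.prod hQ
  have hc1 : IsClosed {p : (SS k × SS k) × (SS k × SS k) | dist p.1.2 p.2.2 ≤ dist p.1.1 p.2.1} :=
    isClosed_le (by fun_prop) (by fun_prop)
  have hc2 : IsClosed {p : (SS k × SS k) × (SS k × SS k) | dist p.1.1 p.2.1 ≤ dist p.1.2 p.2.2} :=
    isClosed_le (by fun_prop) (by fun_prop)
  have hF1c := hFc.inter_right hc1
  have hF2c := hFc.inter_right hc2
  have hunion : (P ×ˢ Q) ∩ {p : (SS k × SS k) × (SS k × SS k) | dist p.1.2 p.2.2 ≤ dist p.1.1 p.2.1} ∪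
      (P ×ˢ Q) ∩ {p : (SS k × SS k) × (SS k × SS k) | dist p.1.1 p.2.1 ≤ dist p.1.2 p.2.2} =
      P ×ˢ Q := by
    rw [← inter_union_distrib_left, inter_eq_left]
    intro p _
    exact le_total (dist p.1.2 p.2.2) (dist p.1.1 p.2.1)
  have hne : ∀ p ∈ P ×ˢ Q, p.1 ≠ p.2 := by
    intro p hp he
    exact disjoint_left.1 hPQ hp.1 (he ▸ hp.2)
  have ha1 := offdiag hθ hneg hF1c (u := fun p : (SS k × SS k) × (SS k × SS k) => p.1.1)
    (v := fun p => p.2.1) (by fun_prop) (by fun_prop) (by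
      rintro p ⟨hp, hd⟩ he
      apply hne p hp
      have hd' : dist p.1.2 p.2.2 ≤ dist p.1.1 p.2.1 := hd
      have he' : p.1.1 = p.2.1 := he
      rw [he', dist_self] at hd'
      exact Prod.ext he' (dist_le_zero.1 hd'))
  have hb2 := offdiag hθ hneg hF2c (u := fun p : (SS k × SS k) × (SS k × SS k) => p.1.2)
    (v := fun p => p.2.2) (by fun_prop) (by fun_prop) (by
      rintro p ⟨hp, hd⟩ he
      apply hne p hp
      have hd' : dist p.1.1 p.2.1 ≤ dist p.1.2 p.2.2 := hd
      have he' : p.1.2 = p.2.2 := he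
      rw [he', dist_self] at hd'
      exact Prod.ext (dist_le_zero.1 hd') he')
  have hcoc : ∀ f : (SS k × SS k) × (SS k × SS k) → SS k, Continuous f → ∀ s,
      (AS ((SS k × SS k) × (SS k × SS k))).Coc s (k + 1) (pb f θ) := fun f hf s =>
    coc_pb (fun x _ => hf.continuousAt) (fun x _ => mem_univ _) hθ
  have ha := (hcoc (fun p => p.1.1) (by fun_prop) ((P ×ˢ Q) ∩ {p | dist p.1.2 p.2.2 ≤ dist p.1.1 p.2.1} ∪
      (P ×ˢ Q) ∩ {p | dist p.1.1 p.2.1 ≤ dist p.1.2 p.2.2})).sub
    (hcoc (fun p => p.2.1) (by fun_prop) _)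
  have hb := (hcoc (fun p => p.1.2) (by fun_prop) ((P ×ˢ Q) ∩ {p | dist p.1.2 p.2.2 ≤ dist p.1.1 p.2.1} ∪
      (P ×ˢ Q) ∩ {p | dist p.1.1 p.2.1 ≤ dist p.1.2 p.2.2})).sub
    (hcoc (fun p => p.2.2) (by fun_prop) _)
  have hcc := cup_cob hk hF1c hF2c ha hb ha1 hb2
  rw [hunion] at hcc
  have e11 : pb (fun p : (SS k × SS k) × (SS k × SS k) => p.1.1) θ = pb Prod.fst (pb Prod.fst θ) := by
    funext l; simp [pb, Function.comp_def]
  have e21 : pb (fun p : (SS k × SS k) × (SS k × SS k) => p.2.1) θ = pb Prod.snd (pb Prod.fst θ) := by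
    funext l; simp [pb, Function.comp_def]
  have e12 : pb (fun p : (SS k × SS k) × (SS k × SS k) => p.1.2) θ = pb Prod.fst (pb Prod.snd θ) := by
    funext l; simp [pb, Function.comp_def]
  have e22 : pb (fun p : (SS k × SS k) × (SS k × SS k) => p.2.2) θ = pb Prod.snd (pb Prod.snd θ) := by
    funext l; simp [pb, Function.comp_def]
  rw [e11, e21, e12, e22, sub_eq_add_neg, sub_eq_add_neg, j12816_neg, j12816_neg, cup_add_left,
    cup_add_right, cup_add_right, j12816_cup_pb, j12816_cup_pb] at hcc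
  rw [← hαe, ← hβe] at hcc ⊢
  rw [← hαe] at hα
  rw [← hβe] at hβ
  have hPc : (AS (SS k × SS k)).Cob P (2 * k + 1) (cup k α β) :=
    hP2 (2 * k + 1) (by omega) (by omega) _
      (j12816_coc_cup (hα.mono (subset_univ _)) (hβ.mono (subset_univ _)))
  have hQc : (AS (SS k × SS k)).Cob Q (2 * k + 1) (cup k α β) :=
    hQ2 _ (j12816_coc_cup (hα.mono (subset_univ _)) (hβ.mono (subset_univ _)))
  have hP' : (AS ((SS k × SS k) × (SS k × SS k))).Cob (P ×ˢ Q) (2 * k + 1)
      (pb Prod.fst (cup k α β)) :=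
    cob_pb (fun x _ => continuous_fst.continuousAt) (fun x hx => hx.1) hPc
  have hQ' : (AS ((SS k × SS k) × (SS k × SS k))).Cob (P ×ˢ Q) (2 * k + 1)
      (pb Prod.snd (cup k α β)) :=
    cob_pb (fun x _ => continuous_snd.continuousAt) (fun x hx => hx.2) hQc
  have hR : (AS ((SS k × SS k) × (SS k × SS k))).Cob (P ×ˢ Q) (2 * k + 1)
      (cupR k (pb Prod.snd α) (pb Prod.fst β) - cup k (pb Prod.snd α) (pb Prod.fst β)) :=
    Cob.of_mem fun z _ => j12816_cupR k _ _ z
  have hfin := ((hcc.sub hP').sub hQ').add hR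
  convert hfin using 1
  abel

/-- extension of the fibre classes to a global class. -/
theorem exists_a {Ω E : Type*} [MetricSpace Ω] [MetricSpace E] {k : ℕ} (hk : 1 ≤ k)
    {π : Ω → E} (hπ : Continuous π) {G : Set Ω} (hG : IsCompact G) {S B₁ B₂ : Set E}
    (hS : IsCompact S) (h₁ : IsCompact B₁) (h₂ : IsCompact B₂) (h12 : Disjoint B₁ B₂)
    (h1S : B₁ ⊆ S) (h2S : B₂ ⊆ S) (hGS : ∀ ξ ∈ G, π ξ ∈ S) {a₁ a₂ : Ch Ω}
    (ha₁ : (AS Ω).Coc G (k + 1) a₁) (ha₂ : (AS Ω).Coc G (k + 1) a₂)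
    (hf₁ : ∀ w ∈ B₁, (AS Ω).AType one k a₁ (G ∩ π ⁻¹' {w}))
    (hf₂ : ∀ w ∈ B₂, (AS Ω).AType one k a₂ (G ∩ π ⁻¹' {w}))
    (hf : ∀ w ∈ S \ (B₁ ∪ B₂), (AS Ω).Acy one (G ∩ π ⁻¹' {w}))
    (hex : (AS E).Ex S (k + 2)) :
    ∃ a, (AS Ω).Coc G (k + 1) a ∧ ∀ w ∈ B₁ ∪ B₂, (AS Ω).AType one k a (G ∩ π ⁻¹' {w}) := by
  have hc1 : IsClosed (G ∩ π ⁻¹' B₁) := hG.isClosed.inter (h₁.isClosed.preimage hπ)
  have hc2 : IsClosed (G ∩ π ⁻¹' B₂) := hG.isClosed.inter (h₂.isClosed.preimage hπ)
  obtain ⟨k₁, hk1, hk2⟩ := (AS Ω).soft (k + 1) (a₁ - a₂) (G ∩ π ⁻¹' B₂) (G ∩ π ⁻¹' B₁) hc2 hc1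
    (by
      rintro z ⟨hz2, hz1⟩
      exact absurd (Set.disjoint_left.1 h12 hz1.2 hz2.2) id)
  have hB1 : ∀ z ∈ G ∩ π ⁻¹' B₁, (a₂ + k₁) - a₁ ∈ (AS Ω).N z (k + 1) := by
    intro z hz
    have := neg_mem (hk2 z hz)
    convert this using 1
    abel
  have hB2 : ∀ z ∈ G ∩ π ⁻¹' B₂, (a₂ + k₁) - a₂ ∈ (AS Ω).N z (k + 1) := by
    intro z hz
    have := hk1 z hz
    convert this using 1
    abel
  have hcoc : (AS Ω).Coc (G ∩ π ⁻¹' (B₁ ∪ B₂)) (k + 1) (a₂ + k₁) := by
    rintro z ⟨hzG, hz | hz⟩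
    · have h3 := (AS Ω).D_mem z _ _ (hB1 z ⟨hzG, hz⟩)
      rw [map_sub] at h3
      simpa using add_mem h3 (ha₁ z hzG)
    · have h3 := (AS Ω).D_mem z _ _ (hB2 z ⟨hzG, hz⟩)
      rw [map_sub] at h3
      simpa using add_mem h3 (ha₂ z hzG)
  have hB : IsCompact (B₁ ∪ B₂) := h₁.union h₂
  have hBS : B₁ ∪ B₂ ⊆ S := union_subset h1S h2S
  obtain ⟨c, e, hc, he, hce⟩ := ext_base (phi π hπ G hG) hS hB hBS (by
      intro w hw n
      refine cone_ex_of_acy (phi π hπ G hG) one w (one_D_mem w) (acy_singleton w) ?_ n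
      rw [push_acy]
      exact hf w hw) (n := k + 1) (y := a₂ + k₁) (by rw [push_coc]; exact hcoc) hex
  have hGS' : G ∩ π ⁻¹' S = G := by
    ext x
    exact ⟨fun hx => hx.1, fun hx => ⟨hx, hGS x hx⟩⟩
  rw [push_coc, hGS'] at hc
  have hce' : ∀ z ∈ G ∩ π ⁻¹' (B₁ ∪ B₂), c - (a₂ + k₁ - pb π e) ∈ (AS Ω).N z (k + 1) := by
    rw [forall_push_N] at hce
    exact hce
  refine ⟨c, hc, ?_⟩
  have key : ∀ w ∈ B₁ ∪ B₂, ∀ a₀ : Ch Ω,
      (∀ z ∈ G ∩ π ⁻¹' {w}, (a₂ + k₁) - a₀ ∈ (AS Ω).N z (k + 1)) →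
      (AS Ω).Cob (G ∩ π ⁻¹' {w}) (k + 1) (a₀ - c) := by
    intro w hw a₀ ha0
    have h3 : (AS E).Cob {w} (k + 1) e :=
      (acy_singleton w).2.2 (k + 1) (by omega) e (he.mono (singleton_subset_iff.2 hw))
    have h4 : (AS Ω).Cob (G ∩ π ⁻¹' {w}) (k + 1) (pb π e) :=
      cob_pb (fun x _ => hπ.continuousAt) (fun x hx => hx.2) h3
    have h5 : (AS Ω).Cob (G ∩ π ⁻¹' {w}) (k + 1) (a₀ - c - pb π e) := by
      refine Cob.of_mem fun z hz => ?_
      have h6 := hce' z ⟨hz.1, by
        have : π z = w := hz.2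
        rw [mem_preimage, this]; exact hw⟩
      have h7 := neg_mem (add_mem h6 (ha0 z hz))
      convert h7 using 1
      abel
    have := h5.add h4
    simpa using this
  rintro w (hw | hw)
  · refine (hf₁ w hw).congr (key w (Or.inl hw) a₁ fun z hz => hB1 z ⟨hz.1, ?_⟩)
    have : π z = w := hz.2
    rw [mem_preimage, this]; exact hw
  · refine (hf₂ w hw).congr (key w (Or.inr hw) a₂ fun z hz => hB2 z ⟨hz.1, ?_⟩)
    have : π z = w := hz.2
    rw [mem_preimage, this]; exact hw

/-- `S^k × S^k` embeds in `ℝ^{2k+1}`. -/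
theorem exists_embed (k : ℕ) : ∃ g : SS k × SS k → EuclideanSpace ℝ (Fin (2 * k + 1)),
    Continuous g ∧ Function.Injective g := by
  refine ⟨fun z => WithLp.toLp 2 (fun i => if h : (i : ℕ) < k + 1 then
    (2 + (z.2 : EuclideanSpace ℝ (Fin (k + 1))) 0) *
      (z.1 : EuclideanSpace ℝ (Fin (k + 1))) ⟨i, h⟩
    else (z.2 : EuclideanSpace ℝ (Fin (k + 1))) ⟨i - k, by omega⟩), ?_, ?_⟩
  · have hco : ∀ j : Fin (k + 1), Continuous (fun x : EuclideanSpace ℝ (Fin (k + 1)) => x j) :=
      fun j => (EuclideanSpace.proj (𝕜 := ℝ) j : EuclideanSpace ℝ (Fin (k + 1)) →L[ℝ] ℝ).continuous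
    refine (PiLp.continuous_toLp 2 _).comp (continuous_pi fun i => ?_)
    by_cases h : (i : ℕ) < k + 1
    · simp only [dif_pos h]
      exact (continuous_const.add ((hco 0).comp (continuous_subtype_val.comp continuous_snd))).mul
        ((hco ⟨i, h⟩).comp (continuous_subtype_val.comp continuous_fst))
    · simp only [dif_neg h]
      exact (hco ⟨i - k, by omega⟩).comp (continuous_subtype_val.comp continuous_snd)
  · rintro ⟨p, q⟩ ⟨p', q'⟩ h
    have hc : ∀ i : Fin (2 * k + 1), (if h : (i : ℕ) < k + 1 then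
        (2 + (q : EuclideanSpace ℝ (Fin (k + 1))) 0) *
          (p : EuclideanSpace ℝ (Fin (k + 1))) ⟨i, h⟩
        else (q : EuclideanSpace ℝ (Fin (k + 1))) ⟨i - k, by omega⟩) =
        (if h : (i : ℕ) < k + 1 then
        (2 + (q' : EuclideanSpace ℝ (Fin (k + 1))) 0) *
          (p' : EuclideanSpace ℝ (Fin (k + 1))) ⟨i, h⟩
        else (q' : EuclideanSpace ℝ (Fin (k + 1))) ⟨i - k, by omega⟩) :=
      fun i => congrFun (congrArg WithLp.ofLp h) i
    have h1 : ∀ j : Fin (k + 1), (2 + (q : EuclideanSpace ℝ (Fin (k + 1))) 0) *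
        (p : EuclideanSpace ℝ (Fin (k + 1))) j = (2 + (q' : EuclideanSpace ℝ (Fin (k + 1))) 0) *
        (p' : EuclideanSpace ℝ (Fin (k + 1))) j := by
      intro j
      have := hc ⟨j, by omega⟩
      simpa [j.2] using this
    have h2 : ∀ j : Fin (k + 1), j ≠ 0 → (q : EuclideanSpace ℝ (Fin (k + 1))) j =
        (q' : EuclideanSpace ℝ (Fin (k + 1))) j := by
      intro j hj
      have hj' : (j : ℕ) ≠ 0 := fun h0 => hj (Fin.ext h0)
      have := hc ⟨j + k, by omega⟩
      rw [dif_neg (by simp only; omega), dif_neg (by simp only; omega)] at this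
      have e : (⟨(j : ℕ) + k - k, by omega⟩ : Fin (k + 1)) = j := Fin.ext (by simp)
      simp only [e] at this
      exact this
    have np : ‖(p : EuclideanSpace ℝ (Fin (k + 1)))‖ = 1 := mem_sphere_zero_iff_norm.1 p.2
    have np' : ‖(p' : EuclideanSpace ℝ (Fin (k + 1)))‖ = 1 := mem_sphere_zero_iff_norm.1 p'.2
    have nq : ‖(q : EuclideanSpace ℝ (Fin (k + 1)))‖ = 1 := mem_sphere_zero_iff_norm.1 q.2
    have nq' : ‖(q' : EuclideanSpace ℝ (Fin (k + 1)))‖ = 1 := mem_sphere_zero_iff_norm.1 q'.2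
    have b : |(q : EuclideanSpace ℝ (Fin (k + 1))) 0| ≤ 1 := by
      have := PiLp.norm_apply_le (q : EuclideanSpace ℝ (Fin (k + 1))) 0
      rw [nq, Real.norm_eq_abs] at this; exact this
    have b' : |(q' : EuclideanSpace ℝ (Fin (k + 1))) 0| ≤ 1 := by
      have := PiLp.norm_apply_le (q' : EuclideanSpace ℝ (Fin (k + 1))) 0
      rw [nq', Real.norm_eq_abs] at this; exact this
    rw [abs_le] at b b'
    have h3 : (2 + (q : EuclideanSpace ℝ (Fin (k + 1))) 0) • (p : EuclideanSpace ℝ (Fin (k + 1))) =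
        (2 + (q' : EuclideanSpace ℝ (Fin (k + 1))) 0) • (p' : EuclideanSpace ℝ (Fin (k + 1))) := by
      ext j
      rw [PiLp.smul_apply, PiLp.smul_apply, smul_eq_mul, smul_eq_mul]
      exact h1 j
    have h4 : (q : EuclideanSpace ℝ (Fin (k + 1))) 0 = (q' : EuclideanSpace ℝ (Fin (k + 1))) 0 := by
      have h5 := congrArg norm h3
      rw [norm_smul, norm_smul, np, np', mul_one, mul_one, Real.norm_eq_abs, Real.norm_eq_abs,
        abs_of_pos (by linarith [b.1]), abs_of_pos (by linarith [b'.1])] at h5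
      linarith
    have hq : q = q' := by
      apply Subtype.ext
      ext j
      by_cases hj : j = 0
      · rw [hj]; exact h4
      · exact h2 j hj
    have hp : p = p' := by
      apply Subtype.ext
      rw [h4] at h3
      have h6 : (2 + (q' : EuclideanSpace ℝ (Fin (k + 1))) 0) ≠ 0 := by
        have := b'.1
        intro h0
        linarith
      exact smul_right_injective _ h6 h3
    rw [hp, hq]

theorem job12819_connected (k : ℕ) (hk : 1 ≤ k) : ConnectedSpace (SS k) := by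
  have h : 1 < Module.rank ℝ (EuclideanSpace ℝ (Fin (k + 1))) := by
    rw [← Module.finrank_eq_rank, finrank_euclideanSpace_fin]
    exact_mod_cast (by omega : 1 < k + 1)
  exact isConnected_iff_connectedSpace.mp (isConnected_sphere h 0 zero_le_one)

/-- compact proper subsets of `S^k × S^k` have no cohomology in index `≥ 2 k + 1`. -/
theorem prod_top {k : ℕ} (hk : 1 ≤ k) {Z : Set (SS k × SS k)} (hZ : IsCompact Z)
    (hne : Z ≠ univ) (n : ℕ) (hn : 2 * k + 1 ≤ n) : (AS (SS k × SS k)).Ex Z n := by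
  rcases Nat.lt_or_ge (2 * k + 1) n with h | h
  · obtain ⟨g, hgc, hgi⟩ := exists_embed k
    refine ex_of_embed (m := 2 * k + 1) hZ (φ := fun x => WithLp.ofLp (g x)) ?_ ?_ (by omega)
      (by omega)
    · exact ((PiLp.continuous_ofLp 2 _).comp hgc).continuousOn
    · intro x _ y _ hxy
      exact hgi (WithLp.ofLp_injective 2 hxy)
  · have hn' : n = 2 * k + 1 := by omega
    subst hn'
    haveI : ConnectedSpace (SS k) := job12819_connected k hk
    haveI : Fact (Module.finrank ℝ (EuclideanSpace ℝ (Fin (k + 1))) = k + 1) :=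
      ⟨finrank_euclideanSpace_fin⟩
    let e : (EuclideanSpace ℝ (Fin k) × EuclideanSpace ℝ (Fin k)) ≃L[ℝ]
        EuclideanSpace ℝ (Fin (2 * k)) :=
      ContinuousLinearEquiv.ofFinrankEq (by simp; ring)
    let e' : (ModelProd (EuclideanSpace ℝ (Fin k)) (EuclideanSpace ℝ (Fin k))) ≃ₜ
        EuclideanSpace ℝ (Fin (2 * k)) := e.toHomeomorph
    letI i1 : ChartedSpace (EuclideanSpace ℝ (Fin (2 * k)))
        (ModelProd (EuclideanSpace ℝ (Fin k)) (EuclideanSpace ℝ (Fin k))) :=
      e'.toOpenPartialHomeomorph.singletonChartedSpace rfl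
    letI i2 : ChartedSpace (EuclideanSpace ℝ (Fin (2 * k))) (SS k × SS k) :=
      ChartedSpace.comp (EuclideanSpace ℝ (Fin (2 * k)))
        (ModelProd (EuclideanSpace ℝ (Fin k)) (EuclideanSpace ℝ (Fin k))) (SS k × SS k)
    exact ex_top (m := 2 * k) (by omega) hZ.isClosed hne

/-- the difference of the two components -/
def j12820_v {X E R : Type*} [NormedAddCommGroup R] (g : X → R) (q : (X × E) × (X × E)) : R :=
  g q.1.1 - g q.2.1

/-- the normalised difference -/
noncomputable def j12820_s {X E R : Type*} [NormedAddCommGroup R] [InnerProductSpace ℝ R]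
    (g : X → R) (q : (X × E) × (X × E)) : R := ‖j12820_v g q‖⁻¹ • j12820_v g q

/-- the compact set -/
def j12820_K {X E : Type*} [MetricSpace X] [CompactSpace X] [NormedAddCommGroup E]
    [InnerProductSpace ℝ E] [FiniteDimensional ℝ E] (f : X → E) : Set ((X × E) × (X × E)) :=
  {q | q.1 ∈ GG f ∧ q.2 ∈ GG f ∧ q.1.2 = - q.2.2}

theorem j12820_ne {X E R : Type*} [MetricSpace X] [CompactSpace X] [NormedAddCommGroup E]
    [InnerProductSpace ℝ E] [FiniteDimensional ℝ E] [NormedAddCommGroup R]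
    {f : X → E} (h0 : ∀ z : E, z ≠ 0 → ∃ x, 0 < ⟪z, f x⟫_ℝ) {g : X → R}
    (hgi : Function.Injective g) (q : (X × E) × (X × E)) (hq : q ∈ j12820_K f) :
    j12820_v g q ≠ 0 := by
  intro hv
  obtain ⟨⟨h1, h2⟩, ⟨h3, h4⟩, h5⟩ := hq
  have hx : q.1.1 = q.2.1 := hgi (sub_eq_zero.1 hv)
  have hz : q.1.2 ≠ 0 := by
    intro h
    rw [h, norm_zero] at h1
    exact zero_ne_one h1
  have hz' : q.2.2 ≠ 0 := by
    intro h
    rw [h, norm_zero] at h3
    exact zero_ne_one h3
  obtain ⟨y, hy⟩ := h0 _ hz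
  obtain ⟨y', hy'⟩ := h0 _ hz'
  have a1 := h2 y
  have a2 := h4 y'
  rw [hx, h5, inner_neg_left, inner_neg_left] at a1
  rw [h5, inner_neg_left] at hy
  linarith

theorem j12820_compact {X E : Type*} [MetricSpace X] [CompactSpace X] [NormedAddCommGroup E]
    [InnerProductSpace ℝ E] [FiniteDimensional ℝ E] {f : X → E} (hf : Continuous f) :
    IsCompact (j12820_K f) := by
  have h1 := (isCompact_GG hf).prod (isCompact_GG hf)
  have h2 : IsClosed {q : (X × E) × (X × E) | q.1.2 = - q.2.2} :=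
    isClosed_eq (by fun_prop) (by fun_prop)
  have e : j12820_K f = (GG f ×ˢ GG f) ∩ {q : (X × E) × (X × E) | q.1.2 = - q.2.2} := by
    ext q
    constructor
    · rintro ⟨h1, h2, h3⟩
      exact ⟨⟨h1, h2⟩, h3⟩
    · rintro ⟨⟨h1, h2⟩, h3⟩
      exact ⟨h1, h2, h3⟩
  rw [e]
  exact h1.inter_right h2

theorem j12820_top {X E : Type*} [MetricSpace X] [CompactSpace X] [NormedAddCommGroup E]
    [InnerProductSpace ℝ E] [FiniteDimensional ℝ E] {f : X → E} (hf : Continuous f)
    (h0 : ∀ z : E, z ≠ 0 → ∃ x, 0 < ⟪z, f x⟫_ℝ) (z : E) (hz : ‖z‖ = 1) :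
    ∃ x, x ∈ top f z := by
  have hz0 : z ≠ 0 := by
    intro h
    rw [h, norm_zero] at hz
    exact zero_ne_one hz
  obtain ⟨x0, -⟩ := h0 z hz0
  have hc : Continuous (fun x => ⟪z, f x⟫_ℝ) := continuous_const.inner hf
  obtain ⟨x, -, hx⟩ := isCompact_univ.exists_isMaxOn (f := fun x => ⟪z, f x⟫_ℝ)
    ⟨x0, mem_univ x0⟩ hc.continuousOn
  exact ⟨x, fun y => hx (mem_univ y)⟩

/-- the antipodal fibre product. -/
theorem exists_H {X E R : Type*} [MetricSpace X] [CompactSpace X] [NormedAddCommGroup E]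
    [InnerProductSpace ℝ E] [FiniteDimensional ℝ E] [NormedAddCommGroup R]
    [InnerProductSpace ℝ R] {f : X → E} (hf : Continuous f)
    (h0 : ∀ z : E, z ≠ 0 → ∃ x, 0 < ⟪z, f x⟫_ℝ) {g : X → R} (hg : Continuous g)
    (hgi : Function.Injective g) (hE : ∃ z : E, ‖z‖ = 1) :
    ∃ H : Set ((X × E) × (X × E) × R), IsCompact H ∧ H.Nonempty ∧ (∀ p ∈ H, ‖p.2.2‖ = 1) ∧
      (∀ p ∈ H, p.1 ∈ GG f ∧ p.2.1 ∈ GG f ∧ p.1.2 = - p.2.1.2) ∧
      (∀ ξ ∈ GG f, ∀ η ∈ GG f, ξ.2 = - η.2 → ∃ s, (ξ, η, s) ∈ H) ∧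
      (∀ ξ η s s', (ξ, η, s) ∈ H → (ξ, η, s') ∈ H → s = s') ∧
      (∀ p ∈ H, (p.2.1, p.1, - p.2.2) ∈ H) := by
  have hK := j12820_compact hf
  have hvc : Continuous (j12820_v (E := E) g) := by
    unfold j12820_v
    exact (hg.comp (continuous_fst.comp continuous_fst)).sub
      (hg.comp (continuous_fst.comp continuous_snd))
  have hsc : ContinuousOn (j12820_s (E := E) g) (j12820_K f) := by
    unfold j12820_s
    apply ContinuousOn.smul
    · apply ContinuousOn.inv₀
      · exact hvc.norm.continuousOn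
      · intro q hq
        rw [norm_ne_zero_iff]
        exact j12820_ne h0 hgi q hq
    · exact hvc.continuousOn
  refine ⟨(fun q : (X × E) × (X × E) => (q.1, q.2, j12820_s g q)) '' j12820_K f, ?_, ?_, ?_, ?_,
    ?_, ?_, ?_⟩
  · apply hK.image_of_continuousOn
    exact continuous_fst.continuousOn.prodMk (continuous_snd.continuousOn.prodMk hsc)
  · obtain ⟨z, hz⟩ := hE
    obtain ⟨x, hx⟩ := j12820_top hf h0 z hz
    obtain ⟨y, hy⟩ := j12820_top hf h0 (-z) (by rw [norm_neg]; exact hz)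
    refine ⟨_, ((x, z), (y, -z)), ⟨⟨hz, hx⟩, ⟨by rw [norm_neg]; exact hz, hy⟩, ?_⟩, rfl⟩
    exact (neg_neg z).symm
  · rintro _ ⟨q, hq, rfl⟩
    show ‖j12820_s g q‖ = 1
    unfold j12820_s
    rw [norm_smul, norm_inv, norm_norm]
    exact inv_mul_cancel₀ (norm_ne_zero_iff.2 (j12820_ne h0 hgi q hq))
  · rintro _ ⟨q, hq, rfl⟩
    exact hq
  · intro ξ hξ η hη hξη
    exact ⟨_, (ξ, η), ⟨hξ, hη, hξη⟩, rfl⟩
  · rintro ξ η s s' ⟨q, hq, hqe⟩ ⟨q', hq', hqe'⟩
    have a1 : q.1 = ξ := congrArg Prod.fst hqe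
    have a2 : q.2 = η := congrArg (fun t => t.2.1) hqe
    have a3 : j12820_s g q = s := congrArg (fun t => t.2.2) hqe
    have b1 : q'.1 = ξ := congrArg Prod.fst hqe'
    have b2 : q'.2 = η := congrArg (fun t => t.2.1) hqe'
    have b3 : j12820_s g q' = s' := congrArg (fun t => t.2.2) hqe'
    have e : q = q' := Prod.ext (a1.trans b1.symm) (a2.trans b2.symm)
    rw [← a3, ← b3, e]
  · rintro _ ⟨q, ⟨hq1, hq2, hq3⟩, rfl⟩
    refine ⟨(q.2, q.1), ⟨hq2, hq1, ?_⟩, ?_⟩
    · show q.2.2 = - q.1.2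
      rw [hq3, neg_neg]
    · show (q.2, q.1, j12820_s g (q.2, q.1)) = (q.2, q.1, - j12820_s g q)
      have e : j12820_s g (q.2, q.1) = - j12820_s g q := by
        unfold j12820_s
        have e1 : j12820_v g (q.2, q.1) = - j12820_v g q := by
          unfold j12820_v
          rw [neg_sub]
        rw [e1, norm_neg, smul_neg]
      rw [e]

theorem j12821_conn {k : ℕ} (hk : 1 ≤ k) : ConnectedSpace (SS k × SS k) := by
  have h1 : IsConnected (Metric.sphere (0 : EuclideanSpace ℝ (Fin (k + 1))) 1) := by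
    refine isConnected_sphere ?_ 0 zero_le_one
    rw [rank_eq_card_basis (EuclideanSpace.basisFun (Fin (k + 1)) ℝ).toBasis]
    simp only [Fintype.card_fin]
    exact_mod_cast (by omega : 1 < k + 1)
  rw [isConnected_iff_connectedSpace] at h1
  have : ConnectedSpace (SS k) := h1
  infer_instance

theorem j12821_neg_eq {Ω : Type*} (c : Ch Ω) : -c = c := by
  funext l
  have := add_self2 (c l)
  rw [Pi.neg_apply]
  exact neg_eq_of_add_eq_zero_left this

theorem j12821_sub_eq {Ω : Type*} (b c : Ch Ω) : b - c = b + c := by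
  rw [sub_eq_add_neg, j12821_neg_eq]

theorem j12821_add_self {Ω : Type*} (c : Ch Ω) : c + c = 0 := by
  funext l
  exact add_self2 (c l)

/-- sum rule in characteristic two -/
theorem j12821_comb {Ω : Type*} [MetricSpace Ω] {Z : Set Ω} {n : ℕ} {a b c : Ch Ω}
    (h : (AS Ω).Cob Z n a) (h' : (AS Ω).Cob Z n b) (e : a + b = c) : (AS Ω).Cob Z n c := by
  rw [← e]; exact h.add h'

/-- the type of the top sets of a centrally symmetric tight map. -/
theorem top_types {k N : ℕ} (hk : 1 ≤ k) {f : SS k × SS k → EuclideanSpace ℝ (Fin N)}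
    (hf : Continuous f) (hinj : Function.Injective f)
    (h0 : ∀ z : EuclideanSpace ℝ (Fin N), z ≠ 0 → ∃ x, 0 < ⟪z, f x⟫_ℝ)
    (hsym : ∀ x, ∃ y, f y = - f x)
    (hsurj : ∀ z : EuclideanSpace ℝ (Fin N), z ≠ 0 → ∀ n, 1 ≤ n → ∀ c,
      (AS (SS k × SS k)).Coc (top f z) n c →
      ∃ c', (AS (SS k × SS k)).Coc univ n c' ∧ (AS (SS k × SS k)).Cob (top f z) n (c - c'))
    {θ : Ch (SS k)} (hθ : (AS (SS k)).Coc univ (k + 1) θ)
    (ht : (AS (SS k)).AType one k θ univ)
    (hneg : (AS (SS k)).Cob univ (k + 1) (pb Neg.neg θ - θ))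
    (z : EuclideanSpace ℝ (Fin N)) (hz : ‖z‖ = 1) :
    ((AS (SS k × SS k)).Acy one (top f z) ∧ (AS (SS k × SS k)).Acy one (top f (-z))) ∨
    ((AS (SS k × SS k)).AType one k (pb Prod.fst θ) (top f z) ∧
      ¬ (AS (SS k × SS k)).Acy one (top f (-z))) ∨
    ((AS (SS k × SS k)).AType one k (pb Prod.snd θ) (top f z) ∧
      (AS (SS k × SS k)).Cob (top f z) (k + 1) (pb Prod.fst θ) ∧
      ¬ (AS (SS k × SS k)).Acy one (top f (-z))) := by
  haveI := j12821_conn hk
  choose σ hσ using hsym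
  have hσσ : ∀ x, σ (σ x) = x := fun x => hinj (by rw [hσ, hσ, neg_neg])
  have hσc : Continuous σ := by
    have hemb := hf.isClosedEmbedding hinj
    rw [hemb.toIsEmbedding.toIsInducing.continuous_iff]
    have : f ∘ σ = fun x => - f x := by funext x; exact hσ x
    rw [this]
    exact hf.neg
  have hz0 : z ≠ 0 := by rintro rfl; simp at hz
  have hnz0 : -z ≠ 0 := neg_ne_zero.2 hz0
  -- sigma exchanges the two top sets
  have hmap : ∀ (w : EuclideanSpace ℝ (Fin N)) (x : SS k × SS k), x ∈ top f w → σ x ∈ top f (-w) := by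
    intro w x hx y
    have h1 := hx (σ y)
    rw [hσ, inner_neg_right] at h1
    rw [hσ, inner_neg_left, inner_neg_left, inner_neg_right, neg_neg]
    exact h1
  have hmPQ : MapsTo σ (top f z) (top f (-z)) := fun x hx => hmap z x hx
  have hmQP : MapsTo σ (top f (-z)) (top f z) := fun x hx => by
    have := hmap (-z) x hx
    rwa [neg_neg] at this
  -- general facts
  have hne : ∀ w : EuclideanSpace ℝ (Fin N), (top f w).Nonempty := by
    intro w
    obtain ⟨x, -, hx⟩ := isCompact_univ.exists_isMaxOn (univ_nonempty (α := SS k × SS k))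
      ((continuous_const.inner hf : Continuous fun x => ⟪w, f x⟫_ℝ).continuousOn)
    exact ⟨x, fun y => hx (mem_univ y)⟩
  have hcomp : ∀ w : EuclideanSpace ℝ (Fin N), IsCompact (top f w) := fun w => isCompact_top hf w
  have hdisj : Disjoint (top f z) (top f (-z)) := by
    rw [Set.disjoint_left]
    intro x hx hx'
    obtain ⟨y, hy⟩ := h0 z hz0
    obtain ⟨y', hy'⟩ := h0 (-z) hnz0
    have h1 := hx y
    have h2 := hx' y'
    rw [inner_neg_left] at hy'
    rw [inner_neg_left, inner_neg_left] at h2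
    linarith
  have huniv : ∀ w : EuclideanSpace ℝ (Fin N), w ≠ 0 → top f w ≠ univ := by
    intro w hw h
    obtain ⟨y, hy⟩ := h0 w hw
    obtain ⟨y', hy'⟩ := h0 (-w) (neg_ne_zero.2 hw)
    have h1 : y' ∈ top f w := h ▸ mem_univ y'
    have h2 := h1 y
    rw [inner_neg_left] at hy'
    linarith
  have hF1 : ∀ w : EuclideanSpace ℝ (Fin N), w ≠ 0 → ∀ c, (AS (SS k × SS k)).Coc (top f w) 1 c →
      (∀ x ∈ top f w, c ∈ (AS (SS k × SS k)).N x 1) ∨
        ∀ x ∈ top f w, c - one ∈ (AS (SS k × SS k)).N x 1 := by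
    intro w hw c hc
    obtain ⟨c', hc', hcob⟩ := hsurj w hw 1 le_rfl c hc
    have h0 := cob_one.1 hcob
    rcases coc_one_connected c' hc' with h | h
    · left
      intro x hx
      simpa using add_mem (h0 x hx) (h x (mem_univ x))
    · right
      intro x hx
      have := add_mem (h0 x hx) (h x (mem_univ x))
      simpa using this
  have hF2 : ∀ w : EuclideanSpace ℝ (Fin N), w ≠ 0 → ∀ n, 2 ≤ n → n ≠ k + 1 →
      (AS (SS k × SS k)).Ex (top f w) n := by
    intro w hw n hn hnk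
    rcases Nat.lt_or_ge (2 * k) n with h | h
    · exact prod_top hk (hcomp w) (huniv w hw) n (by omega)
    · intro c hc
      obtain ⟨c', hc', hcob⟩ := hsurj w hw n (by omega) c hc
      have := hcob.add ((prod_ex hk hθ ht n hn h hnk c' hc').mono (subset_univ _))
      simpa using this
  set α : Ch (SS k × SS k) := pb Prod.fst θ with hα
  set β : Ch (SS k × SS k) := pb Prod.snd θ with hβ
  have hαc : (AS (SS k × SS k)).Coc univ (k + 1) α :=
    coc_pb (fun x _ => continuous_fst.continuousAt) (mapsTo_univ _ _) hθ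
  have hβc : (AS (SS k × SS k)).Coc univ (k + 1) β :=
    coc_pb (fun x _ => continuous_snd.continuousAt) (mapsTo_univ _ _) hθ
  have hF3 : ∀ w : EuclideanSpace ℝ (Fin N), w ≠ 0 → ∀ c,
      (AS (SS k × SS k)).Coc (top f w) (k + 1) c →
      (AS (SS k × SS k)).Cob (top f w) (k + 1) c ∨
      (AS (SS k × SS k)).Cob (top f w) (k + 1) (c - α) ∨
      (AS (SS k × SS k)).Cob (top f w) (k + 1) (c - β) ∨
      (AS (SS k × SS k)).Cob (top f w) (k + 1) (c - (α + β)) := by
    intro w hw c hc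
    obtain ⟨c', hc', hcob⟩ := hsurj w hw (k + 1) (by omega) c hc
    rcases prod_mid hk hθ ht c' hc' with h | h | h | h
    · left
      exact j12821_comb hcob (h.mono (subset_univ _)) (by abel)
    · right; left
      exact j12821_comb hcob (h.mono (subset_univ _)) (by abel)
    · right; right; left
      exact j12821_comb hcob (h.mono (subset_univ _)) (by abel)
    · right; right; right
      exact j12821_comb hcob (h.mono (subset_univ _)) (by abel)
  -- pulling back along sigma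
  have hσat : ∀ (Z : Set (SS k × SS k)), ∀ x ∈ Z, ContinuousAt σ x := fun Z x _ => hσc.continuousAt
  have hpbσ : ∀ c : Ch (SS k × SS k), pb σ (pb σ c) = c := by
    intro c
    funext l
    have e : (l.map σ).map σ = l := by
      rw [List.map_map]
      have : σ ∘ σ = id := by funext x; exact hσσ x
      rw [this, List.map_id]
    change c ((l.map σ).map σ) = c l
    rw [e]
  have hback : ∀ c : Ch (SS k × SS k), (AS (SS k × SS k)).Cob (top f (-z)) (k + 1) (pb σ c) →
      (AS (SS k × SS k)).Cob (top f z) (k + 1) c := by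
    intro c hc
    have := cob_pb (hσat _) hmPQ hc
    rwa [hpbσ] at this
  have hAcy : (AS (SS k × SS k)).Acy one (top f (-z)) → (AS (SS k × SS k)).Acy one (top f z) :=
    fun h => acy_retract (hσat _) (hσat _) hmPQ hmQP (fun x _ => hσσ x) (hne _) h
  have hAcy' : (AS (SS k × SS k)).Acy one (top f z) → (AS (SS k × SS k)).Acy one (top f (-z)) :=
    fun h => acy_retract (hσat _) (hσat _) hmQP hmPQ (fun x _ => hσσ x) (hne _) h
  -- not all three classes are non-zero
  have hA : (AS (SS k × SS k)).Cob (top f z) (k + 1) α ∨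
      (AS (SS k × SS k)).Cob (top f z) (k + 1) β ∨
      (AS (SS k × SS k)).Cob (top f z) (k + 1) (α + β) := by
    by_contra hcon
    push Not at hcon
    obtain ⟨h4, h5, h6⟩ := hcon
    have hQβ : (AS (SS k × SS k)).Cob (top f (-z)) (k + 1) β :=
      rank_le_one hk hθ hneg (hcomp z) (hcomp (-z)) hdisj (hne z) (hF1 z hz0) (hF2 z hz0)
        (hF2 (-z) hnz0 (2 * k + 1) (by omega) (by omega)) (hF3 z hz0) h4 h5 h6
    have hQ : ∀ c, (AS (SS k × SS k)).Coc (top f (-z)) (k + 1) c →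
        (AS (SS k × SS k)).Cob (top f (-z)) (k + 1) c ∨
        (AS (SS k × SS k)).Cob (top f (-z)) (k + 1) (c - α) := by
      intro c hc
      rcases hF3 (-z) hnz0 c hc with h | h | h | h
      · exact Or.inl h
      · exact Or.inr h
      · exact Or.inl (j12821_comb h hQβ (by abel))
      · exact Or.inr (j12821_comb h hQβ (by abel))
    have hσα : (AS (SS k × SS k)).Coc (top f (-z)) (k + 1) (pb σ α) :=
      coc_pb (hσat _) (mapsTo_univ _ _) hαc
    have hσβ : (AS (SS k × SS k)).Coc (top f (-z)) (k + 1) (pb σ β) :=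
      coc_pb (hσat _) (mapsTo_univ _ _) hβc
    rcases hQ _ hσα with h | h
    · exact h4 (hback _ h)
    · rcases hQ _ hσβ with h' | h'
      · exact h5 (hback _ h')
      · refine h6 (hback _ ?_)
        refine j12821_comb h h' ?_
        have e1 : pb σ (α + β) = pb σ α + pb σ β := rfl
        rw [e1, j12821_sub_eq, j12821_sub_eq]
        have e2 := j12821_add_self α
        have e3 : pb σ α + α + (pb σ β + α) = pb σ α + pb σ β + (α + α) := by abel
        rw [e3, e2, add_zero]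
  by_cases hα0 : (AS (SS k × SS k)).Cob (top f z) (k + 1) α
  · by_cases hβ0 : (AS (SS k × SS k)).Cob (top f z) (k + 1) β
    · left
      have hac : (AS (SS k × SS k)).Acy one (top f z) := by
        refine ⟨not_one_mem (hne z), hF1 z hz0, fun n hn => ?_⟩
        by_cases hnk : n = k + 1
        · subst hnk
          intro c hc
          rcases hF3 z hz0 c hc with h | h | h | h
          · exact h
          · exact j12821_comb h hα0 (by abel)
          · exact j12821_comb h hβ0 (by abel)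
          · exact j12821_comb h (hα0.add hβ0) (by abel)
        · exact hF2 z hz0 n hn hnk
      exact ⟨hac, hAcy' hac⟩
    · right; right
      refine ⟨⟨not_one_mem (hne z), hF1 z hz0, hF2 z hz0, ?_, hβ0⟩, hα0, ?_⟩
      · intro c hc
        rcases hF3 z hz0 c hc with h | h | h | h
        · exact Or.inl h
        · exact Or.inl (j12821_comb h hα0 (by abel))
        · exact Or.inr h
        · exact Or.inr (j12821_comb h hα0 (by abel))
      · intro h
        exact hβ0 ((hAcy h).2.2 (k + 1) (by omega) β (hβc.mono (subset_univ _)))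
  · right; left
    refine ⟨⟨not_one_mem (hne z), hF1 z hz0, hF2 z hz0, ?_, hα0⟩, ?_⟩
    · have hA' := hA.resolve_left hα0
      intro c hc
      rcases hF3 z hz0 c hc with h | h | h | h
      · exact Or.inl h
      · exact Or.inr h
      · rcases hA' with hb | hb
        · exact Or.inl (j12821_comb h hb (by abel))
        · refine Or.inr (j12821_comb h hb ?_)
          rw [j12821_sub_eq, j12821_sub_eq]
          have e3 : c + β + (α + β) = c + α + (β + β) := by abel
          rw [e3, j12821_add_self, add_zero]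
      · rcases hA' with hb | hb
        · exact Or.inr (j12821_comb h hb (by abel))
        · exact Or.inl (j12821_comb h hb (by abel))
    · intro h
      exact hα0 ((hAcy h).2.2 (k + 1) (by omega) α (hαc.mono (subset_univ _)))

/-- the main theorem, metric form. -/
theorem sym_main {k N : ℕ} (hk : 1 ≤ k) (hN : 2 * k + 3 ≤ N)
    {f : SS k × SS k → EuclideanSpace ℝ (Fin N)}
    (hf : Continuous f) (hinj : Function.Injective f)
    (h0 : ∀ z : EuclideanSpace ℝ (Fin N), z ≠ 0 → ∃ x, 0 < ⟪z, f x⟫_ℝ)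
    (hsym : ∀ x, ∃ y, f y = - f x)
    (hsurj : ∀ z : EuclideanSpace ℝ (Fin N), z ≠ 0 → ∀ n, 1 ≤ n → ∀ c,
      (AS (SS k × SS k)).Coc (top f z) n c →
      ∃ c', (AS (SS k × SS k)).Coc univ n c' ∧ (AS (SS k × SS k)).Cob (top f z) n (c - c')) :
    False := by
  classical
  obtain ⟨θ, hθ, ht, hneg⟩ := sphere_type k hk
  set S : Set (EuclideanSpace ℝ (Fin N)) := Metric.sphere 0 1 with hSdef
  have hSc : IsCompact S := isCompact_sphere _ _
  have hG := isCompact_GG hf
  have hT := top_types hk hf hinj h0 hsym hsurj hθ ht hneg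
  have hα0 : (AS (SS k × SS k)).Coc univ (k + 1) (pb Prod.fst θ) :=
    coc_pb (fun _ _ => continuous_fst.continuousAt) (mapsTo_univ _ _) hθ
  have hβ0 : (AS (SS k × SS k)).Coc univ (k + 1) (pb Prod.snd θ) :=
    coc_pb (fun _ _ => continuous_snd.continuousAt) (mapsTo_univ _ _) hθ
  -- fibres of `GG → E`
  have fib1 : ∀ z : EuclideanSpace ℝ (Fin N), ‖z‖ = 1 →
      ∀ q ∈ GG f ∩ Prod.snd ⁻¹' {z}, q.1 ∈ top f z := by
    rintro z hz ⟨x, z'⟩ ⟨h1, h2⟩
    have : z' = z := h2
    subst this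
    exact h1.2
  have fib1' : ∀ z : EuclideanSpace ℝ (Fin N), ‖z‖ = 1 → ∀ x ∈ top f z,
      ((x, z) : (SS k × SS k) × EuclideanSpace ℝ (Fin N)) ∈ GG f ∩ Prod.snd ⁻¹' {z} :=
    fun z hz x hx => ⟨⟨hz, hx⟩, rfl⟩
  have fibAcy : ∀ z : EuclideanSpace ℝ (Fin N), ‖z‖ = 1 →
      (AS (SS k × SS k)).Acy one (top f z) →
      (AS ((SS k × SS k) × EuclideanSpace ℝ (Fin N))).Acy one
        (GG f ∩ Prod.snd ⁻¹' {z}) := by
    intro z hz h
    have hne : (top f z).Nonempty := by
      by_contra hne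
      rw [not_nonempty_iff_eq_empty] at hne
      exact h.1 (by simp [hne])
    refine acy_retract (g := Prod.fst) (g' := fun x => (x, z))
      (fun x _ => continuous_fst.continuousAt)
      (fun x _ => (Continuous.prodMk_left z).continuousAt) (fun q hq => fib1 z hz q hq)
      (fun x hx => fib1' z hz x hx) ?_ ?_ h
    · rintro ⟨x, z'⟩ ⟨h1, h2⟩
      have : z' = z := h2
      rw [this]
    · obtain ⟨x, hx⟩ := hne
      exact ⟨_, fib1' z hz x hx⟩
  have fibA : ∀ a : Ch (SS k × SS k), (AS (SS k × SS k)).Coc univ (k + 1) a →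
      ∀ z : EuclideanSpace ℝ (Fin N), ‖z‖ = 1 →
      (AS (SS k × SS k)).AType one k a (top f z) →
      (AS ((SS k × SS k) × EuclideanSpace ℝ (Fin N))).AType one k (pb Prod.fst a)
        (GG f ∩ Prod.snd ⁻¹' {z}) := by
    intro a ha z hz h
    have hne : (top f z).Nonempty := by
      by_contra hne
      rw [not_nonempty_iff_eq_empty] at hne
      exact h.1 (by simp [hne])
    refine atype_transfer (g := Prod.fst) (g' := fun x => (x, z))
      (fun x _ => continuous_fst.continuousAt)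
      (fun x _ => (Continuous.prodMk_left z).continuousAt) (fun q hq => fib1 z hz q hq)
      (fun x hx => fib1' z hz x hx) ?_ (fun _ _ => rfl) ?_ (ha.mono (subset_univ _)) h
    · rintro ⟨x, z'⟩ ⟨h1, h2⟩
      have : z' = z := h2
      rw [this]
    · obtain ⟨x, hx⟩ := hne
      exact ⟨_, fib1' z hz x hx⟩
  obtain ⟨α, hαdef⟩ : ∃ α : Ch ((SS k × SS k) × EuclideanSpace ℝ (Fin N)),
    α = pb Prod.fst (pb Prod.fst θ) := ⟨_, rfl⟩
  obtain ⟨β, hβdef⟩ : ∃ β : Ch ((SS k × SS k) × EuclideanSpace ℝ (Fin N)),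
    β = pb Prod.fst (pb Prod.snd θ) := ⟨_, rfl⟩
  have hα : (AS ((SS k × SS k) × EuclideanSpace ℝ (Fin N))).Coc (GG f) (k + 1) α := by
    rw [hαdef]
    exact coc_pb (fun _ _ => continuous_fst.continuousAt) (mapsTo_univ _ _) hα0
  have hβ : (AS ((SS k × SS k) × EuclideanSpace ℝ (Fin N))).Coc (GG f) (k + 1) β := by
    rw [hβdef]
    exact coc_pb (fun _ _ => continuous_fst.continuousAt) (mapsTo_univ _ _) hβ0
  -- closed sets of directions
  have hcl : ∀ y : Ch ((SS k × SS k) × EuclideanSpace ℝ (Fin N)),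
      IsClosed {z : EuclideanSpace ℝ (Fin N) |
        ¬ (AS ((SS k × SS k) × EuclideanSpace ℝ (Fin N))).Cob
          (GG f ∩ Prod.snd ⁻¹' {z}) (k + 1) y} := by
    intro y
    rw [← isOpen_compl_iff]
    rw [isOpen_iff_forall_mem_open]
    intro z hz
    have hz' : (PF Prod.snd continuous_snd (GG f) hG).Cob {z} (k + 1) y := by
      rw [push_cob]
      by_contra h
      exact hz h
    obtain ⟨U, hU, hzU, hc⟩ := hz'.isOpen
    refine ⟨U, fun w hw h => h ?_, hU, hzU rfl⟩
    have h2 := hc.mono (singleton_subset_iff.2 hw)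
    rwa [push_cob] at h2
  set B₁ : Set (EuclideanSpace ℝ (Fin N)) := S ∩ {z |
    ¬ (AS ((SS k × SS k) × EuclideanSpace ℝ (Fin N))).Cob
      (GG f ∩ Prod.snd ⁻¹' {z}) (k + 1) α} with hB₁def
  set B₂ : Set (EuclideanSpace ℝ (Fin N)) := S ∩ ({z |
    ¬ (AS ((SS k × SS k) × EuclideanSpace ℝ (Fin N))).Cob
      (GG f ∩ Prod.snd ⁻¹' {z}) (k + 1) β} ∩ {z |
    ¬ (AS ((SS k × SS k) × EuclideanSpace ℝ (Fin N))).Cob
      (GG f ∩ Prod.snd ⁻¹' {z}) (k + 1) (α + β)}) with hB₂def
  have hB₁c : IsCompact B₁ := hSc.inter_right (hcl α)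
  have hB₂c : IsCompact B₂ := hSc.inter_right ((hcl β).inter (hcl (α + β)))
  have hB₁S : B₁ ⊆ S := inter_subset_left
  have hB₂S : B₂ ⊆ S := inter_subset_left
  have hnS : ∀ z ∈ S, ‖z‖ = 1 := fun z hz => by simpa [hSdef] using hz
  -- case analysis
  have case1 : ∀ z ∈ S, (AS (SS k × SS k)).Acy one (top f z) → z ∉ B₁ ∧ z ∉ B₂ := by
    intro z hz h
    have h1 := (fibAcy z (hnS z hz) h).2.2 (k + 1) (by omega)
    exact ⟨fun h2 => h2.2 (h1 _ (hα.mono inter_subset_left)),
      fun h2 => h2.2.1 (h1 _ (hβ.mono inter_subset_left))⟩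
  have case2 : ∀ z ∈ S, (AS (SS k × SS k)).AType one k (pb Prod.fst θ) (top f z) →
      z ∈ B₁ ∧ z ∉ B₂ := by
    intro z hz h
    have h1 := fibA _ hα0 z (hnS z hz) h
    rw [← hαdef] at h1
    refine ⟨⟨hz, h1.2.2.2.2⟩, fun h2 => ?_⟩
    rcases h1.2.2.2.1 β (hβ.mono inter_subset_left) with h3 | h3
    · exact h2.2.1 h3
    · have e : β - α = α + β := by
        rw [CharTwo.sub_eq_add, add_comm]
      rw [e] at h3
      exact h2.2.2 h3
  have case3 : ∀ z ∈ S, (AS (SS k × SS k)).AType one k (pb Prod.snd θ) (top f z) →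
      (AS (SS k × SS k)).Cob (top f z) (k + 1) (pb Prod.fst θ) →
      z ∉ B₁ ∧ z ∈ B₂ := by
    intro z hz h hc
    have h1 := fibA _ hβ0 z (hnS z hz) h
    rw [← hβdef] at h1
    have h2 : (AS ((SS k × SS k) × EuclideanSpace ℝ (Fin N))).Cob
      (GG f ∩ Prod.snd ⁻¹' {z}) (k + 1) α := by
      rw [hαdef]
      exact cob_pb (fun _ _ => continuous_fst.continuousAt)
        (fun q hq => fib1 z (hnS z hz) q hq) hc
    refine ⟨fun h3 => h3.2 h2, hz, h1.2.2.2.2, fun h3 => ?_⟩
    have h4 := h3.sub h2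
    rw [add_sub_cancel_left] at h4
    exact h1.2.2.2.2 h4
  have h12 : Disjoint B₁ B₂ := by
    rw [Set.disjoint_left]
    intro z h1 h2
    have hz := hB₁S h1
    rcases hT z (hnS z hz) with h | h | h
    · exact (case1 z hz h.1).1 h1
    · exact (case2 z hz h.1).2 h2
    · exact (case3 z hz h.1 h.2.1).1 h1
  have hN1 : 1 ≤ N := by omega
  have hSpS : Sp N N = S := sp_eq_sphere N
  have hexS : ∀ m, 2 ≤ m → m ≤ 2 * k + 2 → (AS (EuclideanSpace ℝ (Fin N))).Ex S m := by
    intro m hm hm'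
    rw [← hSpS]
    exact sp_ex hN1 le_rfl m hm (by omega)
  have hGS : ∀ ξ ∈ GG f, ξ.2 ∈ S := by
    intro ξ hξ
    have h1 : ‖ξ.2‖ = 1 := hξ.1
    simpa [hSdef] using h1
  obtain ⟨a, ha, haB⟩ := exists_a hk (π := Prod.snd) continuous_snd hG hSc hB₁c hB₂c h12 hB₁S hB₂S
    hGS hα hβ (fun w hw => by
      have hz := hB₁S hw
      rcases hT w (hnS w hz) with h | h | h
      · exact absurd hw (case1 w hz h.1).1
      · rw [hαdef]
        exact fibA _ hα0 w (hnS w hz) h.1
      · exact absurd hw (case3 w hz h.1 h.2.1).1) (fun w hw => by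
      have hz := hB₂S hw
      rcases hT w (hnS w hz) with h | h | h
      · exact absurd hw (case1 w hz h.1).2
      · exact absurd hw (case2 w hz h.1).2
      · rw [hβdef]
        exact fibA _ hβ0 w (hnS w hz) h.1) (fun w hw => by
      have hz := hw.1
      rcases hT w (hnS w hz) with h | h | h
      · exact fibAcy w (hnS w hz) h.1
      · exact absurd (Or.inl (case2 w hz h.1).1) hw.2
      · exact absurd (Or.inr (case3 w hz h.1 h.2.1).2) hw.2) (hexS (k + 2) (by omega) (by omega))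
  obtain ⟨g, hg, hgi⟩ := exists_embed k
  obtain ⟨H, hHc, hHne, hHn, hH1, hH2, hH3, hH4⟩ := exists_H hf h0 hg hgi
    ⟨EuclideanSpace.single (⟨0, hN1⟩ : Fin N) (1 : ℝ), by simp⟩
  have D : Dat k (Prod.snd : (SS k × SS k) × EuclideanSpace ℝ (Fin N) →
      EuclideanSpace ℝ (Fin N)) (GG f) S (B₁ ∪ B₂) a H := by
    refine { hk := hk, hπ := continuous_snd, hG := hG, hS := hSc, hB := hB₁c.union hB₂c,
             hH := hHc, hBS := union_subset hB₁S hB₂S, hGS := hGS, negB := ?_, negS := ?_,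
             ha := ha, fibB := haB, fibA := ?_, exS := hexS, conS := ?_, H1 := hH1, H2 := hH2,
             H3 := hH3, H4 := hH4 }
    · intro z hz
      have hzS : z ∈ S := (union_subset hB₁S hB₂S) hz
      have hzS' : -z ∈ S := by
        have := hnS z hzS
        simp [hSdef, norm_neg, this]
      have hnacy : ¬ (AS (SS k × SS k)).Acy one (top f (-z)) := by
        rcases hT z (hnS z hzS) with h | h | h
        · have := case1 z hzS h.1
          rcases hz with hz | hz
          · exact absurd hz this.1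
          · exact absurd hz this.2
        · exact h.2
        · exact h.2.2
      rcases hT (-z) (hnS _ hzS') with h | h | h
      · exact absurd h.1 hnacy
      · exact Or.inl (case2 _ hzS' h.1).1
      · exact Or.inr (case3 _ hzS' h.1 h.2.1).2
    · intro z hz
      have := hnS z hz
      simp [hSdef, norm_neg, this]
    · intro w hw
      have hz := hw.1
      rcases hT w (hnS w hz) with h | h | h
      · exact fibAcy w (hnS w hz) h.1
      · exact absurd (Or.inl (case2 w hz h.1).1) hw.2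
      · exact absurd (Or.inr (case3 w hz h.1 h.2.1).2) hw.2
    · rw [← hSpS]
      exact fun c hc => sp_connected (by omega) le_rfl c hc
  obtain ⟨c, hc⟩ := exists_label (2 * k)
  exact D.descent hHne c (fun p hp => (hc p.2.2 (hHn p hp)).1)
    (fun p hp n hn _ => (hc p.2.2 (hHn p hp)).2.1 n hn)
    (fun p hp => (hc p.2.2 (hHn p hp)).2.2)

end Pool.Agent.Helper775.Tight
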