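import Pool.Agent.Helper775.Sym.AB
import Pool.Agent.Helper775.Tight.Top

/-! Cochains on triples of lists. -/

set_option autoImplicit false

namespace Pool.Agent.Helper775.Tight

open Set Topology SoftCx

/-- cochains on triples of lists of points. -/
abbrev Ch3 (A B C : Type*) := List A → List B → List C → ZMod 2

section defs

variable {A B C : Type*}

/-- total coboundary. -/
def d3 (c : Ch3 A B C) : Ch3 A B C := fun l₁ l₂ l₃ =>
  dd (fun l => c l l₂ l₃) l₁ + dd (fun l => c l₁ l l₃) l₂ + dd (fun l => c l₁ l₂ l) l₃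

theorem j12156_d_comm {X Y : Type*} (m : List Y) : ∀ (l0 : List X) (c : List X → List Y → ZMod 2),
    d (fun l => d (fun l' => c l l') m) l0 = d (fun l' => d (fun l => c l l') l0) m := by
  intro l0
  induction l0 with
  | nil =>
    intro c
    rw [d_nil]
    symm
    apply d_eq_zero
    intro l' _ _
    rw [d_nil]
  | cons x l ih =>
    intro c
    rw [d_cons]
    have h1 := ih (fun l1 l' => c (x :: l1) l')
    rw [h1]
    have h2 : (fun l' => d (fun l => c l l') (x :: l))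
        = (fun l' => c l l') + (fun l' => d (fun l1 => c (x :: l1) l') l) := by
      funext l'
      rw [d_cons]
      rfl
    rw [h2, d_add]
    rfl

theorem j12156_dd_comm {X Y : Type*} (m : List Y) (l0 : List X) (c : List X → List Y → ZMod 2) :
    dd (fun l => dd (fun l' => c l l') m) l0 = dd (fun l' => dd (fun l => c l l') l0) m := by
  by_cases h0 : l0.length ≤ 1
  · rw [dd_short h0]
    have : (fun l' => dd (fun l => c l l') l0) = (0 : Ch Y) := by
      funext l'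
      rw [dd_short h0]
      rfl
    rw [this]
    by_cases hm : m.length ≤ 1
    · rw [dd_short hm]
    · rw [dd_apply (by omega), d_zero]
      rfl
  · by_cases hm : m.length ≤ 1
    · rw [dd_short hm]
      have : (fun l => dd (fun l' => c l l') m) = (0 : Ch X) := by
        funext l
        rw [dd_short hm]
        rfl
      rw [this, dd_apply (by omega), d_zero]
      rfl
    · rw [dd_apply (by omega), dd_apply (by omega)]
      have e1 : (fun l => dd (fun l' => c l l') m) = fun l => d (fun l' => c l l') m := by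
        funext l
        rw [dd_apply (by omega)]
      have e2 : (fun l' => dd (fun l => c l l') l0) = fun l' => d (fun l => c l l') l0 := by
        funext l'
        rw [dd_apply (by omega)]
      rw [e1, e2]
      exact j12156_d_comm m l0 c

theorem j12156_dd_add {X : Type*} (f g : List X → ZMod 2) (l : List X) :
    dd (fun k => f k + g k) l = dd f l + dd g l :=
  congrFun (dd_add f g) l

theorem d3_add (b c : Ch3 A B C) : d3 (b + c) = d3 b + d3 c := by
  funext l₁ l₂ l₃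
  have h1 := j12156_dd_add (fun l => b l l₂ l₃) (fun l => c l l₂ l₃) l₁
  have h2 := j12156_dd_add (fun l => b l₁ l l₃) (fun l => c l₁ l l₃) l₂
  have h3 := j12156_dd_add (fun l => b l₁ l₂ l) (fun l => c l₁ l₂ l) l₃
  show dd (fun l => b l l₂ l₃ + c l l₂ l₃) l₁ + dd (fun l => b l₁ l l₃ + c l₁ l l₃) l₂
      + dd (fun l => b l₁ l₂ l + c l₁ l₂ l) l₃
    = (dd (fun l => b l l₂ l₃) l₁ + dd (fun l => b l₁ l l₃) l₂ + dd (fun l => b l₁ l₂ l) l₃)
      + (dd (fun l => c l l₂ l₃) l₁ + dd (fun l => c l₁ l l₃) l₂ + dd (fun l => c l₁ l₂ l) l₃)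
  rw [h1, h2, h3]
  ring

theorem d3_zero : d3 (0 : Ch3 A B C) = 0 := by
  have h := d3_add (0 : Ch3 A B C) 0
  rw [add_zero] at h
  exact left_eq_add.mp h

theorem d3_d3 (c : Ch3 A B C) : d3 (d3 c) = 0 := by
  funext l₁ l₂ l₃
  have z1 : dd (fun l => dd (fun k => c k l₂ l₃) l) l₁ = 0 := congrFun (dd_dd (fun k => c k l₂ l₃)) l₁
  have z2 : dd (fun l => dd (fun k => c l₁ k l₃) l) l₂ = 0 := congrFun (dd_dd (fun k => c l₁ k l₃)) l₂
  have z3 : dd (fun l => dd (fun k => c l₁ l₂ k) l) l₃ = 0 := congrFun (dd_dd (fun k => c l₁ l₂ k)) l₃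
  have c12 := j12156_dd_comm l₂ l₁ (fun l k => c l k l₃)
  have c13 := j12156_dd_comm l₃ l₁ (fun l k => c l l₂ k)
  have c23 := j12156_dd_comm l₃ l₂ (fun l k => c l₁ l k)
  show dd (fun l => dd (fun k => c k l₂ l₃) l + dd (fun k => c l k l₃) l₂ + dd (fun k => c l l₂ k) l₃) l₁
    + dd (fun l => dd (fun k => c k l l₃) l₁ + dd (fun k => c l₁ k l₃) l + dd (fun k => c l₁ l k) l₃) l₂
    + dd (fun l => dd (fun k => c k l₂ l) l₁ + dd (fun k => c l₁ k l) l₂ + dd (fun k => c l₁ l₂ k) l) l₃ = 0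
  have e1 := j12156_dd_add (fun l => dd (fun k => c k l₂ l₃) l + dd (fun k => c l k l₃) l₂)
    (fun l => dd (fun k => c l l₂ k) l₃) l₁
  have e1' := j12156_dd_add (fun l => dd (fun k => c k l₂ l₃) l) (fun l => dd (fun k => c l k l₃) l₂) l₁
  have e2 := j12156_dd_add (fun l => dd (fun k => c k l l₃) l₁ + dd (fun k => c l₁ k l₃) l)
    (fun l => dd (fun k => c l₁ l k) l₃) l₂
  have e2' := j12156_dd_add (fun l => dd (fun k => c k l l₃) l₁) (fun l => dd (fun k => c l₁ k l₃) l) l₂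
  have e3 := j12156_dd_add (fun l => dd (fun k => c k l₂ l) l₁ + dd (fun k => c l₁ k l) l₂)
    (fun l => dd (fun k => c l₁ l₂ k) l) l₃
  have e3' := j12156_dd_add (fun l => dd (fun k => c k l₂ l) l₁) (fun l => dd (fun k => c l₁ k l) l₂) l₃
  rw [e1, e1', e2, e2', e3, e3', z1, z2, z3, c12, c13, c23]
  have key : ∀ x y z : ZMod 2, 0 + x + y + (x + 0 + z) + (y + z + 0) = 0 := by decide
  exact key _ _ _

/-- total coboundary as a homomorphism. -/
def D3 : Ch3 A B C →+ Ch3 A B C where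
  toFun := d3
  map_zero' := d3_zero
  map_add' := d3_add

@[simp] theorem D3_apply (c : Ch3 A B C) : D3 c = d3 c := rfl

/-- cochains vanishing near `p` in index `n`. -/
def N3 [TopologicalSpace A] [TopologicalSpace B] [TopologicalSpace C] (p : A × B × C) (n : ℕ) :
    AddSubgroup (Ch3 A B C) where
  carrier := {c | n = 0 ∨ ∃ W₁ ∈ 𝓝 p.1, ∃ W₂ ∈ 𝓝 p.2.1, ∃ W₃ ∈ 𝓝 p.2.2,
    ∀ (l₁ : List A) (l₂ : List B) (l₃ : List C), l₁ ≠ [] → l₂ ≠ [] → l₃ ≠ [] →
      l₁.length + l₂.length + l₃.length = n + 2 → (∀ x ∈ l₁, x ∈ W₁) → (∀ x ∈ l₂, x ∈ W₂) →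
      (∀ x ∈ l₃, x ∈ W₃) → c l₁ l₂ l₃ = 0}
  zero_mem' := Or.inr ⟨univ, Filter.univ_mem, univ, Filter.univ_mem, univ, Filter.univ_mem,
    fun _ _ _ _ _ _ _ _ _ _ => rfl⟩
  add_mem' := by
    rintro a b (ha | ⟨W₁, hW₁, W₂, hW₂, W₃, hW₃, ha⟩) (hb | ⟨V₁, hV₁, V₂, hV₂, V₃, hV₃, hb⟩)
    · exact Or.inl ha
    · exact Or.inl ha
    · exact Or.inl hb
    · refine Or.inr ⟨W₁ ∩ V₁, Filter.inter_mem hW₁ hV₁, W₂ ∩ V₂, Filter.inter_mem hW₂ hV₂,
        W₃ ∩ V₃, Filter.inter_mem hW₃ hV₃, fun l₁ l₂ l₃ h1 h2 h3 hl hx hy hz => ?_⟩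
      rw [Pi.add_apply, Pi.add_apply, Pi.add_apply,
        ha l₁ l₂ l₃ h1 h2 h3 hl (fun x h => (hx x h).1) (fun x h => (hy x h).1)
          (fun x h => (hz x h).1),
        hb l₁ l₂ l₃ h1 h2 h3 hl (fun x h => (hx x h).2) (fun x h => (hy x h).2)
          (fun x h => (hz x h).2), add_zero]
  neg_mem' := by
    rintro a (ha | ⟨W₁, hW₁, W₂, hW₂, W₃, hW₃, ha⟩)
    · exact Or.inl ha
    · exact Or.inr ⟨W₁, hW₁, W₂, hW₂, W₃, hW₃, fun l₁ l₂ l₃ h1 h2 h3 hl hx hy hz => by
        rw [Pi.neg_apply, Pi.neg_apply, Pi.neg_apply, ha l₁ l₂ l₃ h1 h2 h3 hl hx hy hz, neg_zero]⟩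

theorem mem_N3_of [TopologicalSpace A] [TopologicalSpace B] [TopologicalSpace C] {p : A × B × C}
    {n : ℕ} {c : Ch3 A B C} {W₁ : Set A} {W₂ : Set B} {W₃ : Set C} (h₁ : W₁ ∈ 𝓝 p.1)
    (h₂ : W₂ ∈ 𝓝 p.2.1) (h₃ : W₃ ∈ 𝓝 p.2.2)
    (h : ∀ (l₁ : List A) (l₂ : List B) (l₃ : List C), l₁ ≠ [] → l₂ ≠ [] → l₃ ≠ [] →
      l₁.length + l₂.length + l₃.length = n + 2 → (∀ x ∈ l₁, x ∈ W₁) → (∀ x ∈ l₂, x ∈ W₂) →
      (∀ x ∈ l₃, x ∈ W₃) → c l₁ l₂ l₃ = 0) : c ∈ N3 p n :=
  Or.inr ⟨W₁, h₁, W₂, h₂, W₃, h₃, h⟩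

theorem exists_of_mem_N3 [TopologicalSpace A] [TopologicalSpace B] [TopologicalSpace C]
    {p : A × B × C} {n : ℕ} {c : Ch3 A B C} (hn : n ≠ 0) (h : c ∈ N3 p n) :
    ∃ (W₁ : Set A) (W₂ : Set B) (W₃ : Set C), IsOpen W₁ ∧ IsOpen W₂ ∧ IsOpen W₃ ∧
      p.1 ∈ W₁ ∧ p.2.1 ∈ W₂ ∧ p.2.2 ∈ W₃ ∧
      ∀ (l₁ : List A) (l₂ : List B) (l₃ : List C), l₁ ≠ [] → l₂ ≠ [] → l₃ ≠ [] →
      l₁.length + l₂.length + l₃.length = n + 2 → (∀ x ∈ l₁, x ∈ W₁) → (∀ x ∈ l₂, x ∈ W₂) →
      (∀ x ∈ l₃, x ∈ W₃) → c l₁ l₂ l₃ = 0 := by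
  rcases h with h | ⟨W₁, hW₁, W₂, hW₂, W₃, hW₃, h⟩
  · exact absurd h hn
  · obtain ⟨U₁, hU₁, hU₁o, h1⟩ := mem_nhds_iff.1 hW₁
    obtain ⟨U₂, hU₂, hU₂o, h2⟩ := mem_nhds_iff.1 hW₂
    obtain ⟨U₃, hU₃, hU₃o, h3⟩ := mem_nhds_iff.1 hW₃
    exact ⟨U₁, U₂, U₃, hU₁o, hU₂o, hU₃o, h1, h2, h3, fun l₁ l₂ l₃ e1 e2 e3 hl hx hy hz =>
      h l₁ l₂ l₃ e1 e2 e3 hl (fun x h => hU₁ (hx x h)) (fun x h => hU₂ (hy x h))
        (fun x h => hU₃ (hz x h))⟩

theorem j12156_ne_of_len {X : Type*} {l : List X} (h : 1 ≤ l.length) : l ≠ [] := by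
  rintro rfl
  simp at h

theorem K3_D_mem [TopologicalSpace A] [TopologicalSpace B] [TopologicalSpace C]
    (p : A × B × C) (n : ℕ) (c : Ch3 A B C) (h : c ∈ N3 p n) : D3 c ∈ N3 p (n + 1) := by
  rcases Nat.eq_zero_or_pos n with rfl | hn
  · refine mem_N3_of Filter.univ_mem Filter.univ_mem Filter.univ_mem ?_
    intro l₁ l₂ l₃ h1 h2 h3 hl _ _ _
    have a1 := List.length_pos_of_ne_nil h1
    have a2 := List.length_pos_of_ne_nil h2
    have a3 := List.length_pos_of_ne_nil h3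
    show dd (fun l => c l l₂ l₃) l₁ + dd (fun l => c l₁ l l₃) l₂ + dd (fun l => c l₁ l₂ l) l₃ = 0
    rw [dd_short (by omega), dd_short (by omega), dd_short (by omega)]
    simp
  · obtain ⟨W₁, W₂, W₃, o1, o2, o3, m1, m2, m3, hc⟩ := exists_of_mem_N3 hn.ne' h
    refine mem_N3_of (o1.mem_nhds m1) (o2.mem_nhds m2) (o3.mem_nhds m3) ?_
    intro l₁ l₂ l₃ h1 h2 h3 hl hx hy hz
    have a1 := List.length_pos_of_ne_nil h1
    have a2 := List.length_pos_of_ne_nil h2
    have a3 := List.length_pos_of_ne_nil h3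
    show dd (fun l => c l l₂ l₃) l₁ + dd (fun l => c l₁ l l₃) l₂ + dd (fun l => c l₁ l₂ l) l₃ = 0
    have b1 : dd (fun l => c l l₂ l₃) l₁ = 0 := by
      by_cases hs : l₁.length ≤ 1
      · exact dd_short hs
      · rw [dd_apply (by omega)]
        apply d_eq_zero
        intro l' hl' hsub
        exact hc l' l₂ l₃ (j12156_ne_of_len (by omega)) h2 h3 (by omega) (fun x hx' => hx x (hsub hx')) hy hz
    have b2 : dd (fun l => c l₁ l l₃) l₂ = 0 := by
      by_cases hs : l₂.length ≤ 1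
      · exact dd_short hs
      · rw [dd_apply (by omega)]
        apply d_eq_zero
        intro l' hl' hsub
        exact hc l₁ l' l₃ h1 (j12156_ne_of_len (by omega)) h3 (by omega) hx (fun x hx' => hy x (hsub hx')) hz
    have b3 : dd (fun l => c l₁ l₂ l) l₃ = 0 := by
      by_cases hs : l₃.length ≤ 1
      · exact dd_short hs
      · rw [dd_apply (by omega)]
        apply d_eq_zero
        intro l' hl' hsub
        exact hc l₁ l₂ l' h1 h2 (j12156_ne_of_len (by omega)) (by omega) hx hy (fun x hx' => hz x (hsub hx'))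
    rw [b1, b2, b3]
    simp

theorem K3_isOpen [TopologicalSpace A] [TopologicalSpace B] [TopologicalSpace C]
    (n : ℕ) (c : Ch3 A B C) : IsOpen {p : A × B × C | c ∈ N3 p n} := by
  rcases Nat.eq_zero_or_pos n with rfl | hn
  · have : {p : A × B × C | c ∈ N3 p 0} = univ := by
      apply Set.eq_univ_of_forall
      intro p
      exact Or.inl rfl
    rw [this]; exact isOpen_univ
  · rw [isOpen_iff_forall_mem_open]
    intro p hp
    obtain ⟨W₁, W₂, W₃, o1, o2, o3, m1, m2, m3, hc⟩ := exists_of_mem_N3 hn.ne' hp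
    refine ⟨W₁ ×ˢ (W₂ ×ˢ W₃), ?_, o1.prod (o2.prod o3), ⟨m1, m2, m3⟩⟩
    rintro ⟨x, y, z⟩ ⟨hx, hy, hz⟩
    exact mem_N3_of (o1.mem_nhds hx) (o2.mem_nhds hy) (o3.mem_nhds hz) hc

theorem j12156_nhds [TopologicalSpace A] [TopologicalSpace B] [TopologicalSpace C]
    {U : Set (A × B × C)} {p : A × B × C} (h : U ∈ 𝓝 p) :
    ∃ W₁ ∈ 𝓝 p.1, ∃ W₂ ∈ 𝓝 p.2.1, ∃ W₃ ∈ 𝓝 p.2.2, ∀ x ∈ W₁, ∀ y ∈ W₂, ∀ z ∈ W₃, (x, y, z) ∈ U := by
  obtain ⟨x, y, z⟩ := p
  rw [mem_nhds_prod_iff] at h
  obtain ⟨W₁, h1, V, hV, hU⟩ := h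
  rw [mem_nhds_prod_iff] at hV
  obtain ⟨W₂, h2, W₃, h3, hV'⟩ := hV
  exact ⟨W₁, h1, W₂, h2, W₃, h3, fun a ha b hb c hc => hU ⟨ha, hV' ⟨hb, hc⟩⟩⟩

theorem K3_soft [MetricSpace A] [MetricSpace B] [MetricSpace C] (n : ℕ) (c : Ch3 A B C)
    (Z₁ Z₂ : Set (A × B × C)) (h₁ : IsClosed Z₁) (h₂ : IsClosed Z₂)
    (h : ∀ p ∈ Z₁ ∩ Z₂, c ∈ N3 p n) :
    ∃ c₁, (∀ p ∈ Z₁, c₁ ∈ N3 p n) ∧ ∀ p ∈ Z₂, c - c₁ ∈ N3 p n := by
  classical
  rcases Nat.eq_zero_or_pos n with rfl | hn
  · exact ⟨0, fun z _ => Or.inl rfl, fun z _ => Or.inl rfl⟩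
  -- the set of points closer to `Z₂` than to `Z₁`
  obtain ⟨U, hU1, hU2⟩ : ∃ U : Set (A × B × C), (∀ z ∈ Z₁, z ∉ Z₂ → Uᶜ ∈ 𝓝 z) ∧
      (∀ z ∈ Z₂, z ∉ Z₁ → U ∈ 𝓝 z) := by
    rcases Z₁.eq_empty_or_nonempty with rfl | hne1
    · exact ⟨univ, by simp, fun _ _ _ => Filter.univ_mem⟩
    rcases Z₂.eq_empty_or_nonempty with rfl | hne2
    · refine ⟨∅, fun _ _ _ => by rw [compl_empty]; exact Filter.univ_mem, by simp⟩
    refine ⟨{x | Metric.infDist x Z₂ < Metric.infDist x Z₁}, ?_, ?_⟩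
    · intro z hz hz2
      have h3 : Metric.infDist z Z₁ < Metric.infDist z Z₂ := by
        rw [Metric.infDist_zero_of_mem hz]
        exact (h₂.notMem_iff_infDist_pos hne2).1 hz2
      have ho : IsOpen {x | Metric.infDist x Z₁ < Metric.infDist x Z₂} :=
        isOpen_lt (Metric.continuous_infDist_pt _) (Metric.continuous_infDist_pt _)
      refine Filter.mem_of_superset (ho.mem_nhds h3) fun x hx hx' => ?_
      have hx1 : Metric.infDist x Z₁ < Metric.infDist x Z₂ := hx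
      have hx2 : Metric.infDist x Z₂ < Metric.infDist x Z₁ := hx'
      exact lt_asymm hx1 hx2
    · intro z hz hz1
      have h3 : Metric.infDist z Z₂ < Metric.infDist z Z₁ := by
        rw [Metric.infDist_zero_of_mem hz]
        exact (h₁.notMem_iff_infDist_pos hne1).1 hz1
      exact (isOpen_lt (Metric.continuous_infDist_pt _)
        (Metric.continuous_infDist_pt _)).mem_nhds h3
  set c₁ : Ch3 A B C := fun l₁ l₂ l₃ =>
    if ∃ x y z, l₁.head? = some x ∧ l₂.head? = some y ∧ l₃.head? = some z ∧ (x, y, z) ∈ U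
      then c l₁ l₂ l₃ else 0 with hc₁
  refine ⟨c₁, ?_, ?_⟩
  · intro p hp
    by_cases hp2 : p ∈ Z₂
    · obtain ⟨W₁, W₂, W₃, o1, o2, o3, m1, m2, m3, hc⟩ := exists_of_mem_N3 hn.ne' (h p ⟨hp, hp2⟩)
      refine mem_N3_of (o1.mem_nhds m1) (o2.mem_nhds m2) (o3.mem_nhds m3) ?_
      intro l₁ l₂ l₃ h1 h2 h3 hl hx hy hz
      simp only [hc₁]
      rw [hc l₁ l₂ l₃ h1 h2 h3 hl hx hy hz, ite_self]
    · obtain ⟨W₁, w1, W₂, w2, W₃, w3, hW⟩ := j12156_nhds (hU1 p hp hp2)
      refine mem_N3_of w1 w2 w3 ?_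
      intro l₁ l₂ l₃ h1 h2 h3 hl hx hy hz
      simp only [hc₁]
      rw [if_neg]
      rintro ⟨x, y, z, hx1, hy1, hz1, hxyz⟩
      exact hW x (hx x (List.mem_of_mem_head? hx1)) y (hy y (List.mem_of_mem_head? hy1)) z
        (hz z (List.mem_of_mem_head? hz1)) hxyz
  · intro p hp
    by_cases hp1 : p ∈ Z₁
    · obtain ⟨W₁, W₂, W₃, o1, o2, o3, m1, m2, m3, hc⟩ := exists_of_mem_N3 hn.ne' (h p ⟨hp1, hp⟩)
      refine mem_N3_of (o1.mem_nhds m1) (o2.mem_nhds m2) (o3.mem_nhds m3) ?_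
      intro l₁ l₂ l₃ h1 h2 h3 hl hx hy hz
      simp only [hc₁, Pi.sub_apply]
      rw [hc l₁ l₂ l₃ h1 h2 h3 hl hx hy hz, ite_self, sub_zero]
    · obtain ⟨W₁, w1, W₂, w2, W₃, w3, hW⟩ := j12156_nhds (hU2 p hp hp1)
      refine mem_N3_of w1 w2 w3 ?_
      intro l₁ l₂ l₃ h1 h2 h3 hl hx hy hz
      simp only [hc₁, Pi.sub_apply]
      obtain ⟨x, t1, rfl⟩ := List.exists_cons_of_ne_nil h1
      obtain ⟨y, t2, rfl⟩ := List.exists_cons_of_ne_nil h2
      obtain ⟨z, t3, rfl⟩ := List.exists_cons_of_ne_nil h3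
      rw [if_pos, sub_self]
      exact ⟨x, y, z, rfl, rfl, rfl, hW x (hx x (by simp)) y (hy y (by simp)) z (hz z (by simp))⟩

/-- the soft complex of triples of lists. -/
noncomputable def K3 (A B C : Type*) [MetricSpace A] [MetricSpace B] [MetricSpace C] :
    SoftCx (A × B × C) (Ch3 A B C) where
  D := D3
  N := N3
  N_zero z k := Or.inl rfl
  D_mem := K3_D_mem
  DD_mem z n k := by
    rw [D3_apply, D3_apply, d3_d3]; exact zero_mem _
  isOpen_N := K3_isOpen
  soft := K3_soft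

@[simp] theorem K3_D [MetricSpace A] [MetricSpace B] [MetricSpace C] (c : Ch3 A B C) :
    (K3 A B C).D c = d3 c := rfl

theorem K3_N [MetricSpace A] [MetricSpace B] [MetricSpace C] (p : A × B × C) (n : ℕ) :
    (K3 A B C).N p n = N3 p n := rfl

/-- the constant cochain. -/
def one3 : Ch3 A B C := fun _ _ _ => 1

theorem j12157_A {Ω : Type*} (F : Ch Ω) (a : Ω) (l : List Ω) (hl : l ≠ []) :
    dd (fun l' => F (a :: l')) l + dd F (a :: l) = F l + (if l.length = 1 then F [a] else 0) := by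
  have h1 : 1 ≤ l.length := List.length_pos_iff.2 hl
  have h2 : dd F (a :: l) = F l + d (fun l' => F (a :: l')) l := by
    rw [dd_apply (by simp; omega), d_cons]
  rw [h2]
  by_cases h : l.length = 1
  · rw [if_pos h, dd_short (by omega)]
    obtain ⟨x, rfl⟩ := List.length_eq_one_iff.1 h
    rw [d_cons, d_nil]
    ring
  · rw [if_neg h, dd_apply (by omega)]
    have h3 := add_self2 (d (fun l' => F (a :: l')) l)
    linear_combination h3

theorem j12157_B {Ω : Type*} (t : ZMod 2) (l : List Ω) :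
    dd (fun l' : List Ω => if l'.length = 1 then t else 0) l = 0 := by
  rcases Nat.lt_or_ge l.length 2 with h | h
  · exact dd_short (by omega)
  · rw [dd_apply h]
    rcases Nat.lt_or_ge l.length 3 with h3 | h3
    · match l, h, h3 with
      | [x, y], _, _ =>
        rw [d_cons, d_cons, d_nil]
        have := add_self2 t
        simp [this]
    · refine d_eq_zero l fun l' hl' _ => ?_
      rw [if_neg (by omega)]

theorem j12157_Z {Ω : Type*} (l : List Ω) : dd (fun _ : List Ω => (0 : ZMod 2)) l = 0 := by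
  rcases Nat.lt_or_ge l.length 2 with h | h
  · exact dd_short (by omega)
  · rw [dd_apply h]
    exact d_eq_zero l fun l' hl' _ => rfl

def j12157_k1 (a : A) (c : Ch3 A B C) : Ch3 A B C := fun l₁ l₂ l₃ => c (a :: l₁) l₂ l₃

def j12157_k2 (a : A) (b : B) (c : Ch3 A B C) : Ch3 A B C :=
  fun l₁ l₂ l₃ => if l₁.length = 1 then c [a] (b :: l₂) l₃ else 0

def j12157_k3 (a : A) (b : B) (e : C) (c : Ch3 A B C) : Ch3 A B C :=
  fun l₁ l₂ l₃ => if l₁.length = 1 then (if l₂.length = 1 then c [a] [b] (e :: l₃) else 0) else 0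

theorem j12157_K1 (a : A) (c : Ch3 A B C) (l₁ : List A) (l₂ : List B) (l₃ : List C)
    (h1 : l₁ ≠ []) (h : d3 c (a :: l₁) l₂ l₃ = 0) :
    d3 (j12157_k1 a c) l₁ l₂ l₃ =
      c l₁ l₂ l₃ + (if l₁.length = 1 then c [a] l₂ l₃ else 0) := by
  have hA := j12157_A (fun l => c l l₂ l₃) a l₁ h1
  unfold d3 at h ⊢
  unfold j12157_k1
  rw [← hA]
  have h3 := add_self2 (dd (fun l => c l l₂ l₃) (a :: l₁))
  linear_combination h - h3

theorem j12157_K2 (a : A) (b : B) (c : Ch3 A B C) (l₁ : List A) (l₂ : List B) (l₃ : List C)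
    (h2 : l₂ ≠ []) (h : l₁.length = 1 → d3 c [a] (b :: l₂) l₃ = 0) :
    d3 (j12157_k2 a b c) l₁ l₂ l₃ =
      if l₁.length = 1 then c [a] l₂ l₃ + (if l₂.length = 1 then c [a] [b] l₃ else 0) else 0 := by
  unfold j12157_k2
  unfold d3
  have e1 : dd (fun l : List A => if l.length = 1 then c [a] (b :: l₂) l₃ else 0) l₁ = 0 :=
    j12157_B _ _
  rw [e1]
  by_cases hl : l₁.length = 1
  · simp only [if_pos hl]
    have hA := j12157_A (fun l => c [a] l l₃) b l₂ h2
    have h' := h hl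
    unfold d3 at h'
    rw [dd_short (l := [a]) (by simp)] at h'
    rw [← hA]
    have h3 := add_self2 (dd (fun l => c [a] l l₃) (b :: l₂))
    linear_combination h' - h3
  · simp only [if_neg hl]
    rw [j12157_Z, j12157_Z]
    ring

theorem j12157_K3 (a : A) (b : B) (e : C) (c : Ch3 A B C) (l₁ : List A) (l₂ : List B)
    (l₃ : List C)
    (h3' : l₃ ≠ []) (h : l₁.length = 1 → l₂.length = 1 → d3 c [a] [b] (e :: l₃) = 0) :
    d3 (j12157_k3 a b e c) l₁ l₂ l₃ =
      if l₁.length = 1 then (if l₂.length = 1 then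
        c [a] [b] l₃ + (if l₃.length = 1 then c [a] [b] [e] else 0) else 0) else 0 := by
  unfold j12157_k3
  unfold d3
  have e1 : dd (fun l : List A => if l.length = 1 then
      (if l₂.length = 1 then c [a] [b] (e :: l₃) else 0) else 0) l₁ = 0 :=
    j12157_B _ _
  rw [e1]
  by_cases hl : l₁.length = 1
  · simp only [if_pos hl]
    have e2 : dd (fun l : List B => if l.length = 1 then c [a] [b] (e :: l₃) else 0) l₂ = 0 :=
      j12157_B _ _
    rw [e2]
    by_cases hl2 : l₂.length = 1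
    · simp only [if_pos hl2]
      have hA := j12157_A (fun l => c [a] [b] l) e l₃ h3'
      have h' := h hl hl2
      unfold d3 at h'
      rw [dd_short (l := [a]) (by simp), dd_short (l := [b]) (by simp)] at h'
      rw [← hA]
      have h3 := add_self2 (dd (fun l => c [a] [b] l) (e :: l₃))
      linear_combination h' - h3
    · simp only [if_neg hl2]
      rw [j12157_Z]
      ring
  · simp only [if_neg hl]
    rw [j12157_Z, j12157_Z]
    ring

def j12157_K (a : A) (b : B) (e : C) (c : Ch3 A B C) : Ch3 A B C :=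
  j12157_k1 a c + j12157_k2 a b c + j12157_k3 a b e c

theorem j12157_main (a : A) (b : B) (e : C) (c : Ch3 A B C) (W₁ : Set A) (W₂ : Set B) (W₃ : Set C)
    (ha : a ∈ W₁) (hb : b ∈ W₂) (he : e ∈ W₃) (n : ℕ)
    (h : ∀ (l₁ : List A) (l₂ : List B) (l₃ : List C), l₁ ≠ [] → l₂ ≠ [] → l₃ ≠ [] →
      l₁.length + l₂.length + l₃.length = n + 1 + 2 → (∀ x ∈ l₁, x ∈ W₁) → (∀ x ∈ l₂, x ∈ W₂) →
      (∀ x ∈ l₃, x ∈ W₃) → d3 c l₁ l₂ l₃ = 0)
    (l₁ : List A) (l₂ : List B) (l₃ : List C) (h1 : l₁ ≠ []) (h2 : l₂ ≠ []) (h3 : l₃ ≠ [])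
    (hl : l₁.length + l₂.length + l₃.length = n + 2) (hx : ∀ x ∈ l₁, x ∈ W₁)
    (hy : ∀ x ∈ l₂, x ∈ W₂) (hz : ∀ x ∈ l₃, x ∈ W₃) :
    d3 (j12157_K a b e c) l₁ l₂ l₃ = c l₁ l₂ l₃ +
      (if l₁.length = 1 then (if l₂.length = 1 then (if l₃.length = 1 then c [a] [b] [e] else 0)
        else 0) else 0) := by
  unfold j12157_K
  rw [d3_add, d3_add, Pi.add_apply, Pi.add_apply, Pi.add_apply, Pi.add_apply, Pi.add_apply,
    Pi.add_apply]
  have hx' : ∀ x ∈ a :: l₁, x ∈ W₁ := by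
    intro x hx1
    rcases List.mem_cons.1 hx1 with rfl | hx1
    · exact ha
    · exact hx x hx1
  have hy' : ∀ x ∈ b :: l₂, x ∈ W₂ := by
    intro x hx1
    rcases List.mem_cons.1 hx1 with rfl | hx1
    · exact hb
    · exact hy x hx1
  have hz' : ∀ x ∈ e :: l₃, x ∈ W₃ := by
    intro x hx1
    rcases List.mem_cons.1 hx1 with rfl | hx1
    · exact he
    · exact hz x hx1
  have hxa : ∀ x ∈ [a], x ∈ W₁ := by
    intro x hx1
    rw [List.mem_singleton.1 hx1]; exact ha
  have hyb : ∀ x ∈ [b], x ∈ W₂ := by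
    intro x hx1
    rw [List.mem_singleton.1 hx1]; exact hb
  rw [j12157_K1 a c l₁ l₂ l₃ h1
      (h _ _ _ (List.cons_ne_nil _ _) h2 h3 (by simp only [List.length_cons]; omega) hx' hy hz),
    j12157_K2 a b c l₁ l₂ l₃ h2
      (fun q => h _ _ _ (List.cons_ne_nil _ _) (List.cons_ne_nil _ _) h3
        (by simp only [List.length_cons, List.length_nil]; omega) hxa hy' hz),
    j12157_K3 a b e c l₁ l₂ l₃ h3
      (fun q q' => h _ _ _ (List.cons_ne_nil _ _) (List.cons_ne_nil _ _) (List.cons_ne_nil _ _)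
        (by simp only [List.length_cons, List.length_nil]; omega) hxa hyb hz')]
  have s1 := add_self2 (c [a] l₂ l₃)
  have s2 := add_self2 (c [a] [b] l₃)
  by_cases q1 : l₁.length = 1
  · by_cases q2 : l₂.length = 1
    · simp only [if_pos q1, if_pos q2]
      linear_combination s1 + s2
    · simp only [if_pos q1, if_neg q2]
      linear_combination s1
  · simp only [if_neg q1]
    ring

theorem k3_acy_singleton [MetricSpace A] [MetricSpace B] [MetricSpace C] (p : A × B × C) :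
    (K3 A B C).Acy one3 {p} := by
  obtain ⟨a, b, e⟩ := p
  refine ⟨?_, ?_, ?_⟩
  · intro hn
    have h0 := hn (a, b, e) rfl
    rw [K3_N] at h0
    obtain ⟨W₁, W₂, W₃, -, -, -, m1, m2, m3, h⟩ := exists_of_mem_N3 (one_ne_zero) h0
    have := h [a] [b] [e] (List.cons_ne_nil _ _) (List.cons_ne_nil _ _) (List.cons_ne_nil _ _) rfl
      (by simpa using m1) (by simpa using m2) (by simpa using m3)
    exact absurd this (by simp [one3])
  · intro c hc
    have h0 := hc (a, b, e) rfl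
    rw [K3_N, K3_D] at h0
    obtain ⟨W₁, W₂, W₃, o1, o2, o3, m1, m2, m3, h⟩ := exists_of_mem_N3 (by omega) h0
    have key : ∀ x ∈ W₁, ∀ y ∈ W₂, ∀ z ∈ W₃, c [x] [y] [z] = c [a] [b] [e] := by
      intro x hx y hy z hz
      have := j12157_main a b e c W₁ W₂ W₃ m1 m2 m3 1 h [x] [y] [z] (List.cons_ne_nil _ _)
        (List.cons_ne_nil _ _) (List.cons_ne_nil _ _) rfl (by simpa using hx) (by simpa using hy)
        (by simpa using hz)
      have e1 : d3 (j12157_K a b e c) [x] [y] [z] = 0 := by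
        unfold d3
        rw [dd_short (by simp), dd_short (by simp), dd_short (by simp)]
        ring
      rw [e1] at this
      rw [if_pos (by rfl), if_pos (by rfl), if_pos (by rfl)] at this
      have s := add_self2 (c [a] [b] [e])
      linear_combination -this - s
    have hz2 : c [a] [b] [e] = 0 ∨ c [a] [b] [e] = 1 := by
      generalize c [a] [b] [e] = t
      revert t; decide
    rcases hz2 with h0 | h0
    · left
      intro w hw
      rw [mem_singleton_iff.1 hw, K3_N]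
      refine mem_N3_of (o1.mem_nhds m1) (o2.mem_nhds m2) (o3.mem_nhds m3) ?_
      intro l₁ l₂ l₃ h1 h2 h3 hl hx hy hz
      have g1 := List.length_pos_iff.2 h1
      have g2 := List.length_pos_iff.2 h2
      have g3 := List.length_pos_iff.2 h3
      obtain ⟨x, rfl⟩ := List.length_eq_one_iff.1 (show l₁.length = 1 by omega)
      obtain ⟨y, rfl⟩ := List.length_eq_one_iff.1 (show l₂.length = 1 by omega)
      obtain ⟨z, rfl⟩ := List.length_eq_one_iff.1 (show l₃.length = 1 by omega)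
      rw [key x (hx x (by simp)) y (hy y (by simp)) z (hz z (by simp)), h0]
    · right
      intro w hw
      rw [mem_singleton_iff.1 hw, K3_N]
      refine mem_N3_of (o1.mem_nhds m1) (o2.mem_nhds m2) (o3.mem_nhds m3) ?_
      intro l₁ l₂ l₃ h1 h2 h3 hl hx hy hz
      have g1 := List.length_pos_iff.2 h1
      have g2 := List.length_pos_iff.2 h2
      have g3 := List.length_pos_iff.2 h3
      obtain ⟨x, rfl⟩ := List.length_eq_one_iff.1 (show l₁.length = 1 by omega)
      obtain ⟨y, rfl⟩ := List.length_eq_one_iff.1 (show l₂.length = 1 by omega)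
      obtain ⟨z, rfl⟩ := List.length_eq_one_iff.1 (show l₃.length = 1 by omega)
      rw [Pi.sub_apply, Pi.sub_apply, Pi.sub_apply,
        key x (hx x (by simp)) y (hy y (by simp)) z (hz z (by simp)), h0]
      simp [one3]
  · intro n hn c hc
    refine ⟨j12157_K a b e c, fun w hw => ?_⟩
    have h0 := hc (a, b, e) rfl
    rw [K3_N, K3_D] at h0
    obtain ⟨W₁, W₂, W₃, o1, o2, o3, m1, m2, m3, h⟩ := exists_of_mem_N3 (by omega) h0
    rw [mem_singleton_iff.1 hw, K3_N, K3_D]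
    refine mem_N3_of (o1.mem_nhds m1) (o2.mem_nhds m2) (o3.mem_nhds m3) ?_
    intro l₁ l₂ l₃ h1 h2 h3 hl hx hy hz
    rw [Pi.sub_apply, Pi.sub_apply, Pi.sub_apply,
      j12157_main a b e c W₁ W₂ W₃ m1 m2 m3 n h l₁ l₂ l₃ h1 h2 h3 hl hx hy hz]
    have : (if l₁.length = 1 then (if l₂.length = 1 then (if l₃.length = 1 then c [a] [b] [e] else 0)
        else 0) else 0) = (0 : ZMod 2) := by
      split_ifs
      · omega
      · rfl
      · rfl
      · rfl
    rw [this]
    ring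

/-- cochains of the first variable. -/
def Q1 (g : Ch A) : Ch3 A B C := fun l₁ l₂ l₃ => if l₂.length = 1 ∧ l₃.length = 1 then g l₁ else 0

/-- cochains of the second variable. -/
def Q2 (g : Ch B) : Ch3 A B C := fun l₁ l₂ l₃ => if l₁.length = 1 ∧ l₃.length = 1 then g l₂ else 0

/-- cochains of the third variable. -/
def Q3 (g : Ch C) : Ch3 A B C := fun l₁ l₂ l₃ => if l₁.length = 1 ∧ l₂.length = 1 then g l₃ else 0

/-- cross product of a cochain of index `k + 1` in the first variable and a cochain of the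
second variable. -/
def XX (k : ℕ) (a : Ch A) (b : Ch B) : Ch3 A B C := fun l₁ l₂ l₃ =>
  if l₁.length = k + 1 ∧ l₃.length = 1 then a l₁ * b l₂ else 0

/-- the switch. -/
def TT [Neg C] (c : Ch3 A A C) : Ch3 A A C := fun l₁ l₂ l₃ => c l₂ l₁ (l₃.map Neg.neg)

/-- diagonal cross product: symmetric in the two variables. -/
def CC (k : ℕ) (c : Ch A) : Ch3 A A C := fun l₁ l₂ l₃ =>
  if l₁.length = k + 1 ∧ l₂.length = k + 1 ∧ l₃.length = 1 then c l₁ * c l₂ else 0

/-- multiplication by a cochain of the first variable, from the left. -/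
def ML (k : ℕ) (a : Ch A) (h : Ch3 A B C) : Ch3 A B C := fun l₁ l₂ l₃ =>
  cup k a (fun l => h l l₂ l₃) l₁

/-- cup product with a cochain of index `k + 1` on the right. -/
def cupR {Ω : Type*} (k : ℕ) (b c : Ch Ω) : Ch Ω := fun l =>
  if k < l.length then b (l.take (l.length - k)) * c (l.drop (l.length - k - 1)) else 0

/-- multiplication by a cochain of the second variable, from the right. -/
def MR (k : ℕ) (h : Ch3 A B C) (c : Ch B) : Ch3 A B C := fun l₁ l₂ l₃ =>
  cupR k (fun l => h l₁ l l₃) c l₂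

/-- the join homotopy. -/
def JH {E : Type*} [Neg E] (π : A → E) (π' : B → E) (e : Ch E) : Ch3 A B C := fun l₁ l₂ l₃ =>
  if l₃.length = 1 then e (l₁.map π ++ l₂.map (fun x => - π' x)) else 0

theorem Q1_add (b c : Ch A) : (Q1 (b + c) : Ch3 A B C) = Q1 b + Q1 c := by
  funext l₁ l₂ l₃
  simp only [Q1, Pi.add_apply]
  split_ifs <;> simp

theorem Q2_add (b c : Ch B) : (Q2 (b + c) : Ch3 A B C) = Q2 b + Q2 c := by
  funext l₁ l₂ l₃
  simp only [Q2, Pi.add_apply]
  split_ifs <;> simp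

theorem Q3_add (b c : Ch C) : (Q3 (b + c) : Ch3 A B C) = Q3 b + Q3 c := by
  funext l₁ l₂ l₃
  simp only [Q3, Pi.add_apply]
  split_ifs <;> simp

theorem XX_add_right (k : ℕ) (a : Ch A) (b c : Ch B) :
    (XX k a (b + c) : Ch3 A B C) = XX k a b + XX k a c := by
  funext l₁ l₂ l₃
  simp only [XX, Pi.add_apply]
  split_ifs
  · rw [mul_add]
  · simp

theorem XX_add_left (k : ℕ) (a a' : Ch A) (b : Ch B) :
    (XX k (a + a') b : Ch3 A B C) = XX k a b + XX k a' b := by
  funext l₁ l₂ l₃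
  simp only [XX, Pi.add_apply]
  split_ifs
  · rw [add_mul]
  · simp

theorem ML_add (k : ℕ) (a : Ch A) (h h' : Ch3 A B C) :
    ML k a (h + h') = ML k a h + ML k a h' := by
  funext l₁ l₂ l₃
  exact congrFun (cup_add_right k a (fun l => h l l₂ l₃) (fun l => h' l l₂ l₃)) l₁

theorem MR_add (k : ℕ) (h h' : Ch3 A B C) (c : Ch B) :
    MR k (h + h') c = MR k h c + MR k h' c := by
  funext l₁ l₂ l₃
  show cupR k ((fun l => h l₁ l l₃) + (fun l => h' l₁ l l₃)) c l₂ =
    cupR k (fun l => h l₁ l l₃) c l₂ + cupR k (fun l => h' l₁ l l₃) c l₂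
  simp only [cupR, Pi.add_apply]
  split_ifs
  · rw [add_mul]
  · simp

theorem TT_add [Neg C] (b c : Ch3 A A C) : TT (b + c) = TT b + TT c := rfl

theorem TT_TT [InvolutiveNeg C] (c : Ch3 A A C) : TT (TT c) = c := by
  funext l₁ l₂ l₃
  show c l₁ l₂ ((l₃.map Neg.neg).map Neg.neg) = c l₁ l₂ l₃
  rw [List.map_map]
  congr 1
  conv_rhs => rw [← List.map_id l₃]
  congr 1
  funext x
  exact neg_neg x

theorem TT_Q1 [Neg C] (g : Ch A) : (TT (Q1 g) : Ch3 A A C) = Q2 g := by
  funext l₁ l₂ l₃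
  simp only [TT, Q1, Q2, List.length_map]

theorem TT_Q2 [Neg C] (g : Ch A) : (TT (Q2 g) : Ch3 A A C) = Q1 g := by
  funext l₁ l₂ l₃
  simp only [TT, Q1, Q2, List.length_map]

theorem TT_Q3 [Neg C] (g : Ch C) : (TT (Q3 g) : Ch3 A A C) = Q3 (pb Neg.neg g) := by
  funext l₁ l₂ l₃
  simp only [TT, Q3, pb]
  by_cases h : l₁.length = 1 ∧ l₂.length = 1
  · rw [if_pos h, if_pos h.symm]
  · rw [if_neg h, if_neg (fun h' => h h'.symm)]

theorem TT_CC [Neg C] (k : ℕ) (c : Ch A) : (TT (CC k c) : Ch3 A A C) = CC k c := by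
  funext l₁ l₂ l₃
  simp only [TT, CC, List.length_map]
  by_cases h : l₁.length = k + 1 ∧ l₂.length = k + 1 ∧ l₃.length = 1
  · rw [if_pos h, if_pos ⟨h.2.1, h.1, h.2.2⟩, mul_comm]
  · rw [if_neg h, if_neg (fun h' => h ⟨h'.2.1, h'.1, h'.2.2⟩)]

theorem TT_one3 [Neg C] : (TT one3 : Ch3 A A C) = one3 := rfl

theorem TT_d3 [Neg C] (c : Ch3 A A C) : TT (d3 c) = d3 (TT c) := by
  funext l₁ l₂ l₃
  have h1 : dd (fun l => TT c l₁ l₂ l) l₃ = dd (fun l => c l₂ l₁ l) (l₃.map Neg.neg) :=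
    congrFun (dd_pb Neg.neg (fun l => c l₂ l₁ l)) l₃
  show dd (fun l => c l l₁ (l₃.map Neg.neg)) l₂ + dd (fun l => c l₂ l (l₃.map Neg.neg)) l₁ +
      dd (fun l => c l₂ l₁ l) (l₃.map Neg.neg) =
    dd (fun l => c l₂ l (l₃.map Neg.neg)) l₁ + dd (fun l => c l l₁ (l₃.map Neg.neg)) l₂ +
      dd (fun l => TT c l₁ l₂ l) l₃
  rw [h1]
  ring

theorem j12159_two (v : ZMod 2) : v = 0 ∨ v = 1 := by
  revert v; decide

theorem j12159_dd_zero {Ω : Type*} (l : List Ω) : dd (fun _ : List Ω => (0 : ZMod 2)) l = 0 := by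
  by_cases h : l.length ≤ 1
  · exact dd_short h
  · rw [dd_apply (by omega)]
    exact congrFun (d_zero (Ω := Ω)) l

theorem j12159_dd_if {Ω : Type*} (P : Prop) [Decidable P] (c : Ch Ω) (l : List Ω) :
    dd (fun l => if P then c l else 0) l = if P then dd c l else 0 := by
  by_cases hP : P
  · simp only [hP, if_true]
  · simp only [hP, if_false]
    exact j12159_dd_zero l

theorem j12159_dd_mul {Ω : Type*} (v : ZMod 2) (c : Ch Ω) (l : List Ω) :
    dd (fun l => v * c l) l = v * dd c l := by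
  rcases j12159_two v with rfl | rfl
  · simp only [zero_mul]
    exact j12159_dd_zero l
  · simp only [one_mul]

theorem j12159_dd_mul' {Ω : Type*} (v : ZMod 2) (c : Ch Ω) (l : List Ω) :
    dd (fun l => c l * v) l = dd c l * v := by
  rcases j12159_two v with rfl | rfl
  · simp only [mul_zero]
    exact j12159_dd_zero l
  · simp only [mul_one]

theorem j12159_dd_len {Ω : Type*} (n : ℕ) (c : Ch Ω) (l : List Ω) :
    dd (fun l => if l.length = n then c l else 0) l = if l.length = n + 1 then dd c l else 0 := by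
  by_cases h : l.length ≤ 1
  · rw [dd_short h, dd_short h]
    split_ifs <;> rfl
  · rw [dd_apply (by omega), dd_apply (by omega)]
    split_ifs with hn
    · apply d_congr
      intro l' hl' _
      have : l'.length = n := by omega
      simp only [this, if_true]
    · apply d_eq_zero
      intro l' hl' _
      have : l'.length ≠ n := by omega
      simp only [this, if_false]

theorem j12159_dd_const {Ω : Type*} (v : ZMod 2) (l : List Ω) :
    dd (fun l => if l.length = 1 then v else 0) l = 0 := by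
  rw [j12159_dd_len 1 (fun _ => v)]
  split_ifs with h
  · have h1 : dd (fun l : List Ω => v * (one : Ch Ω) l) l = v * dd (one : Ch Ω) l := j12159_dd_mul v one l
    rw [dd_one l h, mul_zero] at h1
    rw [← h1]
    congr 1
    funext l'
    show v = v * 1
    rw [mul_one]
  · rfl

theorem j12159_dd_const_and {Ω : Type*} (P : Prop) [Decidable P] (v : ZMod 2) (l : List Ω) :
    dd (fun l => if l.length = 1 ∧ P then v else 0) l = 0 := by
  by_cases hP : P
  · simp only [hP, and_true]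
    exact j12159_dd_const v l
  · simp only [hP, and_false, if_false]
    exact j12159_dd_zero l

theorem j12159_dd_const_and' {Ω : Type*} (P : Prop) [Decidable P] (v : ZMod 2) (l : List Ω) :
    dd (fun l => if P ∧ l.length = 1 then v else 0) l = 0 := by
  by_cases hP : P
  · simp only [hP, true_and]
    exact j12159_dd_const v l
  · simp only [hP, false_and, if_false]
    exact j12159_dd_zero l

theorem j12159_cup_if {Ω : Type*} (P : Prop) [Decidable P] (k : ℕ) (a g : Ch Ω) (l : List Ω) :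
    cup k a (fun l => if P then g l else 0) l = if P then cup k a g l else 0 := by
  unfold cup
  by_cases hP : P
  · simp only [hP, if_true]
  · simp only [hP, if_false, mul_zero, ite_self]

theorem j12159_dd_cup {Ω Ω' : Type*} (k : ℕ) (a : Ch Ω) (h : List Ω → Ch Ω') (l₁ : List Ω)
    (l : List Ω') :
    dd (fun l => cup k a (fun l' => h l' l) l₁) l = cup k a (fun l' => dd (h l') l) l₁ := by
  unfold cup
  rw [j12159_dd_if (k < l₁.length) (fun l => a (l₁.take (k + 1)) * h (l₁.drop k) l) l]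
  rw [j12159_dd_mul]

theorem d3_Q1 (g : Ch A) : d3 (Q1 g : Ch3 A B C) = Q1 (dd g) := by
  funext l₁ l₂ l₃
  show dd (fun l => if l₂.length = 1 ∧ l₃.length = 1 then g l else 0) l₁ +
    dd (fun l => if l.length = 1 ∧ l₃.length = 1 then g l₁ else 0) l₂ +
    dd (fun l => if l₂.length = 1 ∧ l.length = 1 then g l₁ else 0) l₃ =
    if l₂.length = 1 ∧ l₃.length = 1 then dd g l₁ else 0
  rw [j12159_dd_if, j12159_dd_const_and, j12159_dd_const_and', add_zero, add_zero]

theorem d3_Q2 (g : Ch B) : d3 (Q2 g : Ch3 A B C) = Q2 (dd g) := by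
  funext l₁ l₂ l₃
  show dd (fun l => if l.length = 1 ∧ l₃.length = 1 then g l₂ else 0) l₁ +
    dd (fun l => if l₁.length = 1 ∧ l₃.length = 1 then g l else 0) l₂ +
    dd (fun l => if l₁.length = 1 ∧ l.length = 1 then g l₂ else 0) l₃ =
    if l₁.length = 1 ∧ l₃.length = 1 then dd g l₂ else 0
  rw [j12159_dd_if, j12159_dd_const_and, j12159_dd_const_and', zero_add, add_zero]

theorem d3_Q3 (g : Ch C) : d3 (Q3 g : Ch3 A B C) = Q3 (dd g) := by
  funext l₁ l₂ l₃
  show dd (fun l => if l.length = 1 ∧ l₂.length = 1 then g l₃ else 0) l₁ +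
    dd (fun l => if l₁.length = 1 ∧ l.length = 1 then g l₃ else 0) l₂ +
    dd (fun l => if l₁.length = 1 ∧ l₂.length = 1 then g l else 0) l₃ =
    if l₁.length = 1 ∧ l₂.length = 1 then dd g l₃ else 0
  rw [j12159_dd_if, j12159_dd_const_and, j12159_dd_const_and', zero_add, zero_add]

theorem d3_XX (k : ℕ) (a : Ch A) (b : Ch B) :
    d3 (XX k a b : Ch3 A B C) = XX (k + 1) (dd a) b + XX k a (dd b) := by
  funext l₁ l₂ l₃
  show dd (fun l => if l.length = k + 1 ∧ l₃.length = 1 then a l * b l₂ else 0) l₁ +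
    dd (fun l => if l₁.length = k + 1 ∧ l₃.length = 1 then a l₁ * b l else 0) l₂ +
    dd (fun l => if l₁.length = k + 1 ∧ l.length = 1 then a l₁ * b l₂ else 0) l₃ =
    (if l₁.length = k + 1 + 1 ∧ l₃.length = 1 then dd a l₁ * b l₂ else 0) +
    (if l₁.length = k + 1 ∧ l₃.length = 1 then a l₁ * dd b l₂ else 0)
  rw [j12159_dd_const_and', add_zero]
  congr 1
  · have h1 : (fun l : List A => if l.length = k + 1 ∧ l₃.length = 1 then a l * b l₂ else 0) =
        fun l : List A => if l.length = k + 1 then (if l₃.length = 1 then a l * b l₂ else 0) else 0 := by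
      funext l
      by_cases h1 : l.length = k + 1 <;> by_cases h3 : l₃.length = 1 <;> simp [h1, h3]
    rw [h1, j12159_dd_len (k + 1) (fun l => if l₃.length = 1 then a l * b l₂ else 0) l₁]
    rw [j12159_dd_if (l₃.length = 1) (fun l => a l * b l₂) l₁, j12159_dd_mul']
    by_cases h1 : l₁.length = k + 1 + 1 <;> by_cases h3 : l₃.length = 1 <;> simp [h1, h3]
  · rw [j12159_dd_if (l₁.length = k + 1 ∧ l₃.length = 1) (fun l => a l₁ * b l) l₂, j12159_dd_mul]

theorem d3_ML (k : ℕ) (a : Ch A) (h : Ch3 A B C) :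
    d3 (ML k a h) = ML (k + 1) (dd a) h + ML k a (d3 h) := by
  funext l₁ l₂ l₃
  show dd (cup k a (fun l' => h l' l₂ l₃)) l₁ +
    dd (fun l => cup k a (fun l' => h l' l l₃) l₁) l₂ +
    dd (fun l => cup k a (fun l' => h l' l₂ l) l₁) l₃ =
    cup (k + 1) (dd a) (fun l' => h l' l₂ l₃) l₁ +
    cup k a (((dd fun l' => h l' l₂ l₃) + fun l' => dd (fun l => h l' l l₃) l₂) +
      fun l' => dd (fun l => h l' l₂ l) l₃) l₁
  rw [leibniz, j12159_dd_cup k a (fun l' l => h l' l l₃), j12159_dd_cup k a (fun l' l => h l' l₂ l),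
    cup_add_right, cup_add_right, Pi.add_apply, Pi.add_apply]
  ring

theorem ML_Q1 (k : ℕ) (a g : Ch A) : ML k a (Q1 g : Ch3 A B C) = Q1 (cup k a g) := by
  funext l₁ l₂ l₃
  show cup k a (fun l => if l₂.length = 1 ∧ l₃.length = 1 then g l else 0) l₁ =
    if l₂.length = 1 ∧ l₃.length = 1 then cup k a g l₁ else 0
  rw [j12159_cup_if]

theorem ML_Q2 (k : ℕ) (a : Ch A) (g : Ch B) : ML k a (Q2 g : Ch3 A B C) = XX k a g := by
  funext l₁ l₂ l₃
  show (if k < l₁.length then a (l₁.take (k + 1)) *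
    (if (l₁.drop k).length = 1 ∧ l₃.length = 1 then g l₂ else 0) else 0) =
    if l₁.length = k + 1 ∧ l₃.length = 1 then a l₁ * g l₂ else 0
  rw [List.length_drop]
  by_cases h1 : l₁.length = k + 1
  · have h2 : k < l₁.length := by omega
    have h3 : l₁.length - k = 1 := by omega
    have h4 : l₁.take (k + 1) = l₁ := List.take_of_length_le (by omega)
    rw [h4]
    by_cases h5 : l₃.length = 1 <;> simp [h1, h5]
  · by_cases h2 : k < l₁.length
    · have h3 : ¬ (l₁.length - k = 1) := by omega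
      simp [h1, h2, h3]
    · simp [h1, h2]

theorem j12160_d_append {Ω : Type*} (c : Ch Ω) (l : List Ω) (x : Ω) :
    d c (l ++ [x]) = d (fun l' => c (l' ++ [x])) l + c l := by
  induction l generalizing c with
  | nil => rw [List.nil_append, d_cons, d_nil, d_nil, add_comm]
  | cons y l ih =>
    rw [List.cons_append, d_cons, ih, d_cons, add_assoc]
    rfl

theorem j12160_d_rev {Ω : Type*} (c : Ch Ω) (l : List Ω) :
    d (fun l' => c l'.reverse) l = d c l.reverse := by
  induction l generalizing c with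
  | nil => rw [List.reverse_nil, d_nil, d_nil]
  | cons x l ih =>
    rw [d_cons, List.reverse_cons, j12160_d_append, ← ih, add_comm]
    congr 2
    funext l'
    rw [List.reverse_cons]

theorem j12160_dd_rev {Ω : Type*} (c : Ch Ω) :
    dd (fun l' => c l'.reverse) = fun l => dd c l.reverse := by
  funext l
  unfold dd
  rw [List.length_reverse, j12160_d_rev]

theorem j12160_cupR_eq {Ω : Type*} (k : ℕ) (b c : Ch Ω) :
    cupR k b c = fun l => cup k (fun m => c m.reverse) (fun m => b m.reverse) l.reverse := by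
  funext l
  unfold cupR cup
  rw [List.length_reverse, List.take_reverse, List.drop_reverse]
  simp only [List.reverse_reverse]
  rw [mul_comm, Nat.sub_sub]

theorem dd_cupR {Ω : Type*} (k : ℕ) (b c : Ch Ω) :
    dd (cupR k b c) = cupR k (dd b) c + cupR (k + 1) b (dd c) := by
  rw [j12160_cupR_eq k b c, j12160_dd_rev, j12160_cupR_eq k (dd b) c,
    j12160_cupR_eq (k + 1) b (dd c)]
  funext l
  rw [leibniz, Pi.add_apply, j12160_dd_rev, j12160_dd_rev, add_comm]

theorem cupR_add_left {Ω : Type*} (k : ℕ) (b b' c : Ch Ω) :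
    cupR k (b + b') c = cupR k b c + cupR k b' c := by
  funext l
  simp only [cupR, Pi.add_apply]
  split_ifs
  · rw [add_mul]
  · rw [add_zero]

theorem j12160_d_mul {Ω : Type*} (g : Ch Ω) (a : ZMod 2) (l : List Ω) :
    d (fun l' => g l' * a) l = d g l * a := by
  induction l generalizing g with
  | nil => rw [d_nil, d_nil, zero_mul]
  | cons x l ih => rw [d_cons, d_cons, ih, add_mul]

theorem j12160_dd_mul {Ω : Type*} (g : Ch Ω) (a : ZMod 2) (l : List Ω) :
    dd (fun l' => g l' * a) l = dd g l * a := by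
  unfold dd
  rw [j12160_d_mul]
  split_ifs
  · rw [zero_mul]
  · rfl

theorem j12160_dd_zero {Ω : Type*} (l : List Ω) : dd (fun _ : List Ω => (0 : ZMod 2)) l = 0 := by
  unfold dd
  split_ifs
  · rfl
  · exact congrFun d_zero l

theorem j12160_dd_cupR {Ω Ω' : Type*} (k : ℕ) (F : List Ω' → Ch Ω) (c : Ch Ω) (l : List Ω')
    (l₂ : List Ω) :
    dd (fun m => cupR k (F m) c l₂) l = cupR k (fun m => dd (fun m' => F m' m) l) c l₂ := by
  unfold cupR
  by_cases h : k < l₂.length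
  · simp only [if_pos h]
    exact j12160_dd_mul (fun m' => F m' (l₂.take (l₂.length - k))) _ l
  · simp only [if_neg h]
    exact j12160_dd_zero l

theorem d3_MR (k : ℕ) (h : Ch3 A B C) (c : Ch B) :
    d3 (MR k h c) = MR k (d3 h) c + MR (k + 1) h (dd c) := by
  funext l₁ l₂ l₃
  have e1 : dd (fun l => MR k h c l l₂ l₃) l₁ =
      cupR k (fun m => dd (fun m' => h m' m l₃) l₁) c l₂ :=
    j12160_dd_cupR k (fun m' m => h m' m l₃) c l₁ l₂
  have e2 : dd (fun l => MR k h c l₁ l l₃) l₂ =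
      (cupR k (dd (fun l => h l₁ l l₃)) c + cupR (k + 1) (fun l => h l₁ l l₃) (dd c)) l₂ :=
    congrFun (dd_cupR k (fun l => h l₁ l l₃) c) l₂
  have e3 : dd (fun l => MR k h c l₁ l₂ l) l₃ =
      cupR k (fun m => dd (fun m' => h l₁ m m') l₃) c l₂ :=
    j12160_dd_cupR k (fun m' m => h l₁ m m') c l₃ l₂
  have e4 : MR k (d3 h) c l₁ l₂ l₃ = cupR k (fun m => dd (fun m' => h m' m l₃) l₁) c l₂ +
      cupR k (dd (fun l => h l₁ l l₃)) c l₂ + cupR k (fun m => dd (fun m' => h l₁ m m') l₃) c l₂ := by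
    have e5 : (fun l => d3 h l₁ l l₃) = (fun m => dd (fun m' => h m' m l₃) l₁) +
      (dd (fun l => h l₁ l l₃)) + (fun m => dd (fun m' => h l₁ m m') l₃) := rfl
    change cupR k (fun l => d3 h l₁ l l₃) c l₂ = _
    rw [e5, cupR_add_left, cupR_add_left]
    rfl
  change dd (fun l => MR k h c l l₂ l₃) l₁ + dd (fun l => MR k h c l₁ l l₃) l₂ +
    dd (fun l => MR k h c l₁ l₂ l) l₃ = MR k (d3 h) c l₁ l₂ l₃ +
      cupR (k + 1) (fun l => h l₁ l l₃) (dd c) l₂
  rw [e1, e2, e3, e4, Pi.add_apply]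
  ring

theorem MR_Q2 (k : ℕ) (g c : Ch B) : MR k (Q2 g : Ch3 A B C) c = Q2 (cupR k g c) := by
  funext l₁ l₂ l₃
  simp only [MR, Q2, cupR]
  split_ifs
  · rfl
  · rw [zero_mul]
  · rfl
  · rfl

theorem MR_XX (k : ℕ) (a : Ch A) (b c : Ch B) :
    MR k (XX k a b : Ch3 A B C) c = XX k a (cupR k b c) := by
  funext l₁ l₂ l₃
  simp only [MR, XX, cupR]
  split_ifs
  · rw [mul_assoc]
  · rw [zero_mul]
  · rw [mul_zero]
  · rfl

section
variable [TopologicalSpace A] [TopologicalSpace B] [TopologicalSpace C]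

theorem TT_mem [InvolutiveNeg C] [ContinuousNeg C]
    {p : A × A × C} {n : ℕ} {c : Ch3 A A C} (h : c ∈ N3 p n) :
    TT c ∈ N3 (p.2.1, p.1, - p.2.2) n := by
  rcases Nat.eq_zero_or_pos n with rfl | hn
  · exact Or.inl rfl
  · obtain ⟨W₁, W₂, W₃, h1, h2, h3, m1, m2, m3, hW⟩ := exists_of_mem_N3 hn.ne' h
    refine mem_N3_of (W₁ := W₂) (W₂ := W₁) (W₃ := Neg.neg ⁻¹' W₃) (h2.mem_nhds m2)
      (h1.mem_nhds m1) ((h3.preimage continuous_neg).mem_nhds ?_) ?_
    · show - - p.2.2 ∈ W₃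
      rw [neg_neg]; exact m3
    · intro l₁ l₂ l₃ e1 e2 e3 hl x1 x2 x3
      refine hW l₂ l₁ (l₃.map Neg.neg) e2 e1 ?_ ?_ x2 x1 ?_
      · intro hc
        exact e3 (List.map_eq_nil_iff.1 hc)
      · rw [List.length_map]; omega
      · intro x hx
        obtain ⟨z, hz, rfl⟩ := List.mem_map.1 hx
        exact x3 z hz

theorem Q1_mem {p : A × B × C} {n : ℕ} {g : Ch A} (h : g ∈ Nz p.1 n) :
    (Q1 g : Ch3 A B C) ∈ N3 p n := by
  rcases Nat.eq_zero_or_pos n with rfl | hn
  · exact Or.inl rfl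
  · obtain ⟨W, hW, hz, h'⟩ := exists_of_mem_Nz hn.ne' h
    refine mem_N3_of (hW.mem_nhds hz) Filter.univ_mem Filter.univ_mem ?_
    intro l₁ l₂ l₃ e1 e2 e3 hl x1 _ _
    simp only [Q1]
    split_ifs with hh
    · exact h' l₁ (by omega) x1
    · rfl

theorem Q2_mem {p : A × B × C} {n : ℕ} {g : Ch B} (h : g ∈ Nz p.2.1 n) :
    (Q2 g : Ch3 A B C) ∈ N3 p n := by
  rcases Nat.eq_zero_or_pos n with rfl | hn
  · exact Or.inl rfl
  · obtain ⟨W, hW, hz, h'⟩ := exists_of_mem_Nz hn.ne' h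
    refine mem_N3_of Filter.univ_mem (hW.mem_nhds hz) Filter.univ_mem ?_
    intro l₁ l₂ l₃ e1 e2 e3 hl _ x2 _
    simp only [Q2]
    split_ifs with hh
    · exact h' l₂ (by omega) x2
    · rfl

theorem Q3_mem {p : A × B × C} {n : ℕ} {g : Ch C} (h : g ∈ Nz p.2.2 n) :
    (Q3 g : Ch3 A B C) ∈ N3 p n := by
  rcases Nat.eq_zero_or_pos n with rfl | hn
  · exact Or.inl rfl
  · obtain ⟨W, hW, hz, h'⟩ := exists_of_mem_Nz hn.ne' h
    refine mem_N3_of Filter.univ_mem Filter.univ_mem (hW.mem_nhds hz) ?_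
    intro l₁ l₂ l₃ e1 e2 e3 hl _ _ x3
    simp only [Q3]
    split_ifs with hh
    · exact h' l₃ (by omega) x3
    · rfl

theorem XX_mem {p : A × B × C} {n k : ℕ} {a : Ch A} {b : Ch B} (h : b ∈ Nz p.2.1 (n - k)) :
    (XX k a b : Ch3 A B C) ∈ N3 p n := by
  rcases Nat.eq_zero_or_pos (n - k) with h0 | hn
  · refine mem_N3_of Filter.univ_mem Filter.univ_mem Filter.univ_mem ?_
    intro l₁ l₂ l₃ e1 e2 e3 hl _ _ _
    simp only [XX]
    split_ifs with hh
    · exfalso
      have := List.length_pos_of_ne_nil e2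
      omega
    · rfl
  · obtain ⟨W, hW, hz, h'⟩ := exists_of_mem_Nz hn.ne' h
    refine mem_N3_of Filter.univ_mem (hW.mem_nhds hz) Filter.univ_mem ?_
    intro l₁ l₂ l₃ e1 e2 e3 hl _ x2 _
    simp only [XX]
    split_ifs with hh
    · rw [h' l₂ (by omega) x2, mul_zero]
    · rfl

theorem XX_mem_left {p : A × B × C} {n k : ℕ} {a : Ch A} (b : Ch B) (h : a ∈ Nz p.1 (k + 1)) :
    (XX k a b : Ch3 A B C) ∈ N3 p n := by
  obtain ⟨W, hW, hz, h'⟩ := exists_of_mem_Nz (Nat.succ_ne_zero k) h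
  refine mem_N3_of (hW.mem_nhds hz) Filter.univ_mem Filter.univ_mem ?_
  intro l₁ l₂ l₃ e1 e2 e3 hl x1 _ _
  simp only [XX]
  split_ifs with hh
  · rw [h' l₁ hh.1 x1, zero_mul]
  · rfl

theorem ML_mem {p : A × B × C} {n k : ℕ} (a : Ch A) {h : Ch3 A B C} (hh : h ∈ N3 p n) :
    ML k a h ∈ N3 p (n + k) := by
  rcases Nat.eq_zero_or_pos n with rfl | hn
  · apply mem_N3_of Filter.univ_mem Filter.univ_mem Filter.univ_mem
    intro l₁ l₂ l₃ h1 h2 h3 hl _ _ _
    have e2 : l₂.length ≠ 0 := fun e => h2 (List.length_eq_zero_iff.1 e)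
    have e3 : l₃.length ≠ 0 := fun e => h3 (List.length_eq_zero_iff.1 e)
    exact cup_of_le (by omega)
  · obtain ⟨W₁, W₂, W₃, hW₁, hW₂, hW₃, hp₁, hp₂, hp₃, hW⟩ := exists_of_mem_N3 hn.ne' hh
    apply mem_N3_of (hW₁.mem_nhds hp₁) (hW₂.mem_nhds hp₂) (hW₃.mem_nhds hp₃)
    intro l₁ l₂ l₃ h1 h2 h3 hl hx hy hz
    by_cases hk : k < l₁.length
    · show cup k a (fun l => h l l₂ l₃) l₁ = 0
      rw [cup_of_lt hk]
      have : h (l₁.drop k) l₂ l₃ = 0 := by
        apply hW _ _ _ _ h2 h3 _ _ hy hz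
        · intro e
          have := congrArg List.length e
          rw [List.length_drop, List.length_nil] at this
          omega
        · rw [List.length_drop]
          omega
        · intro x hx'
          exact hx x (List.mem_of_mem_drop hx')
      rw [this, mul_zero]
    · exact cup_of_le (by omega)

theorem ML_mem_left {p : A × B × C} {n k : ℕ} {a : Ch A} (h : Ch3 A B C) (ha : a ∈ Nz p.1 (k + 1)) :
    ML k a h ∈ N3 p n := by
  obtain ⟨W, hW, hpW, hWa⟩ := exists_of_mem_Nz (Nat.succ_ne_zero k) ha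
  apply mem_N3_of (hW.mem_nhds hpW) Filter.univ_mem Filter.univ_mem
  intro l₁ l₂ l₃ h1 h2 h3 hl hx _ _
  by_cases hk : k < l₁.length
  · show cup k a (fun l => h l l₂ l₃) l₁ = 0
    rw [cup_of_lt hk]
    have : a (l₁.take (k + 1)) = 0 := by
      apply hWa
      · rw [List.length_take]
        omega
      · intro x hx'
        exact hx x (List.mem_of_mem_take hx')
    rw [this, zero_mul]
  · exact cup_of_le (by omega)

theorem MR_mem {p : A × B × C} {n k : ℕ} {h : Ch3 A B C} (c : Ch B) (hh : h ∈ N3 p n) :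
    MR k h c ∈ N3 p (n + k) := by
  rcases Nat.eq_zero_or_pos n with hn | hn
  · subst hn
    refine mem_N3_of Filter.univ_mem Filter.univ_mem Filter.univ_mem ?_
    intro l₁ l₂ l₃ h1 h2 h3 hl _ _ _
    have h1' := List.length_pos_iff.2 h1
    have h3' := List.length_pos_iff.2 h3
    simp only [MR, cupR]
    rw [if_neg (by omega)]
  · obtain ⟨W₁, W₂, W₃, o1, o2, o3, m1, m2, m3, H⟩ := exists_of_mem_N3 hn.ne' hh
    refine mem_N3_of (o1.mem_nhds m1) (o2.mem_nhds m2) (o3.mem_nhds m3) ?_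
    intro l₁ l₂ l₃ h1 h2 h3 hl hx hy hz
    simp only [MR, cupR]
    split_ifs with hk
    · have hlen : (l₂.take (l₂.length - k)).length = l₂.length - k := by
        rw [List.length_take]; omega
      rw [H l₁ (l₂.take (l₂.length - k)) l₃ h1 ?_ h3 ?_ hx ?_ hz, zero_mul]
      · rw [← List.length_pos_iff, hlen]; omega
      · rw [hlen]; omega
      · intro x hx'
        exact hy x (List.mem_of_mem_take hx')
    · rfl

theorem MR_mem_right {p : A × B × C} {n k : ℕ} (h : Ch3 A B C) {c : Ch B}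
    (hc : c ∈ Nz p.2.1 (k + 1)) : MR k h c ∈ N3 p n := by
  obtain ⟨W, hW, hpW, H⟩ := exists_of_mem_Nz (Nat.succ_ne_zero k) hc
  refine mem_N3_of Filter.univ_mem (hW.mem_nhds hpW) Filter.univ_mem ?_
  intro l₁ l₂ l₃ h1 h2 h3 hl _ hy _
  simp only [MR, cupR]
  split_ifs with hk
  · rw [H (l₂.drop (l₂.length - k - 1)) ?_ ?_, mul_zero]
    · rw [List.length_drop]; omega
    · intro x hx
      exact hy x (List.mem_of_mem_drop hx)
  · rfl

theorem XX_one {p : A × B × C} {k : ℕ} (a : Ch A) :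
    (XX k a one : Ch3 A B C) - Q1 a ∈ N3 p (k + 1) := by
  refine mem_N3_of Filter.univ_mem Filter.univ_mem Filter.univ_mem ?_
  intro l₁ l₂ l₃ e1 e2 e3 hl _ _ _
  show (if l₁.length = k + 1 ∧ l₃.length = 1 then a l₁ * 1 else 0) -
    (if l₂.length = 1 ∧ l₃.length = 1 then a l₁ else 0) = 0
  have h1 := List.length_pos_of_ne_nil e1
  have h2 := List.length_pos_of_ne_nil e2
  by_cases h : l₁.length = k + 1 ∧ l₃.length = 1
  · rw [if_pos h, if_pos ⟨by omega, h.2⟩, mul_one, sub_self]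
  · rw [if_neg h, if_neg (fun h' => h ⟨by omega, h'.2⟩), sub_zero]

theorem Q1_one {p : A × B × C} : (Q1 one : Ch3 A B C) - one3 ∈ N3 p 1 := by
  refine mem_N3_of Filter.univ_mem Filter.univ_mem Filter.univ_mem ?_
  intro l₁ l₂ l₃ e1 e2 e3 hl _ _ _
  have h1 := List.length_pos_of_ne_nil e1
  have h2 := List.length_pos_of_ne_nil e2
  have h3 := List.length_pos_of_ne_nil e3
  show (if l₂.length = 1 ∧ l₃.length = 1 then (1 : ZMod 2) else 0) - 1 = 0
  rw [if_pos ⟨by omega, by omega⟩, sub_self]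

theorem Q2_one {p : A × B × C} : (Q2 one : Ch3 A B C) - one3 ∈ N3 p 1 := by
  refine mem_N3_of Filter.univ_mem Filter.univ_mem Filter.univ_mem ?_
  intro l₁ l₂ l₃ e1 e2 e3 hl _ _ _
  have h1 := List.length_pos_of_ne_nil e1
  have h2 := List.length_pos_of_ne_nil e2
  have h3 := List.length_pos_of_ne_nil e3
  show (if l₁.length = 1 ∧ l₃.length = 1 then (1 : ZMod 2) else 0) - 1 = 0
  rw [if_pos ⟨by omega, by omega⟩, sub_self]

theorem Q3_one {p : A × B × C} : (Q3 one : Ch3 A B C) - one3 ∈ N3 p 1 := by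
  refine mem_N3_of Filter.univ_mem Filter.univ_mem Filter.univ_mem ?_
  intro l₁ l₂ l₃ e1 e2 e3 hl _ _ _
  have h1 := List.length_pos_of_ne_nil e1
  have h2 := List.length_pos_of_ne_nil e2
  have h3 := List.length_pos_of_ne_nil e3
  show (if l₁.length = 1 ∧ l₂.length = 1 then (1 : ZMod 2) else 0) - 1 = 0
  rw [if_pos ⟨by omega, by omega⟩, sub_self]

/-- the symmetric cross product in terms of the multiplication operators. -/
theorem CC_XX {p : A × A × C} {k : ℕ} (c : Ch A) :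
    (CC k c : Ch3 A A C) - XX k c c ∈ N3 p (2 * k + 1) := by
  refine mem_N3_of Filter.univ_mem Filter.univ_mem Filter.univ_mem ?_
  intro l₁ l₂ l₃ h1 h2 h3 hl _ _ _
  change CC k c l₁ l₂ l₃ - XX k c c l₁ l₂ l₃ = 0
  simp only [CC, XX]
  by_cases hh : l₁.length = k + 1 ∧ l₃.length = 1
  · rw [if_pos ⟨hh.1, by omega, hh.2⟩, if_pos hh, sub_self]
  · rw [if_neg (fun h => hh ⟨h.1, h.2.2⟩), if_neg hh, sub_self]

theorem CC_MR {p : A × A × C} {k : ℕ} (c : Ch A) :
    (CC k c : Ch3 A A C) - MR k (Q1 c) c ∈ N3 p (2 * k + 1) := by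
  refine mem_N3_of Filter.univ_mem Filter.univ_mem Filter.univ_mem ?_
  intro l₁ l₂ l₃ h1 h2 h3 hl _ _ _
  change CC k c l₁ l₂ l₃ - MR k (Q1 c) c l₁ l₂ l₃ = 0
  simp only [CC, MR, Q1, cupR]
  by_cases hh : l₂.length = k + 1 ∧ l₃.length = 1
  · have hlen : (l₂.take (l₂.length - k)).length = 1 := by
      rw [List.length_take]; omega
    rw [if_pos ⟨by omega, hh.1, hh.2⟩, if_pos (by omega), if_pos ⟨hlen, hh.2⟩,
      show l₂.length - k - 1 = 0 by omega, List.drop_zero, sub_self]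
  · rw [if_neg (fun h => hh ⟨h.2.1, h.2.2⟩)]
    split_ifs with h4 h5
    · exfalso
      apply hh
      refine ⟨?_, h5.2⟩
      have := h5.1
      rw [List.length_take] at this
      omega
    · rw [zero_mul, sub_self]
    · rw [sub_self]

theorem h170_d_append {Ω : Type*} (e : Ch Ω) (l m : List Ω) :
    d e (l ++ m) = d (fun l' => e (l' ++ m)) l + d (fun m' => e (l ++ m')) m := by
  induction l generalizing e with
  | nil =>
    rw [d_nil, zero_add]
    rfl
  | cons x l ih =>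
    rw [List.cons_append, d_cons, d_cons, ih (fun l' => e (x :: l')), add_assoc]
    rfl

theorem h170_dd_one {Ω : Type*} (g : Ch Ω) (l : List Ω) (hl : l ≠ []) :
    d g l = dd g l + (if l.length = 1 then g [] else 0) := by
  rcases l with _ | ⟨x, _ | ⟨y, l⟩⟩
  · exact absurd rfl hl
  · rw [dd_short (by simp), d_cons, d_nil, if_pos (by simp)]
    ring
  · rw [dd_apply (by simp), if_neg (by simp), add_zero]

/-- the join homotopy between the two pullbacks. -/
theorem JH_spec {E : Type*} [TopologicalSpace E] [InvolutiveNeg E] [ContinuousNeg E]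
    {π : A → E} {π' : B → E} {p : A × B × C} (hπ : ContinuousAt π p.1)
    (hπ' : ContinuousAt π' p.2.1) (hp : π p.1 = - π' p.2.1) {n : ℕ} {e : Ch E}
    (he : dd e ∈ Nz (π p.1) (n + 1)) :
    (Q1 (pb π e) : Ch3 A B C) + Q2 (pb π' (pb Neg.neg e)) - d3 (JH π π' e) ∈ N3 p n := by
  obtain ⟨W, hWo, hW, hWz⟩ := exists_of_mem_Nz (Nat.succ_ne_zero n) he
  have hW1 : π ⁻¹' W ∈ 𝓝 p.1 := hπ (hWo.mem_nhds hW)
  have hW2 : (fun x => - π' x) ⁻¹' W ∈ 𝓝 p.2.1 := by
    have h1 : ContinuousAt (fun x => - π' x) p.2.1 := hπ'.neg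
    refine h1 (hWo.mem_nhds ?_)
    show - π' p.2.1 ∈ W
    rw [← hp]
    exact hW
  refine mem_N3_of hW1 hW2 Filter.univ_mem ?_
  intro l₁ l₂ l₃ h1 h2 h3 hlen hx hy _
  show Q1 (pb π e) l₁ l₂ l₃ + Q2 (pb π' (pb Neg.neg e)) l₁ l₂ l₃ - d3 (JH π π' e) l₁ l₂ l₃ = 0
  have n1 : 1 ≤ l₁.length := List.length_pos_iff.2 h1
  have n2 : 1 ≤ l₂.length := List.length_pos_iff.2 h2
  have n3 : 1 ≤ l₃.length := List.length_pos_iff.2 h3
  by_cases hl3 : l₃.length = 1
  · -- main case
    have e3 : dd (fun l => JH π π' e l₁ l₂ l) l₃ = 0 := dd_short (by omega)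
    have g1 : (fun l => JH π π' e l l₂ l₃) = fun l => e (l.map π ++ l₂.map (fun x => - π' x)) := by
      funext l
      unfold JH
      rw [if_pos hl3]
    have g2 : (fun l => JH π π' e l₁ l l₃) = fun l => e (l₁.map π ++ l.map (fun x => - π' x)) := by
      funext l
      unfold JH
      rw [if_pos hl3]
    have hd : d e (l₁.map π ++ l₂.map (fun x => - π' x)) = 0 := by
      rw [← dd_apply (by simp only [List.length_append, List.length_map]; omega)]
      refine hWz _ (by simp only [List.length_append, List.length_map]; omega) ?_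
      intro x hxm
      rcases List.mem_append.1 hxm with h | h
      · obtain ⟨y, hy', rfl⟩ := List.mem_map.1 h
        exact hx y hy'
      · obtain ⟨y, hy', rfl⟩ := List.mem_map.1 h
        exact hy y hy'
    rw [h170_d_append] at hd
    have k1 : d (fun l' => e (l' ++ l₂.map (fun x => - π' x))) (l₁.map π) =
        d (fun l => e (l.map π ++ l₂.map (fun x => - π' x))) l₁ := by
      have := congrFun (d_pb π (fun l' => e (l' ++ l₂.map (fun x => - π' x)))) l₁
      exact this.symm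
    have k2 : d (fun m' => e (l₁.map π ++ m')) (l₂.map (fun x => - π' x)) =
        d (fun l => e (l₁.map π ++ l.map (fun x => - π' x))) l₂ := by
      have := congrFun (d_pb (fun x => - π' x) (fun m' => e (l₁.map π ++ m'))) l₂
      exact this.symm
    rw [k1, k2, h170_dd_one _ l₁ h1, h170_dd_one _ l₂ h2] at hd
    have q1 : Q1 (pb π e) l₁ l₂ l₃ = if l₂.length = 1 then e (l₁.map π ++ ([] : List B).map (fun x => - π' x)) else 0 := by
      unfold Q1 pb
      by_cases h : l₂.length = 1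
      · rw [if_pos ⟨h, hl3⟩, if_pos h, List.map_nil, List.append_nil]
      · rw [if_neg (fun hh => h hh.1), if_neg h]
    have q2 : Q2 (pb π' (pb Neg.neg e)) l₁ l₂ l₃ =
        if l₁.length = 1 then e (([] : List A).map π ++ l₂.map (fun x => - π' x)) else 0 := by
      unfold Q2 pb
      by_cases h : l₁.length = 1
      · rw [if_pos ⟨h, hl3⟩, if_pos h, List.map_nil, List.nil_append, List.map_map]
        rfl
      · rw [if_neg (fun hh => h hh.1), if_neg h]
    rw [← q1, ← q2] at hd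
    unfold d3
    rw [e3, g1, g2]
    have a1 := add_self2 (Q1 (pb π e) l₁ l₂ l₃)
    have a2 := add_self2 (Q2 (pb π' (pb Neg.neg e)) l₁ l₂ l₃)
    linear_combination a1 + a2 - hd
  · have q1 : Q1 (pb π e) l₁ l₂ l₃ = 0 := if_neg (fun hh => hl3 hh.2)
    have q2 : Q2 (pb π' (pb Neg.neg e)) l₁ l₂ l₃ = 0 := if_neg (fun hh => hl3 hh.2)
    have g1 : (fun l => JH π π' e l l₂ l₃) = 0 := by
      funext l
      unfold JH
      rw [if_neg hl3]
      rfl
    have g2 : (fun l => JH π π' e l₁ l l₃) = 0 := by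
      funext l
      unfold JH
      rw [if_neg hl3]
      rfl
    unfold d3
    rw [q1, q2, g1, g2]
    have z1 : dd (0 : Ch A) l₁ = 0 := by
      unfold dd; rw [d_zero]; split_ifs <;> rfl
    have z2 : dd (0 : Ch B) l₂ = 0 := by
      unfold dd; rw [d_zero]; split_ifs <;> rfl
    rw [z1, z2]
    have z3 : dd (fun l => JH π π' e l₁ l₂ l) l₃ = 0 := by
      rw [dd_apply (by omega)]
      rcases l₃ with _ | ⟨x, _ | ⟨y, _ | ⟨w, l⟩⟩⟩
      · exact absurd rfl h3
      · exact absurd rfl hl3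
      · rw [d_cons, d_cons, d_nil, add_zero]
        exact add_self2 _
      · refine d_eq_zero _ fun l' hl' _ => ?_
        unfold JH
        rw [if_neg]
        intro h
        rw [h] at hl'
        simp at hl'
    rw [z3]
    simp

/-- the join homotopy vanishes when the cochain vanishes. -/
theorem JH_mem {E : Type*} [TopologicalSpace E] [InvolutiveNeg E] [ContinuousNeg E]
    {π : A → E} {π' : B → E} {p : A × B × C} (hπ : ContinuousAt π p.1)
    (hπ' : ContinuousAt π' p.2.1) (hp : π p.1 = - π' p.2.1) {n : ℕ} {e : Ch E}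
    (he : e ∈ Nz (π p.1) (n + 1)) : (JH π π' e : Ch3 A B C) ∈ N3 p n := by
  obtain ⟨W, hWo, hW, hWz⟩ := exists_of_mem_Nz (Nat.succ_ne_zero n) he
  have hW1 : π ⁻¹' W ∈ 𝓝 p.1 := hπ (hWo.mem_nhds hW)
  have hW2 : (fun x => - π' x) ⁻¹' W ∈ 𝓝 p.2.1 := by
    have h1 : ContinuousAt (fun x => - π' x) p.2.1 := hπ'.neg
    refine h1 (hWo.mem_nhds ?_)
    show - π' p.2.1 ∈ W
    rw [← hp]
    exact hW
  refine mem_N3_of hW1 hW2 Filter.univ_mem ?_
  intro l₁ l₂ l₃ h1 h2 h3 hlen hx hy _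
  unfold JH
  by_cases hl3 : l₃.length = 1
  · rw [if_pos hl3]
    refine hWz _ (by simp only [List.length_append, List.length_map]; omega) ?_
    intro x hxm
    rcases List.mem_append.1 hxm with h | h
    · obtain ⟨y, hy', rfl⟩ := List.mem_map.1 h
      exact hx y hy'
    · obtain ⟨y, hy', rfl⟩ := List.mem_map.1 h
      exact hy y hy'
  · rw [if_neg hl3]

end

end defs

section mor

variable {A B C : Type*} [MetricSpace A] [MetricSpace B] [MetricSpace C]

theorem continuous_pr1 : Continuous fun p : A × B × C => p.1 := continuous_fst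

theorem continuous_pr2 : Continuous fun p : A × B × C => p.2.1 :=
  continuous_fst.comp continuous_snd

/-- the push-forward of `K3` to the second variable. -/
noncomputable abbrev PK2 (H : Set (A × B × C)) (hH : IsCompact H) : SoftCx B (Ch3 A B C) :=
  SoftCx.push (K3 A B C) (fun p => p.2.1) continuous_pr2 H hH

/-- the push-forward of `K3` to the first variable. -/
noncomputable abbrev PK1 (H : Set (A × B × C)) (hH : IsCompact H) : SoftCx A (Ch3 A B C) :=
  SoftCx.push (K3 A B C) (fun p => p.1) continuous_pr1 H hH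

/-- pull-back from the second variable. -/
noncomputable def phi2 (H : Set (A × B × C)) (hH : IsCompact H) : Mor (AS B) (PK2 H hH) where
  f := { toFun := Q2
         map_zero' := by
           funext l₁ l₂ l₃
           simp [Q2]
         map_add' := Q2_add }
  mem z n g hg := by
    rw [mem_push_N]
    intro p hp
    have e : p.2.1 = z := hp.2
    subst e
    exact Q2_mem hg
  comm z n g := by
    rw [mem_push_N]
    intro p hp
    change d3 (Q2 g) - Q2 (dd g) ∈ N3 p n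
    rw [d3_Q2, sub_self]
    exact zero_mem _

/-- pull-back from the first variable. -/
noncomputable def phi1 (H : Set (A × B × C)) (hH : IsCompact H) : Mor (AS A) (PK1 H hH) where
  f := { toFun := Q1
         map_zero' := by
           funext l₁ l₂ l₃
           simp [Q1]
         map_add' := Q1_add }
  mem z n g hg := by
    rw [mem_push_N]
    intro p hp
    have e : p.1 = z := hp.2
    subst e
    exact Q1_mem hg
  comm z n g := by
    rw [mem_push_N]
    intro p hp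
    change d3 (Q1 g) - Q1 (dd g) ∈ N3 p n
    rw [d3_Q1, sub_self]
    exact zero_mem _

/-- cross product with `a`. -/
noncomputable def lam3 (H : Set (A × B × C)) (hH : IsCompact H) (k : ℕ) (a : Ch A)
    (ha : ∀ p ∈ H, dd a ∈ Nz p.1 (k + 2)) : Mor ((AS B).shift k) (PK2 H hH) where
  f := { toFun := XX k a
         map_zero' := by
           funext l₁ l₂ l₃
           simp [XX]
         map_add' := XX_add_right k a }
  mem z n g hg := by
    rw [mem_push_N]
    intro p hp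
    have e : p.2.1 = z := hp.2
    subst e
    exact XX_mem hg
  comm z n g := by
    rw [mem_push_N]
    intro p hp
    change d3 (XX k a g) - XX k a (dd g) ∈ N3 p n
    rw [d3_XX, add_sub_cancel_right]
    exact XX_mem_left g (ha p hp.1)

@[simp] theorem phi2_f (H : Set (A × B × C)) (hH : IsCompact H) (g : Ch B) :
    (phi2 H hH).f g = Q2 g := rfl

@[simp] theorem phi1_f (H : Set (A × B × C)) (hH : IsCompact H) (g : Ch A) :
    (phi1 H hH).f g = Q1 g := rfl

@[simp] theorem lam3_f (H : Set (A × B × C)) (hH : IsCompact H) (k : ℕ) (a : Ch A)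
    (ha : ∀ p ∈ H, dd a ∈ Nz p.1 (k + 2)) (g : Ch B) :
    (lam3 H hH k a ha).f g = XX k a g := rfl

end mor

end Pool.Agent.Helper775.Tight
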