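import Pool.Agent.Helper775.Sym.Final

/-! Short names used in the statement of the theorem. -/

set_option autoImplicit false

namespace Pool.Agent.Helper775.Tight

/-- The product `S^k × S^k` of two unit spheres of `ℝ^{k+1}`. -/
def SphereProd (k : ℕ) : Type :=
  Metric.sphere (0 : EuclideanSpace ℝ (Fin (k + 1))) 1 ×
    Metric.sphere (0 : EuclideanSpace ℝ (Fin (k + 1))) 1

/-- The usual topology (product of the subspace topologies) of `S^k × S^k`. -/
instance instTopologicalSpaceSphereProd (k : ℕ) : TopologicalSpace (SphereProd k) :=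
  inferInstanceAs (TopologicalSpace
    (Metric.sphere (0 : EuclideanSpace ℝ (Fin (k + 1))) 1 ×
      Metric.sphere (0 : EuclideanSpace ℝ (Fin (k + 1))) 1))

theorem final_stmt {k N : ℕ} (hk : 1 ≤ k)
    (f : SphereProd k → EuclideanSpace ℝ (Fin N)) (hf : Continuous f)
    (hinj : Function.Injective f) (hs : Substantial f)
    (ht : TightMap f ∨ CechTightMap f) (hc : CentrallySymmetric f) : N ≤ 2 * k + 2 :=
  final_sym (k := k) (N := N) hk f hf hinj hs ht hc

end Pool.Agent.Helper775.Tight
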